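import Pool.Agent.MP_c69980_ag.G3S.Base
import Pool.Agent.MP_c69980_ag.G3.Amb

/-!
Open surfaces with a nonconstant unit: the package over the strip gives the family at each end.
-/

set_option autoImplicit false

namespace Pool.Agent.MP_c69980_ag.E2.G3S

open Metric Filter Topology Set
open H60 H4 E1

def AHStmt : Prop := ∀ (n : ℕ) (D : Fib n), ∃ M₀ : ℝ, ∀ M σ : ℝ, M₀ ≤ M → σ = 1 ∨ σ = -1 →
  G3.AH D.X D.W D.U D.m D.Φ σ M ∧ ∀ t : ℂ, M ≤ |t.re| → Far D 1 t

theorem ah (h : HypStmt) : AHStmt := by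
  intro n D
  obtain ⟨M₀, -, hM⟩ := far_of_re D 1
  refine ⟨max M₀ 1, fun M σ h1 hσ => ?_⟩
  have hF : ∀ t : ℂ, M ≤ |t.re| → Far D 1 t := fun t ht =>
    hM t (((le_max_left _ _).trans h1).trans ht)
  have hf : ∀ t : ℂ, M < σ * t.re → Far D 1 t := fun t ht => hF t (by
    rcases hσ with rfl | rfl
    · linarith [le_abs_self t.re]
    · linarith [neg_abs_le t.re])
  have hb : ∀ t : ℂ, M < σ * t.re → t ∉ D.B := fun t ht q => by
    have := hf t ht t q
    rw [sub_self, norm_zero] at this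
    linarith
  refine ⟨⟨hσ, (le_max_right _ _).trans h1, D.frm.m0, D.cov.cn,
    fun x hx => D.cov.cone _ ⟨x.1, hx⟩, D.eqp, D.frm.an, fun a j O Y c p hp hU k α β i hk => ?_,
    fun a j O Y c p hp ht => D.pole a j O Y c p hp (hb _ ht), fun t ht => D.vert t (hb t ht),
    fun t ht => ?_⟩, hF⟩
  · simpa using D.frm.hom a j O Y c p hp hU 0 (zero_mem _) k α β i hk
  · obtain ⟨A, -, hA⟩ := h n D 1 |t.re| one_pos
    exact ⟨A, fun F c r r0 hN => hA F _ c r r0 hN fun _ _ => ⟨hf t ht, le_rfl⟩⟩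

end Pool.Agent.MP_c69980_ag.E2.G3S
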