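import Pool.Agent.MP_c69980_ag.G3S.Lat
import Pool.Agent.MP_c69980_ag.E2.AlgA

/-!
Algebra in the function field of the surface: relations, numerators and vertical fibres.
-/

set_option autoImplicit false

noncomputable section

namespace Pool.Agent.MP_c69980_ag.E2.G3S

open MvPolynomial Metric Filter Topology Set
open H60 H4 E1

namespace AlgA

lemma ev_ae {k l : ℕ} (x : Fin l → ℂ) (v : Fin k → PR l) (R : PR k) :
    eval x (aeval v R) = eval (fun i => eval x (v i)) R :=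
  comp_aeval_apply v (aeval x : PR l →ₐ[ℂ] ℂ) R

lemma dvd_van (R : PR 3) (h : ∀ a b : ℂ, eval ![0, a, b] R = 0) : (X 0 : PR 3) ∣ R := by
  have h1 : aeval (![0, X 1, X 2] : Fin 3 → PR 3) R = 0 := by
    refine MvPolynomial.funext fun x => ?_
    rw [ev_ae, map_zero, ← h (x 1) (x 2)]
    congr 2
    funext i
    fin_cases i <;> simp
  have h2 : ∀ R : PR 3, (X 0 : PR 3) ∣ R - aeval (![0, X 1, X 2] : Fin 3 → PR 3) R := by
    intro R
    induction R using MvPolynomial.induction_on with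
    | C c => simp
    | add p q hp hq =>
      rw [map_add, add_sub_add_comm]
      exact dvd_add hp hq
    | mul_X p i hp =>
      have e : p * X i - aeval (![0, X 1, X 2] : Fin 3 → PR 3) (p * X i) =
          (p - aeval (![0, X 1, X 2] : Fin 3 → PR 3) p) * X i +
            aeval (![0, X 1, X 2] : Fin 3 → PR 3) p *
              (X i - (![0, X 1, X 2] : Fin 3 → PR 3) i) := by
        rw [map_mul, aeval_X]; ring
      rw [e]
      refine dvd_add (hp.mul_right _) (Dvd.dvd.mul_left ?_ _)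
      fin_cases i <;> simp
  have := h2 R
  rwa [h1, sub_zero] at this

lemma ee_ae (a b : ℂ) (R : PR 3) :
    (aeval (![0, Polynomial.C Polynomial.X, Polynomial.X] :
      Fin 3 → Polynomial (Polynomial ℂ)) R).evalEval a b = eval ![0, a, b] R := by
  induction R using MvPolynomial.induction_on with
  | C c => simp [Polynomial.algebraMap_apply, Polynomial.evalEval_C]
  | add p q hp hq => rw [map_add, Polynomial.evalEval_add, hp, hq, map_add]
  | mul_X p i hp =>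
    rw [map_mul, Polynomial.evalEval_mul, hp, map_mul, aeval_X, eval_X]
    congr 1
    fin_cases i <;> simp [Polynomial.evalEval_C]

lemma fin_ee {P : Polynomial (Polynomial ℂ)} {s : ℂ} (h : P.leadingCoeff.eval s ≠ 0) :
    {ζ | P.evalEval s ζ = 0}.Finite := by
  have h0 : P.map (Polynomial.evalRingHom s) ≠ 0 := fun e => h (by
    simpa using congrArg (Polynomial.coeff · P.natDegree) e)
  refine (Polynomial.finite_setOfPred_isRoot h0).subset fun ζ hζ => ?_
  rw [mem_ofPred_eq, Polynomial.IsRoot, Polynomial.map_evalRingHom_eval]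
  exact hζ

variable {n : ℕ} {K : Type} [Field K] [Algebra ℂ K]

lemma num {z : Fin n → K} {y : V n} {F H : PR n} {e : ℕ} (hy : On z y) (hF : F.IsHomogeneous e)
    (hH : H.IsHomogeneous e) (h0 : aeval z H ≠ 0) (hr : Reg z y (aeval z F / aeval z H))
    (hv : vl z (aeval z F / aeval z H) y = 0) : eval y F = 0 := by
  obtain ⟨F', H', e', hF', hH', h1, h2⟩ := hr
  rw [h2, vl_eq hy hF' hH' h1, div_eq_zero_iff, or_iff_left h1] at hv
  rw [div_eq_div_iff h0 (fun q => h1 (hy _ _ hH' q))] at h2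
  have := hy _ _ ((hF.mul hH').sub (add_comm e e' ▸ hF'.mul hH)) (by
    rw [map_sub, map_mul, map_mul, h2, sub_self])
  simpa [hv, h1] using this

lemma on (d : Dat K n) (hc : Cov d.L d.W d.X) {x : Pt n} (hx : x ∈ d.X) : On d.z x.2 :=
  Cone.on d.gen (hc.cone _ ⟨x.1, hx⟩)

/-- The part of `W` over the base contains the complement of a curve. -/
lemma good (d : Dat K n) : ∃ (G : PR n) (e : ℕ), G.IsHomogeneous e ∧ aeval d.z G ≠ 0 ∧
    ∀ y ∈ Cone d.W, eval y G ≠ 0 → ∃ t, (t, y) ∈ d.X := by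
  obtain ⟨F, H, e, hF, hH, h0, hu⟩ := quot d.gen d.u
  have F0 : aeval d.z F ≠ 0 := fun q => d.nc 0 (by rw [hu, q, zero_div, map_zero])
  refine ⟨F * H, _, hF.mul hH, by rw [map_mul]; exact mul_ne_zero F0 h0, fun y hy h => ?_⟩
  rw [map_mul] at h
  have h1 := left_ne_zero_of_mul h
  have h2 := right_ne_zero_of_mul h
  refine ⟨Complex.log (eval y F / eval y H), hy, ⟨F, H, e, hF, hH, h2, hu⟩, ?_⟩
  rw [hu, vl_eq (Cone.on d.gen hy) hF hH h2, Complex.exp_log (div_ne_zero h1 h2)]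

lemma nz (d : Dat K n) (hc : Cov d.L d.W d.X) (B : PR n) (e : ℕ) (hB : B.IsHomogeneous e) :
    NZ d.X B ↔ aeval d.z B ≠ 0 := by
  constructor
  · rintro ⟨-, x, hx, h⟩ q
    exact h (on d hc hx _ _ hB q)
  · refine fun h => ⟨⟨e, hB⟩, ?_⟩
    by_contra hn
    obtain ⟨G, f, hG, G0, hX⟩ := good d
    refine mul_ne_zero h G0 ((map_mul _ _ _).symm.trans
      ((d.gen.1 _ _ (hB.mul hG)).2 fun P hP => ?_))
    by_contra h1
    rw [map_mul] at h1
    obtain ⟨t, ht⟩ := hX P.rep ⟨P.rep_nonzero, by rwa [Projectivization.mk_rep]⟩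
      (right_ne_zero_of_mul h1)
    exact hn ⟨(t, P.rep), ht, left_ne_zero_of_mul h1⟩

lemma prime (d : Dat K n) (hc : Cov d.L d.W d.X) : PrimeP d.X := fun B B' h h' => by
  obtain ⟨e, he⟩ := h.1
  obtain ⟨e', he'⟩ := h'.1
  rw [nz d hc _ _ (he.mul he'), map_mul]
  exact mul_ne_zero ((nz d hc _ _ he).1 h) ((nz d hc _ _ he').1 h')

lemma van (d : Dat K n) (hc : Cov d.L d.W d.X) {g : K} (hg : g ≠ 0) :
    ∃ B, NZ d.X B ∧ ∀ x ∈ d.X, Reg d.z x.2 g → vl d.z g x.2 = 0 → eval x.2 B = 0 := by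
  obtain ⟨F, H, e, hF, hH, h0, rfl⟩ := quot d.gen g
  exact ⟨F, (nz d hc _ _ hF).2 fun q => hg (by rw [q, zero_div]),
    fun x hx => num (on d hc hx) hF hH h0⟩

lemma badf (d : Dat K n) (hc : Cov d.L d.W d.X) {G A : K} (h : GP d G A) (S : Finset ℂ) :
    BadfP d.L d.X S := by
  classical
  induction S using Finset.induction_on with
  | empty =>
    obtain ⟨B, h1, h2⟩ := van d hc h.2.1
    refine ⟨B, h1, fun x hx hb => ?_⟩
    have := (h.2.2 x hx).2 (hb.resolve_right (by simp))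
    exact h2 x hx this.1 this.2
  | insert s S _ ih =>
    obtain ⟨B, h1, h2⟩ := ih
    obtain ⟨B', h3, h4⟩ := van d hc (g := G + algebraMap ℂ K (-s)) (by
      rw [map_neg, ← sub_eq_add_neg]; exact sub_ne_zero.2 (h.1 s))
    refine ⟨B * B', prime d hc _ _ h1 h3, fun x hx hb => ?_⟩
    rw [map_mul]
    by_cases hl : x.1 ∈ d.L.lattice
    · rw [h2 x hx (Or.inl hl), zero_mul]
    rcases Finset.mem_insert.1 (hb.resolve_left hl) with e | e
    · obtain ⟨a1, a2⟩ := (h.2.2 x hx).1 hl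
      have c := vl_const (on d hc hx) (-s)
      have b := vl_add (on d hc hx) a1 c.1
      rw [h4 x hx b.1 (by rw [b.2, a2, c.2, e, add_neg_cancel]), mul_zero]
    · rw [h2 x hx (Or.inr e), zero_mul]

lemma big (d : Dat K n) (hc : Cov d.L d.W d.X) (hw : WC d.W) : BigP d.X := by
  obtain ⟨G, f, hG, G0, hX⟩ := good d
  obtain ⟨-, x, hx, x0⟩ := (nz d hc G f hG).2 G0
  obtain ⟨a, b, j, U, Y, ⟨hU, hA, hY⟩, q, hq, c, c0, hp⟩ := hw x.2 (hc.cone _ ⟨x.1, hx⟩)
  have hN : ∀ᶠ p in 𝓝 q, p ∈ U ∧ eval (Y p) G ≠ 0 := (hU.eventually_mem hq).and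
    (((MvPolynomial.continuous_eval G).continuousAt.comp (hA q hq).continuousAt).eventually_ne
      fun e => x0 (by rw [hp, eval_smul_hom hG]; exact mul_eq_zero_of_right _ e))
  refine ⟨a, b, j, fun R e hR h0 => ?_⟩
  by_contra hn
  push Not at hn
  have h1 : ∀ p, p ∈ U ∧ eval (Y p) G ≠ 0 → eval ![p.1, p.2, 1] R = 0 := fun p hp => by
    obtain ⟨a1, a2, a3, a4, -⟩ := hY p hp.1
    obtain ⟨t, ht⟩ := hX _ a4 hp.2
    simpa [a1, a2, a3] using hn _ ht
  have c1 : ContinuousAt (fun v : V 3 => (v 0 / v 2, v 1 / v 2)) ![q.1, q.2, 1] :=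
    ((continuous_apply 0).continuousAt.div (continuous_apply 2).continuousAt (by simp)).prodMk
      ((continuous_apply 1).continuousAt.div (continuous_apply 2).continuousAt (by simp))
  have h2 : (fun v : V 3 => eval v R) =ᶠ[𝓝 ![q.1, q.2, 1]] fun _ => 0 := by
    have hN' : ∀ᶠ p in 𝓝 ((![q.1, q.2, 1] : V 3) 0 / (![q.1, q.2, 1] : V 3) 2,
        (![q.1, q.2, 1] : V 3) 1 / (![q.1, q.2, 1] : V 3) 2), p ∈ U ∧ eval (Y p) G ≠ 0 := by
      have e0 : ((![q.1, q.2, 1] : V 3) 0 / (![q.1, q.2, 1] : V 3) 2,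
        (![q.1, q.2, 1] : V 3) 1 / (![q.1, q.2, 1] : V 3) 2) = q := by simp
      rw [e0]; exact hN
    filter_upwards [c1.eventually hN',
      (continuous_apply 2).continuousAt.eventually_ne
        (show (![q.1, q.2, 1] : V 3) 2 ≠ 0 by simp)] with v a1 a2
    have e1 : v = v 2 • ![v 0 / v 2, v 1 / v 2, 1] := by
      funext i
      fin_cases i <;> simp [mul_div_cancel₀, a2]
    rw [e1, eval_smul_hom hR, h1 _ a1, mul_zero]
  have h3 := AnalyticOnNhd.eq_of_eventuallyEq (AnalyticOnNhd.eval_mvPolynomial R)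
    analyticOnNhd_const h2
  exact h0 (MvPolynomial.funext fun v => by simpa using congrFun h3 v)

lemma fib {L : Bas} {X : Set (Pt n)} {Φ : Fin 3 → Pt n → V n → ℂ}
    {W : Set (PS n)} (h1 : DropP L X) (h2 : ZeroP X W Φ) {Q : PR 3} {f : ℕ}
    (hQ : Q.IsHomogeneous f) (h0 : Q ≠ 0) (a j : Fin n) : ∃ p : Polynomial ℂ, p ≠ 0 ∧
      ∀ t ∉ L.lattice, p.eval (L.wp t) ≠ 0 → ∀ U Y, Chart X a j U Y →
        {ζ | (t, ζ) ∈ U ∧ Y (t, ζ) ∈ Cone W ∧ eval (fun l => fc Φ Y l (t, ζ)) Q = 0}.Finite := by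
  obtain ⟨B, b1, b2⟩ := h2 Q f hQ h0
  obtain ⟨P, p1, p2⟩ := h1 B a j b1
  refine ⟨P.leadingCoeff, Polynomial.leadingCoeff_ne_zero.2 p1, fun t ht hp U Y hY => ?_⟩
  refine (fin_ee hp).subset fun ζ hζ => ?_
  obtain ⟨a1, a2, a3, -⟩ := hY.2.2 _ hζ.1
  simpa [a1, a2] using p2 _ a3 ht (by simp [a1]) (b2 a j U Y hY _ hζ.1 hζ.2.1 hζ.2.2)

end AlgA

open AlgA

theorem algA (h1 : CovStmt) (h2 : GStmt) (h3 : WCStmt) : AlgAStmt := by
  intro K _ _ n d
  have hc := h1 K n d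
  obtain ⟨⟨G, A, hG⟩, -⟩ := h2 K n d
  refine ⟨nz d hc, prime d hc, fun B a j hB => ?_, big d hc (h3 n d.W d.sm), badf d hc hG⟩
  by_cases hj : d.z j = 0
  · exact ⟨1, one_ne_zero, fun x hx _ h _ => (h (by
      simpa using on d hc hx _ _ (isHomogeneous_X ℂ j) (by simpa using hj))).elim⟩
  obtain ⟨e, he⟩ := hB.1
  obtain ⟨P, p1, p2⟩ := dropK K n d.z (aeval d.z B / aeval d.z (X j ^ e : PR n)) G
    (aeval d.z (X a : PR n) / aeval d.z (X j : PR n)) d.tr
    (div_ne_zero ((nz d hc _ _ he).1 hB) (by simp [hj]))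
  refine ⟨P, p1, fun x hx hl hx0 hb => ?_⟩
  have o := on d hc hx
  have b1 : eval x.2 (X j ^ e : PR n) ≠ 0 := by simp [hx0]
  have b2 : eval x.2 (X j : PR n) ≠ 0 := by simp [hx0]
  obtain ⟨a1, a2⟩ := (hG.2.2 x hx).1 hl
  have := p2 x.2 o ⟨_, _, e, he, isHomogeneous_X_pow j e, b1, rfl⟩ a1
    ⟨_, _, 1, isHomogeneous_X _ _, isHomogeneous_X _ _, b2, rfl⟩
    (by rw [vl_eq o he (isHomogeneous_X_pow j e) b1, hb, zero_div])
  rwa [a2, vl_eq o (isHomogeneous_X _ _) (isHomogeneous_X _ _) b2, eval_X, eval_X] at this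

theorem vert : VertStmt := by
  intro n L X W Φ h1 h2 h3
  choose d f Q q1 q2 q3 using h3
  choose p p1 p2 using fun a j => fib h1 h2 (q1 a j (d a j)) (q2 a j) a j
  choose r r1 r2 using fun a j => fib h1 h2 (isHomogeneous_X ℂ (0 : Fin 3)) (X_ne_zero _) a j
  have h0 : ∏ a, ∏ j, p a j * r a j ≠ 0 := Finset.prod_ne_zero_iff.2 fun a _ =>
    Finset.prod_ne_zero_iff.2 fun j _ => mul_ne_zero (p1 a j) (r1 a j)
  refine ⟨(∏ a, ∏ j, p a j * r a j).roots.toFinset, fun t ht a j U Y hY c => ?_⟩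
  obtain ⟨t1, t2⟩ := not_or.1 ht
  rw [Multiset.mem_toFinset, Polynomial.mem_roots h0, Polynomial.IsRoot, Polynomial.eval_prod]
    at t2
  have t3 := Finset.prod_ne_zero_iff.1 t2 a (Finset.mem_univ _)
  rw [Polynomial.eval_prod] at t3
  have t4 := Finset.prod_ne_zero_iff.1 t3 j (Finset.mem_univ _)
  rw [Polynomial.eval_mul, mul_ne_zero_iff] at t4
  have sc : ∀ ζ κ, (∀ l, fc Φ Y l (t, ζ) = κ * c l) → ∀ i,
      eval (fun l => fc Φ Y l (t, ζ)) (Q a j i) = κ ^ f a j * eval c (Q a j i) :=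
    fun ζ κ h i => by
      rw [← eval_smul_hom (q1 a j i)]
      congr 2
      exact funext h
  by_cases hc : eval c (Q a j (d a j)) = 0
  · refine (p2 a j t t1 t4.1 U Y hY).subset fun ζ ⟨z1, z0, κ, z2⟩ => ⟨z1, z0, ?_⟩
    rw [sc ζ κ z2, hc, mul_zero]
  have g0 : ∑ i ∈ Finset.range (d a j + 1), Polynomial.monomial i (eval c (Q a j i)) ≠ 0 :=
    fun h => hc (by
      simpa [Polynomial.coeff_monomial] using congrArg (Polynomial.coeff · (d a j)) h)
  refine ((r2 a j t t1 t4.2 U Y hY).union (Polynomial.finite_setOfPred_isRoot g0)).subset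
    fun ζ ⟨z1, z0, κ, z2⟩ => ?_
  by_cases hκ : κ = 0
  · exact Or.inl ⟨z1, z0, by simp [z2, hκ]⟩
  obtain ⟨a1, a2, -⟩ := hY.2.2 _ z1
  have := q3 a j a j U Y hY _ z1 z0 (by simp [a1])
  simp only [qq, sc ζ κ z2, a1, a2, div_one, mul_assoc, ← Finset.mul_sum] at this
  refine Or.inr ?_
  simpa [Polynomial.IsRoot, Polynomial.eval_finsetSum, hκ] using this

end Pool.Agent.MP_c69980_ag.E2.G3S
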