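import Pool.Agent.MP_c69980_ag.G3S.SpecB

/-!
Algebraic relations between the coefficients of the forms.
-/

set_option autoImplicit false

namespace Pool.Agent.MP_c69980_ag.E2.G3S

open MvPolynomial H60 H4 E1 Filter

namespace AlgB

variable {K : Type} [Field K] [Algebra ℂ K] {n : ℕ}

lemma hom_ev (x : Fin 2 → K) {g : K} (hg : g ∈ Algebra.adjoin ℂ (Set.range x)) :
    ∀ᶠ f in atTop, ∃ Q : PR 3, Q.IsHomogeneous f ∧ aeval ![1, x 0, x 1] Q = g := by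
  induction hg using Algebra.adjoin_induction with
  | mem g hg =>
    obtain ⟨i, rfl⟩ := hg
    filter_upwards [eventually_ge_atTop 1] with f hf
    obtain ⟨f, rfl⟩ := Nat.exists_eq_add_of_le hf
    refine ⟨X i.succ * X 0 ^ f, (isHomogeneous_X _ _).mul (isHomogeneous_X_pow _ _), ?_⟩
    fin_cases i <;> simp
  | algebraMap c =>
    refine Eventually.of_forall fun f => ⟨C c * X 0 ^ f, ?_, by simp⟩
    simpa using (isHomogeneous_C (Fin 3) c).mul (isHomogeneous_X_pow 0 f)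
  | add a b _ _ ha hb =>
    filter_upwards [ha, hb] with f ⟨P, hP, eP⟩ ⟨Q, hQ, eQ⟩
    exact ⟨P + Q, hP.add hQ, by rw [map_add, eP, eQ]⟩
  | mul a b _ _ ha hb =>
    obtain ⟨f₁, P, hP, eP⟩ := ha.exists
    obtain ⟨f₂, h₂⟩ := eventually_atTop.1 hb
    filter_upwards [eventually_ge_atTop (f₁ + f₂)] with f hf
    obtain ⟨Q, hQ, eQ⟩ := h₂ (f - f₁) (by omega)
    exact ⟨P * Q, (show f₁ + (f - f₁) = f by omega) ▸ hP.mul hQ, by rw [map_mul, eP, eQ]⟩

lemma h0_ne (d : Dat K n) : d.h 0 ≠ 0 := fun h =>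
  d.ind.transcendental 0 (by simpa [h] using isAlgebraic_zero)

lemma aeval_h (d : Dat K n) {Q : PR 3} {f : ℕ} (hQ : Q.IsHomogeneous f) :
    aeval (fun l => d.h l) Q = d.h 0 ^ f *
      aeval ![1, d.h 1 / d.h 0, d.h 2 / d.h 0] Q := by
  rw [← aeval_scale hQ]
  refine congrArg (fun v => aeval v Q) (funext fun l => ?_)
  fin_cases l <;> simp [mul_div_cancel₀ _ (h0_ne d)]

lemma aeval_ne (d : Dat K n) {Q : PR 3} {f : ℕ} (hQ : Q.IsHomogeneous f) (h0 : Q ≠ 0) :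
    aeval (fun l => d.h l) Q ≠ 0 := by
  intro h
  rw [aeval_h d hQ, mul_eq_zero, or_iff_right (pow_ne_zero _ (h0_ne d))] at h
  have h1 : aeval (![1, X 0, X 1] : Fin 3 → PR 2) Q = 0 := by
    refine algebraicIndependent_iff.1 d.ind _ ?_
    rw [← h, ← AlgHom.comp_apply, comp_aeval]
    refine congrArg (fun v => aeval v Q) (funext fun l => ?_)
    fin_cases l <;> simp
  refine mul_ne_zero (X_ne_zero (0 : Fin 3)) h0 (MvPolynomial.funext fun y => ?_)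
  rw [map_mul, eval_X, map_zero]
  by_cases hy : y 0 = 0
  · rw [hy, zero_mul]
  have h2 := congrArg (aeval ![y 1 / y 0, y 2 / y 0]) h1
  rw [map_zero, ← AlgHom.comp_apply, comp_aeval] at h2
  have h3 := aeval_scale hQ (y 0) fun i =>
    aeval ![y 1 / y 0, y 2 / y 0] ((![1, X 0, X 1] : Fin 3 → PR 2) i)
  rw [h2, mul_zero] at h3
  have h4 : (fun i => y 0 * aeval ![y 1 / y 0, y 2 / y 0] ((![1, X 0, X 1] : Fin 3 → PR 2) i)) =
      y := funext fun l => by fin_cases l <;> simp [mul_div_cancel₀ _ hy]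
  rw [h4, aeval_eq_eval] at h3
  rw [h3, mul_zero]

lemma homK (d : Dat K n) (ζ : K) : ∃ (k f : ℕ) (Q : ℕ → PR 3), (∀ i, (Q i).IsHomogeneous f) ∧
    Q k ≠ 0 ∧ ∑ i ∈ Finset.range (k + 1), aeval (fun l => d.h l) (Q i) * ζ ^ i = 0 := by
  have hb := d.ind.isTranscendenceBasis_of_lift_trdeg_le_of_finite (by simp [d.tr])
  obtain ⟨p, hp, hz⟩ := hb.isAlgebraic.1 ζ
  obtain ⟨f, hf⟩ := ((eventually_all_finset (Finset.range (p.natDegree + 1))).2 fun i _ =>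
    hom_ev _ (p.coeff i).2).exists
  choose! Q hQ eQ using hf
  refine ⟨p.natDegree, f, fun i => if i ∈ Finset.range (p.natDegree + 1) then Q i else 0,
    fun i => ?_, ?_, ?_⟩
  · by_cases h : i ∈ Finset.range (p.natDegree + 1)
    · simp only [if_pos h]; exact hQ i h
    · simp only [if_neg h]; exact isHomogeneous_zero _ _ _
  · have h1 := Finset.self_mem_range_succ p.natDegree
    simp only [if_pos h1]
    intro h
    have h2 := eQ _ h1
    rw [h, map_zero] at h2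
    exact Polynomial.leadingCoeff_ne_zero.2 hp (Subtype.ext h2.symm)
  · rw [Polynomial.aeval_eq_sum_range] at hz
    rw [← mul_zero (d.h 0 ^ f), ← hz, Finset.mul_sum]
    refine Finset.sum_congr rfl fun i hi => ?_
    simp only [if_pos hi]
    rw [aeval_h d (hQ i hi), mul_assoc]
    exact congrArg (fun t => _ * (t * _)) (eQ i hi)

variable {z : Fin n → K} {y : Fin n → ℂ}

lemma vl_rel (hy : On z y) {u : Fin 3 → K} (hu : ∀ i, Reg z y (u i)) {ζ : K} (hζ : Reg z y ζ)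
    (Q : ℕ → PR 3) (k : ℕ) (h : ∑ i ∈ Finset.range k, aeval u (Q i) * ζ ^ i = 0) :
    ∑ i ∈ Finset.range k, eval (fun l => vl z (u l) y) (Q i) * vl z ζ y ^ i = 0 := by
  have h1 : ∑ i ∈ Finset.range k,
      (⟨aeval u (Q i), (vl_aeval hy hu _).1⟩ : rg hy) * ⟨ζ, hζ⟩ ^ i = 0 :=
    Subtype.ext (by simpa using h)
  have h2 := congrArg (chi hy) h1
  rw [map_zero, map_sum] at h2
  rw [← h2]
  refine Finset.sum_congr rfl fun i _ => ?_
  rw [map_mul, map_pow]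
  exact congrArg (· * vl z ζ y ^ i) (vl_aeval hy hu _).2.symm

lemma num_zero (hy : On z y) {F G : PR n} {e : ℕ} (hF : F.IsHomogeneous e)
    (hG : G.IsHomogeneous e) (h0 : aeval z G ≠ 0) (hr : Reg z y (aeval z F / aeval z G))
    (hv : vl z (aeval z F / aeval z G) y = 0) : eval y F = 0 := by
  obtain ⟨F', G', e', hF', hG', h1, h2⟩ := hr
  rw [h2, vl_eq hy hF' hG' h1, div_eq_zero_iff, or_iff_left h1] at hv
  rw [div_eq_div_iff h0 fun q => h1 (hy _ _ hG' q)] at h2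
  have := hy _ _ ((hF.mul hG').sub (add_comm e e' ▸ hF'.mul hG)) (by
    rw [map_sub, map_mul, map_mul, h2, sub_self])
  rw [map_sub, map_mul, map_mul, hv, zero_mul, sub_zero] at this
  exact (mul_eq_zero.1 this).resolve_right h1

lemma on_of_mem (d : Dat K n) {t : ℂ} {y : V n} (hx : (t, y) ∈ d.X) : On d.z y :=
  Cone.on d.gen hx.1

lemma aeval_div (d : Dat K n) {Q : PR 3} {f : ℕ} (hQ : Q.IsHomogeneous f) (w : K) :
    aeval (fun l => d.h l / w) Q = w⁻¹ ^ f * aeval (fun l => d.h l) Q := by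
  rw [← aeval_scale hQ]
  exact congrArg (fun v => aeval v Q) (funext fun l => div_eq_inv_mul _ _)

lemma eval_scale {Q : PR 3} {f : ℕ} (hQ : Q.IsHomogeneous f) (κ : ℂ) (v : Fin 3 → ℂ) :
    eval (fun l => κ * v l) Q = κ ^ f * eval v Q := eval_smul_hom hQ κ v

lemma rel (d : Dat K n) {Φ : Fin 3 → Pt n → V n → ℂ} (hΦ : Lk0 d Φ) {a j : Fin n}
    {U : Set (ℂ × ℂ)} {Y : ℂ × ℂ → V n} (hc : Chart d.X a j U Y) {p : ℂ × ℂ} (hp : p ∈ U)
    (hU : Y p ∈ Cone d.Uo) {Q : ℕ → PR 3} {f k : ℕ} (hQ : ∀ i, (Q i).IsHomogeneous f) {ζ : K}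
    (hζ : Reg d.z (Y p) ζ) (h : ∑ i ∈ Finset.range k, aeval (fun l => d.h l) (Q i) * ζ ^ i = 0) :
    ∑ i ∈ Finset.range k, eval (fun l => fc Φ Y l p) (Q i) * vl d.z ζ (Y p) ^ i = 0 := by
  obtain ⟨a', b', j', κ, -, -, h1⟩ := hΦ a j U Y hc p hp hU
  have hy : On d.z (Y p) := on_of_mem d (hc.2.2 p hp).2.2.1
  have h2 := vl_rel hy (fun l => (h1 l).1) hζ Q k (by
    simp only [aeval_div d (hQ _), mul_assoc]
    rw [← Finset.mul_sum, h, mul_zero])
  simp only [fun l => (h1 l).2, eval_scale (hQ _), mul_assoc]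
  rw [← Finset.mul_sum, h2, mul_zero]

lemma zero (h3 : AlgAStmt) (d : Dat K n) {Φ : Fin 3 → Pt n → V n → ℂ} (hΦ : Lk0 d Φ) :
    ZeroP d.X d.Uo Φ := by
  classical
  intro Q f hQ h0
  have h1 : ∀ τ : Fin n × Fin n × Fin n, ∃ (F : PR n) (e : ℕ), F.IsHomogeneous e ∧
      aeval d.z F ≠ 0 ∧ (d.wd τ.1 τ.2.1 τ.2.2 ≠ 0 → ∃ G : PR n, G.IsHomogeneous e ∧
        aeval d.z G ≠ 0 ∧ aeval (fun l => d.h l / d.wd τ.1 τ.2.1 τ.2.2 ^ d.m) Q =
          aeval d.z F / aeval d.z G) := by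
    intro τ
    by_cases hw : d.wd τ.1 τ.2.1 τ.2.2 = 0
    · exact ⟨1, 0, isHomogeneous_one _ _, by simp, fun h => (h hw).elim⟩
    obtain ⟨F, G, e, hF, hG, hG0, he⟩ :=
      quot d.gen (aeval (fun l => d.h l / d.wd τ.1 τ.2.1 τ.2.2 ^ d.m) Q)
    refine ⟨F, e, hF, fun h => ?_, fun _ => ⟨G, hG, hG0, he⟩⟩
    rw [h, zero_div, aeval_div d hQ] at he
    exact mul_ne_zero (pow_ne_zero _ (inv_ne_zero (pow_ne_zero _ hw))) (aeval_ne d hQ h0) he
  choose F e hF hF0 hG using h1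
  refine ⟨∏ τ, F τ, ((h3 K n d).1 _ _ (IsHomogeneous.prod _ _ e fun τ _ => hF τ)).2 (by
    rw [map_prod]; exact Finset.prod_ne_zero_iff.2 fun τ _ => hF0 τ), ?_⟩
  intro a j U Y hc p hp hU hz
  obtain ⟨a', b', j', κ, hκ, hw, h1⟩ := hΦ a j U Y hc p hp hU
  have hy : On d.z (Y p) := on_of_mem d (hc.2.2 p hp).2.2.1
  obtain ⟨G, hG1, hG0, he⟩ := hG (a', b', j') hw
  have h2 := vl_aeval hy (fun l => (h1 l).1) Q
  simp only [qq, fun l => (h1 l).2, eval_scale hQ] at hz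
  rw [(mul_eq_zero.1 hz).resolve_left (pow_ne_zero _ hκ), he] at h2
  rw [map_prod]
  exact Finset.prod_eq_zero (Finset.mem_univ (a', b', j')) (num_zero hy (hF _) hG1 hG0 h2.1 h2.2)

lemma alg (d : Dat K n) {Φ : Fin 3 → Pt n → V n → ℂ} (hΦ : Lk0 d Φ) : AlgP d.X d.Uo Φ := by
  intro b k
  obtain ⟨r, f, Q, hQ, h0, h⟩ := homK d (d.z b / d.z k)
  refine ⟨r, f, Q, hQ, h0, fun a j U Y hc p hp hU hk => ?_⟩
  have hy : On d.z (Y p) := on_of_mem d (hc.2.2 p hp).2.2.1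
  have h1 : eval (Y p) (X k) ≠ 0 := by simpa using hk
  have h2 := vl_eq hy (isHomogeneous_X ℂ b) (isHomogeneous_X ℂ k) h1
  rw [aeval_X, aeval_X, eval_X, eval_X] at h2
  rw [← h2]
  exact rel d hΦ hc hp hU hQ
    ⟨X b, X k, 1, isHomogeneous_X _ _, isHomogeneous_X _ _, h1, by simp⟩ h

lemma van (h2 : GStmt) (d : Dat K n) {Φ : Fin 3 → Pt n → V n → ℂ} (hΦ : Lk0 d Φ) :
    VanP d.L d.X d.Uo Φ := by
  obtain ⟨G, A, -, hA, hG⟩ := (h2 K n d).1
  obtain ⟨r, f, Q, hQ, h0, h⟩ := homK d A⁻¹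
  refine ⟨Q r * X 0, f + 1, Nat.succ_pos _, (hQ r).mul (isHomogeneous_X _ _),
    mul_ne_zero h0 (X_ne_zero _), fun a j U Y hc p hp hU hl => ?_⟩
  obtain ⟨h3, h4⟩ := (hG _ (hc.2.2 p hp).2.2.1).2 hl
  have h5 := rel d hΦ hc hp hU (Q := fun i => Q (r + 1 - 1 - i)) (k := r + 1)
    (fun _ => hQ _) h3 (by
    rw [← mul_zero (A ^ r), ← h, Finset.mul_sum, ← Finset.sum_range_reflect]
    refine Finset.sum_congr rfl fun i hi => ?_
    have hi' : i ≤ r := Nat.lt_succ_iff.1 (Finset.mem_range.1 hi)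
    rw [show r + 1 - 1 - (r + 1 - 1 - i) = i by omega, show r + 1 - 1 - i = r - i by omega,
      pow_sub₀ _ hA hi', inv_pow]
    ring)
  rw [show vl d.z A (Y p) = 0 from h4, Finset.sum_range_succ'] at h5
  simp only [pow_succ, mul_zero, Finset.sum_const_zero, zero_add, pow_zero, mul_one,
    Nat.add_sub_cancel, Nat.sub_zero] at h5
  rw [qq, map_mul, h5, zero_mul]

end AlgB

theorem algB (_h1 : CovStmt) (h2 : GStmt) (h3 : AlgAStmt) : AlgBStmt :=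
  fun _ _ _ _ d _ hΦ => ⟨AlgB.zero h3 d hΦ, AlgB.alg d hΦ, AlgB.van h2 d hΦ⟩

end Pool.Agent.MP_c69980_ag.E2.G3S
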