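import Pool.Agent.MP_c69980_ag.G3S.Lat

/-!
The cover of a surface with a nonconstant unit, and the functions that come from the base.
-/

set_option autoImplicit false

noncomputable section

namespace Pool.Agent.MP_c69980_ag.E2.G3S

open MvPolynomial Metric Filter Topology Set
open H60 H4 E1

namespace CovX

variable {n : ℕ} {K : Type} [Field K] [Algebra ℂ K] {d : Dat K n}

lemma reg_of {y : V n} (h : y ∈ Cone d.W) {f : K}
    (hf : f ∈ locRing d.z (Projectivization.mk ℂ y h.1)) : Reg d.z y f := by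
  obtain ⟨F, G, e, hF, hG, h1, h2⟩ :=
    (mem_locRing (fun G e hG q => (d.gen.1 G e hG).1 q _ h.2) f).1 hf
  exact ⟨F, G, e, hF, hG, (eval_mk hG h.1).not.1 h1, h2⟩

lemma on {x : Pt n} (h : x ∈ d.X) : On d.z x.2 := Cone.on d.gen h.1

lemma u0 (d : Dat K n) : d.u ≠ 0 := by simpa using d.nc 0

lemma an (F : PR n) (y : V n) : AnalyticAt ℂ (fun w : V n => eval w F) y :=
  AnalyticAt.aeval_mvPolynomial
    (fun i => (ContinuousLinearMap.proj (R := ℂ) (φ := fun _ : Fin n => ℂ) i).analyticAt y) F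

lemma iff {F G : PR n} {e : ℕ} (hF : F.IsHomogeneous e) (hG : G.IsHomogeneous e)
    (hu : d.u = aeval d.z F / aeval d.z G) {y : V n} (hy : y ∈ Cone d.W) (g0 : eval y G ≠ 0)
    (t : ℂ) : (t, y) ∈ d.X ↔ eval y F / eval y G = Complex.exp t := by
  rw [← vl_eq (Cone.on d.gen hy) hF hG g0, ← hu]
  exact ⟨fun h => h.2.2, fun h => ⟨hy, ⟨F, G, e, hF, hG, g0, hu⟩, h⟩⟩

lemma closed (d : Dat K n) (x : Pt n) (hx : x ∈ closure d.X) (x0 : x.2 ≠ 0) : x ∈ d.X := by
  have fr := mem_closure_iff_frequently.1 hx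
  have key : ∀ φ : Pt n → ℂ, ContinuousAt φ x → (∀ᶠ x' in 𝓝 x, x' ∈ d.X → φ x' = 0) → φ x = 0 :=
    fun φ c1 c2 => by
      by_contra h0
      obtain ⟨x', a1, a2, a3⟩ := (fr.and_eventually ((c1.eventually_ne h0).and c2)).exists
      exact a2 (a3 a1)
  have ce : ∀ P : PR n, ContinuousAt (fun x' : Pt n => eval x'.2 P) x := fun P =>
    ((MvPolynomial.continuous_eval P).comp continuous_snd).continuousAt
  have cx : ContinuousAt (fun x' : Pt n => Complex.exp x'.1) x :=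
    (Complex.continuous_exp.comp continuous_fst).continuousAt
  have hc : x.2 ∈ Cone d.W := by
    obtain ⟨S, hS, hW⟩ := d.cl
    refine ⟨x0, ?_⟩
    rw [hW]
    intro P hP
    obtain ⟨e, he⟩ := hS P hP
    refine (eval_mk he x0).2 (key _ (ce P) (.of_forall fun x' hx' => ?_))
    obtain ⟨h0, hw⟩ := hx'.1
    rw [hW] at hw
    exact (eval_mk he h0).1 (hw P hP)
  rcases d.mor _ hc.2 with h | h
  · obtain ⟨F, G, e, hF, hG, g0, hu⟩ := reg_of hc h
    refine (iff hF hG hu hc g0 x.1).2 ((div_eq_iff g0).2 (sub_eq_zero.1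
      (key (fun x' => eval x'.2 F - Complex.exp x'.1 * eval x'.2 G)
        ((ce F).sub (cx.mul (ce G))) ?_)))
    filter_upwards [(ce G).eventually_ne g0] with x' a1 a2
    exact sub_eq_zero.2 ((div_eq_iff a1).1 ((iff hF hG hu a2.1 a1 x'.1).1 a2))
  · obtain ⟨F, G, e, hF, hG, g0, hu⟩ := reg_of hc h
    have h1 := sub_eq_zero.1 (key (fun x' => eval x'.2 G - Complex.exp x'.1 * eval x'.2 F)
      ((ce G).sub (cx.mul (ce F))) (by
        filter_upwards [(ce G).eventually_ne g0] with x' a1 a2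
        have := (vl_inv (on a2) ⟨a2.2.1, a2.2.2.trans_ne (Complex.exp_ne_zero _)⟩).2
        rw [hu, vl_eq (on a2) hF hG a1, a2.2.2, div_eq_iff a1] at this
        rw [this, mul_inv_cancel_left₀ (Complex.exp_ne_zero _), sub_self]))
    have f0 : eval x.2 F ≠ 0 := fun q => g0 (by rw [h1, q, mul_zero])
    exact (iff hG hF (by rw [← inv_div, ← hu, inv_inv]) hc f0 x.1).2 ((div_eq_iff f0).2 h1)

lemma sub {x : Pt n} (h : x ∈ d.X) (c : ℂ) : Reg d.z x.2 (d.u + algebraMap ℂ K (-c)) ∧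
    vl d.z (d.u + algebraMap ℂ K (-c)) x.2 = Complex.exp x.1 - c := by
  obtain ⟨b1, b2⟩ := vl_const (on h) (-c)
  obtain ⟨b3, b4⟩ := vl_add (on h) h.2.1 b1
  exact ⟨b3, by rw [b4, b2, h.2.2, sub_eq_add_neg]⟩

lemma sub_ne (d : Dat K n) (c : ℂ) : d.u + algebraMap ℂ K (-c) ≠ 0 := fun q =>
  d.nc c (by rwa [map_neg, ← sub_eq_add_neg, sub_eq_zero] at q)

end CovX

open CovX

theorem cov : CovStmt := by
  intro K _ _ n d
  refine ⟨⟨fun x hx => hx.1.1, fun x hx c c0 => ?_, closed d⟩, fun y ⟨_, h⟩ => h.1,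
    fun x hx l hl => ⟨hx.1, hx.2.1, hx.2.2.trans (d.L.exp_add hl _).symm⟩,
    fun t t' y h h' => d.L.exp_eq.1 (h.2.2.symm.trans h'.2.2), fun x hx => ?_⟩
  · have H : Pp (c • x.2) x.2 := ⟨c, c0, rfl⟩
    exact ⟨Cone.smul hx.1 c0, H.reg hx.2.1, (H.vl (on hx) hx.2.1).trans hx.2.2⟩
  · obtain ⟨F, G, e, hF, hG, g0, hu⟩ := hx.2.1
    have e0 := Complex.exp_ne_zero x.1
    have a1 : AnalyticAt ℂ (fun y : V n => eval y F / eval y G / Complex.exp x.1) x.2 :=
      ((an F _).div (an G _) g0).div analyticAt_const e0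
    have v1 : eval x.2 F / eval x.2 G / Complex.exp x.1 = 1 := by
      rw [(iff hF hG hu hx.1 g0 x.1).1 hx, div_self e0]
    have cg := (an G x.2).continuousAt.eventually_ne g0
    refine ⟨fun y => x.1 + Complex.log (eval y F / eval y G / Complex.exp x.1),
      analyticAt_const.add (a1.clog (v1 ▸ Complex.one_mem_slitPlane)), by
        simp only [v1, Complex.log_one, add_zero], ?_, ?_⟩
    · filter_upwards [a1.continuousAt.eventually_ne (v1.trans_ne one_ne_zero), cg] with y b1 b2 b3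
      rw [iff hF hG hu b3 b2, Complex.exp_add, Complex.exp_log b1, mul_div_cancel₀ _ e0]
    · have c1 : ContinuousAt (fun x' : Pt n => (x'.1 - x.1).im) x :=
        (Complex.continuous_im.comp (continuous_fst.sub continuous_const)).continuousAt
      have c2 : ∀ᶠ x' : Pt n in 𝓝 x, (x'.1 - x.1).im ∈ Ioo (-Real.pi) Real.pi :=
        c1.eventually (Ioo_mem_nhds (by simp [Real.pi_pos]) (by simp [Real.pi_pos]))
      filter_upwards [c2, continuousAt_snd.eventually cg] with x' b1 b2 b3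
      rw [(iff hF hG hu b3.1 b2 x'.1).1 b3, ← Complex.exp_sub, Complex.log_exp b1.1 b1.2.le,
        add_sub_cancel]

theorem onto : OntoStmt := by
  intro K _ _ n d
  have key : ∀ y ∈ Cone d.W, Reg d.z y d.u → Reg d.z y d.u⁻¹ → ∃ t, (t, y) ∈ d.X :=
    fun y hy h h' => by
      have o := Cone.on d.gen hy
      have := (vl_mul o h h').2
      rw [mul_inv_cancel₀ (u0 d), (vl_one o).2] at this
      exact ⟨_, hy, h, (Complex.exp_log (left_ne_zero_of_mul_eq_one this.symm)).symm⟩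
  refine ⟨fun y hy => ?_, key⟩
  have hc : y ∈ Cone d.W := ⟨hy.1, d.sub hy.2⟩
  exact key y hc (reg_of hc (d.unit _ hy.2).1) (reg_of hc (d.unit _ hy.2).2)

theorem gS : GStmt := by
  intro K _ _ n d
  refine ⟨⟨(d.u + algebraMap ℂ K (-1))⁻¹, d.u + algebraMap ℂ K (-1), fun s hs => ?_, sub_ne d 1,
    fun x hx => ⟨fun hl => ?_, fun hl => ⟨(sub hx 1).1, ?_⟩⟩⟩, fun t₀ =>
      ⟨d.u + algebraMap ℂ K (-Complex.exp t₀), fun t => Complex.exp t - Complex.exp t₀,
        analyticAt_cexp.sub analyticAt_const, sub_self _, ?_, fun y hx =>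
          ⟨(sub hx _).1, .of_forall fun x h => (sub h _).2⟩⟩⟩
  · refine d.nc (s⁻¹ + 1) ?_
    rw [map_add, map_inv₀, ← hs, inv_inv, map_neg, neg_add_cancel_right]
  · obtain ⟨b1, b2⟩ := sub hx 1
    have := vl_inv (on hx) ⟨b1, b2.trans_ne (d.L.exp_ne hl)⟩
    rwa [b2] at this
  · rw [(sub hx 1).2, d.L.exp_iff.2 hl, sub_self]
  · rw [deriv_sub_const, Complex.deriv_exp]
    exact Complex.exp_ne_zero _

end Pool.Agent.MP_c69980_ag.E2.G3S
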