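import Pool.Agent.MP_c69980_ag.G3S.Base
import Pool.Agent.MP_c69980_ag.G3S.PD

/-!
The critical values of the fibration.
-/

set_option autoImplicit false

noncomputable section

namespace Pool.Agent.MP_c69980_ag.E2.G3S

open MvPolynomial Metric Filter Topology Set
open H60 H4 E1

namespace PrpX

variable {n : ℕ} {K : Type} [Field K] [Algebra ℂ K]

theorem pairs (z : Fin n → K) (G : K) : ∃ s : Finset (PR n), (∀ H ∈ s, ∃ (F : PR n) (e : ℕ),
    F.IsHomogeneous e ∧ H.IsHomogeneous e ∧ G = aeval z F / aeval z H) ∧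
    ∀ y, Reg z y G → ∃ H ∈ s, eval y H ≠ 0 := by
  obtain ⟨s, s1, s2⟩ := (Submodule.fg_span_iff_fg_span_finset_subset {H : PR n | ∃ (F : PR n)
    (e : ℕ), F.IsHomogeneous e ∧ H.IsHomogeneous e ∧ G = aeval z F / aeval z H}).1
    (IsNoetherian.noetherian (Ideal.span _))
  refine ⟨s, fun H hH => s1 hH, fun y ⟨F, H, e, hF, hH, h0, hG⟩ => ?_⟩
  by_contra hn
  push Not at hn
  have : Submodule.span (PR n) {H : PR n | ∃ (F : PR n) (e : ℕ), F.IsHomogeneous e ∧
      H.IsHomogeneous e ∧ G = aeval z F / aeval z H} ≤ RingHom.ker (eval y) := by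
    rw [s2, Submodule.span_le]; exact hn
  exact h0 (this (Submodule.subset_span ⟨F, e, hF, hH, hG⟩))

theorem comb (P : PR n) (y : V n) (α β γ : ℂ) (u v w : V n) :
    ∑ i, eval y (pderiv i P) * (α • u + β • v + γ • w) i = α * ∑ i, eval y (pderiv i P) * u i +
      β * ∑ i, eval y (pderiv i P) * v i + γ * ∑ i, eval y (pderiv i P) * w i := by
  simp only [Finset.mul_sum, ← Finset.sum_add_distrib, Pi.add_apply, Pi.smul_apply, smul_eq_mul]
  exact Finset.sum_congr rfl fun i _ => by ring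

end PrpX

open PrpX in
theorem crit (h1 : SardStmt) (h2 : TanStmt) (h3 : WTStmt) (h4 : WCStmt) (h5 : GStmt)
    (h6 : CovStmt) : CritStmt := by
  classical
  intro K _ _ n d
  have hC := h6 K n d
  obtain ⟨G, A, -, -, hG⟩ := (h5 K n d).1
  obtain ⟨s, s1, s2⟩ := pairs d.z G
  choose! F e hF hH hFH using s1
  have hv : ∀ H ∈ s, ∀ t y, (t, y) ∈ d.X → t ∉ d.L.lattice → eval y H ≠ 0 →
      eval y (F H) / eval y H = d.L.wp t := fun H hs t y hy ht h0 => by
    rw [← vl_eq (Cone.on d.gen (hC.cone y ⟨t, hy⟩)) (hF H hs) (hH H hs) h0, ← hFH H hs]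
    exact ((hG _ hy).1 ht).2
  let S : PR n → Set (V n) := fun H => {y | eval y H ≠ 0 ∧ ∃ t a b j U Y q,
    WCh d.W a b j U Y ∧ q ∈ U ∧ y = Y q ∧ (t, y) ∈ d.X ∧ (t, y) ∉ Rx d.X ∧ t ∉ d.L.lattice}
  have fin : ∀ H ∈ s, ((fun y => eval y (F H) / eval y H) '' S H).Finite := by
    intro H hs
    refine h1 n (S H) (F H) H (fun y hy => hy.1) ?_
    rintro _ ⟨h0, t, a, b, j, U, Y, q, c, hq, rfl, hX, hR, ht⟩ v hP
    obtain ⟨k, P, g, -, -, g0, -, g1, g2⟩ := h2 n d.W a b j U Y d.sm c q hq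
    have dY := (c.2.1 q hq).differentiableAt
    have e1 := g2 v fun l => by
      have a1 := hP (g * P l) (by
        rintro w ⟨-, t', -, -, -, -, -, -, -, -, -, hw, -⟩
        by_cases e : eval w g = 0
        · rw [map_mul, e, zero_mul]
        · rw [map_mul, g1 w (hC.cone w ⟨t', hw⟩) e l, mul_zero])
      have a2 := g1 _ (c.2.2 q hq).2.2.2.1 g0 l
      simp only [pderiv_mul, map_add, map_mul, a2, mul_zero, zero_add, mul_assoc,
        ← Finset.mul_sum] at a1
      exact (mul_eq_zero.1 a1).resolve_left g0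
    obtain ⟨T, T1, T2, T3, -, T4⟩ := h3 n d.L d.W d.X a b j U Y q t hC c hq hX
    have o := d.L.isClosed_lattice.isOpen_compl.mem_nhds ht
    have dP : DifferentiableAt ℂ d.L.wp (T q) := by
      rw [T2]
      exact d.L.differentiableOn_wp.differentiableAt o
    have ev : (fun p => eval (Y p) (F H)) =ᶠ[𝓝 q]
        fun p => d.L.wp (T p) * eval (Y p) H := by
      filter_upwards [T3, (PD.fd_eval dY H).1.continuousAt.eventually_ne h0,
        T1.continuousAt.eventually (show (d.L.lattice : Set ℂ)ᶜ ∈ 𝓝 (T q) from T2 ▸ o)]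
        with p p1 p2 p3
      rw [← hv H hs _ _ p1 p3 p2, div_mul_cancel₀ _ p2]
    have d1 : HasFDerivAt (fun p => d.L.wp (T p)) (0 : ℂ × ℂ →L[ℂ] ℂ) q := by
      have := dP.hasFDerivAt.comp q T1.differentiableAt.hasFDerivAt
      rwa [T4 hR, ContinuousLinearMap.comp_zero] at this
    have d2 : ∀ w, ∑ i, eval (Y q) (pderiv i (F H)) * fderiv ℂ Y q w i =
        d.L.wp t * ∑ i, eval (Y q) (pderiv i H) * fderiv ℂ Y q w i := fun w => by
      rw [← (PD.fd_eval dY _).2, ← (PD.fd_eval dY _).2, ev.fderiv_eq,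
        (d1.fun_mul (PD.fd_eval dY H).1.hasFDerivAt).fderiv, T2]
      simp
    have d3 := ev.self_of_nhds
    simp only [T2] at d3
    rw [e1, comb, comb, euler (hF H hs), euler (hH H hs), dt, dz, d2, d2, d3]
    ring
  refine ⟨(s.finite_toSet.biUnion fin).toFinset, fun x hx hb => by_contra fun hR => hb ?_⟩
  obtain ⟨t, y⟩ := x
  refine or_iff_not_imp_left.2 fun ht => (Finite.mem_toFinset _).2 ?_
  obtain ⟨a, b, j, U, Y, c, q, hq, hy⟩ := h4 n d.W d.sm y (hC.cone y ⟨t, hx⟩)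
  have hX := hC.cn.pp hx hy.symm
  obtain ⟨H, hs, h0⟩ := s2 _ ((hG _ hX).1 ht).1
  exact mem_biUnion hs ⟨Y q, ⟨h0, t, a, b, j, U, Y, q, c, hq, rfl, hX,
    fun r => hR (Rx.pp r hy), ht⟩, hv H hs t _ hX ht h0⟩

end Pool.Agent.MP_c69980_ag.E2.G3S
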