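import Pool.Agent.MP_c69980_ag.G3S.SpecB
import Pool.Agent.MP_c69980_ag.I2.Asm

/-!
The results at one fibre give the results over the universal cover of the punctured plane.
-/

set_option autoImplicit false

noncomputable section

namespace Pool.Agent.MP_c69980_ag.E2.G3S

open MvPolynomial Metric Filter Topology Set
open H60 H4 E1

theorem pS (hl : LatStmt) (hc : CovStmt) (hg : GStmt) (hb : CritStmt) : PStmt := by
  have hf := I2.fwS
  have h1 := I2.clsF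
  have h2 := I2.out0
  intro K _ _ n d Φ hK
  cases n with
  | zero =>
    have h := (d.gen.1 1 0 (isHomogeneous_one _ _)).2 fun x _ =>
      absurd (Subsingleton.elim _ _) x.rep_nonzero
    simp at h
  | succ N =>
    have cov := hc K _ d
    have cone : ∀ x ∈ d.X, x.2 ∈ Cone d.W := fun x hx => cov.cone x.2 ⟨x.1, hx⟩
    have key : ∀ b : ℂ, ∃ F : I2.FD K N, F.X = d.X ∧ F.b = b ∧ I2.Out F d.Uo d.m Φ := by
      intro b
      obtain ⟨τ, ψ, a1, a2, a3, a4⟩ := (hg K _ d).2 b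
      obtain ⟨r₀, r1, r2, r3⟩ := hf K _ d.z d.X b τ ψ cov.cn
        (fun x hx => Cone.on d.gen (cone x hx)) a1 a2 a3 a4
      let F : I2.FD K N :=
        { W := d.W, z := d.z, D := d.D, cl := d.cl, gen := d.gen, tr := d.tr, sm := d.sm,
          li := d.li, X := d.X, b := b, τ := τ, ψ := ψ, r₀ := r₀, cn := cov.cn,
          gr := fun x hx => ⟨cone x hx, cov.loc x hx⟩, r0 := r1, an := r2, reg := r3 }
      refine ⟨F, rfl, rfl, h2 K N F d.Uo d.m d.h Φ d.sub d.ld ?_ ?_⟩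
      · intro a j O Y hY p hp i f g e1 e2 e3 e4
        have := hK a j O Y hY p hp 0 d.L.lattice.zero_mem 1 1 0 i f g one_ne_zero e1 e2 e3 e4
        simpa [fc] using this
      · obtain ⟨S, hS⟩ := hb K _ d
        obtain ⟨r, r4, r5⟩ := ((hl d.L).2.2 S).2.2 b
        exact ⟨r, r4, fun x hx hne => hS x hx.1 fun hB => hne (r5 _ hB hx.2)⟩
    refine ⟨fun b => ?_, ?_, ?_, ?_⟩
    · obtain ⟨F, e1, e2, -⟩ := key b
      rw [← e1, ← e2]
      exact h1 K N F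
    · intro Q e u b r s s' g a j O Y he hQ B1 B2 hU
      obtain ⟨F, e1, rfl, o⟩ := key b
      rw [← e1] at B1 B2
      obtain ⟨ρ₀, p1, p2⟩ := o.wind Q e u r s s' g a j O Y he hQ B1 B2 hU
      refine ⟨ρ₀, p1, fun ρ₁ h => (p2 ρ₁ h).mono fun k hk ρ hρ w hw =>
        ⟨(hk ρ hρ w hw).1, fun hb hv => (hk ρ hρ w hw).2 ?_⟩⟩
      intro a' j' O' Y' hY ζ hζ hU'
      exact hv a' j' O' Y' (e1 ▸ hY) _ hζ hU' hb
    · intro Q e u b r s g a j O Y he hQ B1 _
      obtain ⟨F, e1, rfl, o⟩ := key b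
      rw [← e1] at B1
      obtain ⟨ρ₀, p1, p2⟩ := o.windB Q e u r s g a j O Y he hQ B1
      refine ⟨ρ₀, p1, fun ρ₁ h => (p2 ρ₁ h).mono fun k hk ρ hρ w hw =>
        ⟨(hk ρ hρ w hw).1, fun hb hv => (hk ρ hρ w hw).2 ?_⟩⟩
      intro a' j' O' Y' hY ζ hζ hU'
      exact hv a' j' O' Y' (e1 ▸ hY) _ hζ hU' hb
    · intro u b r s g a j O Y B1
      obtain ⟨F, e1, rfl, o⟩ := key b
      rw [← e1] at B1 ⊢
      obtain ⟨n₁, ρ₀, p1, p2⟩ := o.deg u r s g a j O Y B1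
      exact ⟨ρ₀, n₁, p1, fun ρ₁ h => (p2 ρ₁ h).mono fun k hk ρ hρ =>
        ⟨(hk ρ hρ).1, fun v hv w hw => (hk ρ hρ).2 v w hv hw⟩⟩

end Pool.Agent.MP_c69980_ag.E2.G3S
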