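import Pool.Agent.MP_c69980_ag.G3S.SpecB
import Pool.Agent.MP_c69980_ag.G3S.Lat
import Pool.Agent.MP_c69980_ag.E1.Chart
import Pool.Agent.MP_c69980_ag.E2.PoleA

/-!
Open surfaces with a nonconstant unit: over good values the boundary is a union of graphs.
-/

set_option autoImplicit false

noncomputable section

namespace Pool.Agent.MP_c69980_ag.E2.G3S

open MvPolynomial Metric Filter Topology Set
open H60 H4 E1 Pool.Agent.MP_c69980_ag.E2.PoleX

namespace PoleX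

variable {f g G : ℂ × ℂ → ℂ} {p : ℂ × ℂ}

lemma lin (A : ℂ × ℂ →L[ℂ] ℂ) (v : ℂ × ℂ) : A v = v.1 * A (1, 0) + v.2 * A (0, 1) := by
  have h : v = v.1 • ((1, 0) : ℂ × ℂ) + v.2 • ((0, 1) : ℂ × ℂ) := by ext <;> simp
  conv_lhs => rw [h]
  simp only [map_add, map_smul, smul_eq_mul]

/-- A function that vanishes on a coordinate curve has a proportional differential. -/
lemma ker (hf : AnalyticAt ℂ f p) (hg : AnalyticAt ℂ g p) (hG : AnalyticAt ℂ G p) (f0 : f p = 0)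
    (hj : jb f g p ≠ 0) (h : ∀ᶠ q in 𝓝 p, f q = 0 → G q = 0) : jb G f p = 0 := by
  have hd := hf.differentiableAt.hasFDerivAt.prodMk hg.differentiableAt.hasFDerivAt
  obtain ⟨φ, hφ, h1, h2⟩ := ChartAux.ift (hf.prod hg) fun v hv => by
    rw [hd.fderiv] at hv
    have a1 : fderiv ℂ f p v = 0 := congrArg Prod.fst hv
    have a2 : fderiv ℂ g p v = 0 := congrArg Prod.snd hv
    rw [lin] at a1 a2
    refine Prod.ext (mul_right_cancel₀ hj ?_) (mul_right_cancel₀ hj ?_)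
    · rw [jb, Prod.fst_zero]
      linear_combination fderiv ℂ g p (0, 1) * a1 - fderiv ℂ f p (0, 1) * a2
    · rw [jb, Prod.snd_zero]
      linear_combination fderiv ℂ f p (1, 0) * a2 - fderiv ℂ g p (1, 0) * a1
  have e0 : φ (f p, g p) = p := h1.self_of_nhds
  have hH : AnalyticAt ℂ (G ∘ φ) (f p, g p) := AnalyticAt.comp_of_eq hG hφ e0
  have t1 : Tendsto (fun z : ℂ => (f p, z)) (𝓝 (g p)) (𝓝 (f p, g p)) :=
    Continuous.tendsto (by fun_prop) _
  have z0 : fderiv ℂ (G ∘ φ) (f p, g p) (0, 1) = 0 := by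
    refine (d2_at hH).unique ((hasDerivAt_const _ (0 : ℂ)).congr_of_eventuallyEq ?_)
    filter_upwards [t1.eventually h2,
      ((hφ.continuousAt.tendsto.comp t1).mono_right (by rw [e0])).eventually h] with z a1 a2
    exact a2 ((congrArg Prod.fst a1).trans f0)
  have e1 : fderiv ℂ G p = (fderiv ℂ (G ∘ φ) (f p, g p)).comp
      ((fderiv ℂ f p).prod (fderiv ℂ g p)) :=
    ((hH.differentiableAt.hasFDerivAt.comp p hd).congr_of_eventuallyEq
      (h1.mono fun q hq => (congrArg G hq).symm)).fderiv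
  have e2 : ∀ v, fderiv ℂ G p v = fderiv ℂ f p v * fderiv ℂ (G ∘ φ) (f p, g p) (1, 0) := fun v => by
    rw [e1, ContinuousLinearMap.comp_apply, lin, z0, mul_zero, add_zero]
    rfl
  rw [jb, e2, e2]
  ring

/-- The zero set of a function with nonzero vertical derivative is a graph. -/
lemma graph (hf : AnalyticAt ℂ f p) (f0 : f p = 0) (hv : fderiv ℂ f p (0, 1) ≠ 0) :
    ∃ (ζ : ℂ → ℂ) (ψ : ℂ × ℂ → ℂ), AnalyticAt ℂ ζ p.1 ∧ ζ p.1 = p.2 ∧ AnalyticAt ℂ ψ p ∧
      ∀ᶠ q in 𝓝 p, (f q ≠ 0 ↔ q.2 ≠ ζ q.1) ∧ q.2 - ζ q.1 = f q * ψ q := by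
  have hd := (hasFDerivAt_fst (𝕜 := ℂ) (p := p)).prodMk hf.differentiableAt.hasFDerivAt
  have ha : AnalyticAt ℂ (fun q : ℂ × ℂ => (q.1, f q)) p := analyticAt_fst.prod hf
  obtain ⟨φ, hφ, h1, h2⟩ := ChartAux.ift ha fun v hv' => by
    rw [hd.fderiv] at hv'
    have a1 : v.1 = 0 := congrArg Prod.fst hv'
    have a2 : fderiv ℂ f p v = 0 := congrArg Prod.snd hv'
    rw [lin, a1, zero_mul, zero_add] at a2
    exact Prod.ext a1 ((mul_eq_zero.1 a2).resolve_right hv)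
  have e0 := h1.self_of_nhds
  have t0 := ha.continuousAt.tendsto
  simp only [f0] at hφ h2 e0 t0
  obtain ⟨ψ, hψ, h3⟩ := hdiv (F := fun u => (φ u).2) (analyticAt_snd.comp hφ)
  have t1 : Tendsto (fun q : ℂ × ℂ => (q.1, (0 : ℂ))) (𝓝 p) (𝓝 (p.1, 0)) :=
    Continuous.tendsto (by fun_prop) _
  refine ⟨fun t => (φ (t, 0)).2, fun q => ψ (q.1, f q), analyticAt_snd.comp
    (AnalyticAt.comp_of_eq hφ (analyticAt_id.prod analyticAt_const) rfl), congrArg Prod.snd e0,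
    AnalyticAt.comp_of_eq hψ ha (by rw [f0]), ?_⟩
  filter_upwards [h1, t0.eventually h3, t1.eventually h2] with q a1 a2 a3
  rw [a1] at a2
  refine ⟨not_congr ⟨fun h => sub_eq_zero.1 (by rw [a2, h, zero_mul]), fun h => ?_⟩, a2⟩
  have a4 : q = φ (q.1, 0) := Prod.ext (congrArg Prod.fst a3).symm h
  rw [a4]
  exact congrArg Prod.snd a3

end PoleX

open PoleX in
theorem pole : PoleStmt := by
  intro n m L X U Φ hD ⟨B, hB, hb⟩ hP
  classical
  choose P P0 hP' using fun a j => hD B a j hB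
  choose Q R R0 hQ using fun a j => sep (P0 a j)
  refine ⟨(∏ x : Fin n × Fin n, R x.1 x.2).roots.toFinset, fun a j O Y h p hp hbad hU => ?_⟩
  obtain ⟨τ, r, φ, hτ, hj, hφ, he⟩ := hP a j O Y h p hp
  have hl : p.1 ∉ L.lattice := fun q => hbad (Or.inl q)
  have hw := L.analyticOnNhd_wp p.1 hl
  have hR : (R a j).eval (L.wp p.1) ≠ 0 := fun q => hbad (Or.inr (by
    rw [Multiset.mem_toFinset, Polynomial.mem_roots (Finset.prod_ne_zero_iff.2 fun x _ => R0 _ _),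
      Polynomial.IsRoot, Polynomial.eval_prod]
    exact Finset.prod_eq_zero (Finset.mem_univ (a, j)) q))
  have key : ∀ᶠ q in 𝓝 p, Y q ∉ Cone U → (Q a j).evalEval (L.wp q.1) q.2 = 0 ∧
      (Q a j).derivative.evalEval (L.wp q.1) q.2 ≠ 0 := by
    filter_upwards [h.1.mem_nhds hp,
      continuous_fst.continuousAt.eventually (L.isClosed_lattice.isOpen_compl.mem_nhds hl),
      continuous_fst.continuousAt.eventually (((R a j).continuous.continuousAt.comp
        hw.continuousAt).eventually_ne hR)] with q a1 a2 a3 a4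
    obtain ⟨b1, b2, b3, -⟩ := h.2.2 q a1
    have b4 := hP' a j _ b3 a2 (b1.trans_ne one_ne_zero) (hb _ b3 a4)
    simp only [b1, b2, div_one] at b4
    exact hQ a j _ _ a3 b4
  have hG := an_ev hw (Q a j)
  have hv := (key.self_of_nhds hU).2
  rw [← d2_ev hw] at hv
  have hz : ∀ i ∈ r, ∀ᶠ q in 𝓝 p, τ i q = 0 → (Q a j).evalEval (L.wp q.1) q.2 = 0 :=
    fun i hi => by
      filter_upwards [key, he] with q a1 a2 a3
      exact (a1 fun a4 => a2.1.1 a4 (Finset.prod_eq_zero hi a3)).1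
  have k0 := fun hi => ker (hτ 0).1 (hτ 1).1 hG (hτ 0).2 hj (hz 0 hi)
  have k1 := fun hi => ker (hτ 1).1 (hτ 0).1 hG (hτ 1).2
    (fun q => hj (by rw [jb] at q ⊢; linear_combination -q)) (hz 1 hi)
  simp only [jb] at hj k0 k1
  obtain ⟨i, hi⟩ : r.Nonempty := Finset.nonempty_iff_ne_empty.2 fun q =>
    hU (he.self_of_nhds.1.2 (by rw [q, Finset.prod_empty]; exact one_ne_zero))
  have hn : ¬(0 ∈ r ∧ 1 ∈ r) := fun q => mul_ne_zero hv hj (by
    linear_combination fderiv ℂ (τ 0) p (0, 1) * k1 q.2 - fderiv ℂ (τ 1) p (0, 1) * k0 q.1)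
  have hr : r = {i} := Finset.eq_singleton_iff_unique_mem.2 ⟨hi, fun k hk => by
    fin_cases i <;> fin_cases k
    exacts [rfl, (hn ⟨hi, hk⟩).elim, (hn ⟨hk, hi⟩).elim, rfl]⟩
  have hi' : fderiv ℂ (τ i) p (0, 1) ≠ 0 := fun q => mul_ne_zero hv hj (by
    fin_cases i
    · have := k0 hi
      simp only [Fin.zero_eta] at q
      rw [q] at this ⊢
      linear_combination -fderiv ℂ (τ 1) p (0, 1) * this
    · have := k1 hi
      simp only [Fin.mk_one] at q
      rw [q] at this ⊢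
      linear_combination fderiv ℂ (τ 0) p (0, 1) * this)
  obtain ⟨ζ, ψ, hζ, ζ0, hψ, hg⟩ := graph (hτ i).1 (hτ i).2 hi'
  refine ⟨ζ, fun l q => ψ q ^ m * φ l q, hζ, ζ0, fun l => (hψ.pow m).mul (hφ l), ?_⟩
  filter_upwards [he, hg] with q a1 a2
  rw [hr, Finset.prod_singleton] at a1
  refine ⟨a1.1.trans a2.1, fun a3 l => ?_⟩
  rw [a1.2 (a1.1.2 (a2.1.2 a3)) l, a2.2, mul_pow]
  ring

end Pool.Agent.MP_c69980_ag.E2.G3S
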