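import Pool.Agent.MP_c69980_ag.G3S.Ana
import Pool.Agent.MP_c69980_ag.G3S.AlgA
import Pool.Agent.MP_c69980_ag.G3S.AlgB
import Pool.Agent.MP_c69980_ag.G3S.Cov
import Pool.Agent.MP_c69980_ag.G3S.Crit
import Pool.Agent.MP_c69980_ag.G3S.Frm
import Pool.Agent.MP_c69980_ag.G3S.P
import Pool.Agent.MP_c69980_ag.G3S.PD
import Pool.Agent.MP_c69980_ag.G3S.Par
import Pool.Agent.MP_c69980_ag.G3S.Phi
import Pool.Agent.MP_c69980_ag.G3S.Pole
import Pool.Agent.MP_c69980_ag.G3S.RatP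
import Pool.Agent.MP_c69980_ag.G3S.WC
import Pool.Agent.MP_c69980_ag.E1.AlgBA

/-!
Open surfaces with a nonconstant unit: assembly of the rows over the strip.
-/

set_option autoImplicit false

namespace Pool.Agent.MP_c69980_ag.E2.G3S

open H60 H4 E1

theorem aJac : JacStmt := jac (pdS tan)

theorem aAlgA : AlgAStmt := algA cov gS wc

theorem aFrm : FrmStmt := frm aJac wc cov

theorem aCrit : CritStmt := crit sard tan (wt gen) wc gS cov

theorem aPar : ParStmt := par aJac wc cov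

theorem aPhi : PhiStmt := phi aJac wc cov

lemma bad_mono {L : Bas} {S S' : Finset ℂ} (h : S ⊆ S') : Bad L S ⊆ Bad L S' :=
  fun _ q => q.imp_right fun a => h a

/-- The analytic package of the data. -/
theorem pack : PackStmt := by
  classical
  intro K _ _ n d
  obtain ⟨Φ, kl⟩ := aPhi K n d
  obtain ⟨fr, l0⟩ := aFrm K n d Φ kl
  obtain ⟨S₁, b1⟩ := aCrit K n d
  obtain ⟨-, a1, a2, a3, a4⟩ := aAlgA K n d
  obtain ⟨c1, c2, c3⟩ := algB cov gS aAlgA K n d Φ l0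
  obtain ⟨S₂, b2⟩ := vert n d.L d.X d.Uo Φ a2 c1 c2
  obtain ⟨e1, e2⟩ := eqp cov K n d
  obtain ⟨S₃, b3⟩ := pole n d.m d.L d.X d.Uo Φ a2 e2 (aPar K n d Φ kl)
  obtain ⟨p1, p2, p3, p4⟩ := pS lat cov gS aCrit K n d Φ kl
  obtain ⟨r1, r2⟩ := ratP cov aAlgA K n d Φ l0
  exact ⟨⟨d.L, d.W, d.Uo, d.X, d.m, Φ, S₁ ∪ (S₂ ∪ S₃), cov K n d, e1, fr,
    nonreg (wt gen) n _ _ _ (cov K n d) (wc n _ d.sm),
    fun x hx q => b1 x hx fun r => q (bad_mono Finset.subset_union_left r), a1, a2, a3, a4 _, p1,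
    c1, c2, c3, fun t q => b2 t fun r => q (bad_mono
      (Finset.subset_union_left.trans Finset.subset_union_right) r), e2,
    fun a j O Y h p hp q => b3 a j O Y h p hp fun r => q (bad_mono
      (Finset.subset_union_right.trans Finset.subset_union_right) r), p2, p3, p4,
    (onto K n d).1, r1, r2⟩, rfl, rfl, rfl, rfl, kl⟩

/-- The analytic result follows from the statement on the ends. -/
theorem main (hE : EndStmt) : MainStmt := by
  intro K _ _ n d
  obtain ⟨D, h1, h2, h3, h4, kl⟩ := pack K n d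
  obtain ⟨T, t1, t2⟩ := aND n D (hE K n d D h1 h2 h3 h4 kl)
  obtain ⟨e, he⟩ := t1.1
  exact ⟨T, e, he, ((aAlgA K n d).1 T e he).1 (h3 ▸ t1), h2 ▸ t2⟩

end Pool.Agent.MP_c69980_ag.E2.G3S
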