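import Pool.Agent.MP_c69980_ag.G3S.Base

/-!
Row Alpha: the numbers of zeros of one form along the sections are bounded.
-/

set_option autoImplicit false

noncomputable section

namespace Pool.Agent.MP_c69980_ag.E2.G3S

open Metric Filter Topology Set
open H60 H4 E1

namespace AlphaX

variable {n : ℕ} {D : Fib n} {a j a' j' : Fin n} {U : Set (ℂ × ℂ)} {Y : ℂ × ℂ → V n} {p : ℂ × ℂ}
  {y : V n} {O : Set ℂ} {g : ℂ → V n} {t : ℂ}

/-- A section lies locally in a chart. -/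
lemma loc (hg : Sc D.X O g) (o : IsOpen O) (ht : t ∈ O) : ∃ (a j : Fin n) (U : Set (ℂ × ℂ))
    (Y : ℂ × ℂ → V n) (f : ℂ → ℂ), Chart D.X a j U Y ∧ AnalyticAt ℂ f t ∧
      ∀ᶠ w in 𝓝 t, (w, f w) ∈ U ∧ Pp (g w) (Y (w, f w)) := by
  obtain ⟨a, j, U, Y, c, z, z1, z2⟩ := hg.rx D.cov.cn D.nonreg o ht
  have h := (c.ev_pc (τ := id) D.cov.cn z1 ht continuousWithinAt_id hg.1.pc
    (eventually_mem_nhdsWithin.mono hg.2) rfl z2).2
  rw [o.nhdsWithin_eq ht] at h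
  exact ⟨a, j, U, Y, _, c, (hg.1.ratio ht a (c.eq z1 z2).1).1, h⟩

/-- The function whose zeros are avoided. -/
def bad (D : Fib n) (a j : Fin n) (i : Fin 3) (x : Pt n) (v : V n) : ℂ :=
  x.2 j * wg x.2 v (j, a) * D.Φ i x v

lemma bad_iff (h : Chart D.X a' j' U Y) (hp : p ∈ U) (hU : y ∈ Cone D.U) (hy : Pp y (Y p))
    (i : Fin 3) :
    bad D a j i (p.1, y) (tv D.X (p.1, y)) = 0 ↔ bad D a j i (p.1, Y p) (dz Y p) = 0 := by
  obtain ⟨κ, k0, e1, -, e2⟩ := D.frm.vt D.cov.cn h hp (cone_pp hU hy.symm) hy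
    (Rx.vt D.cov.cn (h.rx hp hy))
  obtain ⟨c0, hc⟩ := h.eq hp hy
  have e3 : y j = y j' * Y p j := congrFun hc j
  have e : bad D a j i (p.1, y) (tv D.X (p.1, y)) =
      (y j' * (y j' ^ 2 * κ) * κ ^ D.m) * bad D a j i (p.1, Y p) (dz Y p) := by
    simp only [bad]
    rw [e1, e2, e3, Pi.smul_apply, smul_eq_mul, fc]
    ring
  rw [e, mul_eq_zero, or_iff_right (mul_ne_zero (mul_ne_zero c0
    (mul_ne_zero (pow_ne_zero _ c0) k0)) (pow_ne_zero _ k0))]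

/-- One pair of coordinates and one form serve outside a discrete set. -/
lemma gen (hg' : Sc D.Xo O g) (o : IsOpen O) (hO : IsPreconnected O) (ht : t ∈ O) {i : Fin 3}
    (h0 : ph D i t (g t) ≠ 0) : ∃ (a j : Fin n), ∀ t ∈ O, ∀ᶠ w in 𝓝[≠] t,
      ¬bad D a j i (w, g w) (tv D.X (w, g w)) = 0 := by
  obtain ⟨hg, hU⟩ := sc_op.1 hg'
  obtain ⟨a, j, U, Y, f, c, -, hf⟩ := loc hg o ht
  obtain ⟨f1, f2⟩ := hf.self_of_nhds
  have hi : fc D.Φ Y i (t, f t) ≠ 0 := fun e => by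
    obtain ⟨κ, -, -, k, -⟩ := ph_chart0 c f1 (cone_pp (hU t ht) f2.symm) f2
    exact h0 (by rw [k, e, mul_zero])
  refine ⟨a, j, (iden (E := ℂ) hO fun w hw => ?_).resolve_left fun q => ?_⟩
  · obtain ⟨a', j', U', Y', f', c', a1, a2⟩ := loc hg o hw
    have b1 := a2.self_of_nhds.1
    have b2 : AnalyticAt ℂ (fun w => (w, f' w)) w := analyticAt_id.prod a1
    have b3 : AnalyticAt ℂ (fun w => Y' (w, f' w)) w := (c'.an b1).comp_of_eq b2 rfl
    have b4 : AnalyticAt ℂ (fun w => dz Y' (w, f' w)) w := (dz_an (c'.an b1)).comp_of_eq b2 rfl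
    exact ⟨fun w => bad D a j i (w, Y' (w, f' w)) (dz Y' (w, f' w)),
      ((analyticAt_pi_iff.1 b3 j).mul (analyticAt_pi_iff.1 (wg_an b3 b4) (j, a))).mul
        ((D.frm.an _ _ _ _ c' _ b1 (cone_pp (hU w hw) a2.self_of_nhds.2.symm) i).comp_of_eq b2 rfl),
      (a2.and (o.eventually_mem hw)).mono fun w q => bad_iff c' q.1.1 (hU w q.2) q.1.2 i⟩
  · have := (bad_iff c f1 (hU t ht) f2 i).1 (q t ht).self_of_nhds
    simp only [bad] at this
    rw [c.yj f1, c.wg_dz f1, one_mul, one_mul] at this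
    exact hi this

end AlphaX

open AlphaX in
theorem alpha (h1 : TubeStmt) (h2 : NearStmt) (h3 : GenStmt) (h4 : StarStmt) (h5 : VHStmt)
    (h6 : FacStmt) (h7 : VFStmt) : AlphaStmt := by
  rintro n D u c r s g ⟨r0, hP, hs', hg', hC, y, hy⟩ ⟨t₁, ht₁, i, hi⟩
  have hX := D.cov.cn
  have hs := fun k => (nm_op.1 (hs' k)).1
  obtain ⟨hg, hU⟩ := sc_op.1 hg'
  have o : IsOpen (ball c r \ {c}) := isOpen_ball.sdiff isClosed_singleton
  have hO : ball c r \ {c} ∈ 𝓝[≠] c := sdiff_mem_nhdsWithin_compl (ball_mem_nhds c r0) _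
  obtain ⟨k₀, hk₀⟩ := hy.exists
  have an : ∀ k, ∀ t ∈ ball c r, AnalyticAt ℂ (s k) t := fun k t => Crv.an (hs k).1 isOpen_ball
  refine (hg.1.iden_pp ((crv_lh (hs k₀).1 isOpen_ball).mono sdiff_subset) (punct_conn c r)).imp
    (fun q => ⟨s k₀, an _ _ (mem_ball_self r0), (hs k₀).1.2 _ (mem_ball_self r0),
      mem_of_superset hO q⟩) fun q => ?_
  obtain ⟨a, j, hb⟩ := gen hg' o (punct_conn c r) ht₁ hi
  obtain ⟨ρ, ⟨ρ0, ρr⟩, hρ⟩ := gen_rad (P := fun w => Pp (g w) (s k₀ w) ∨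
    bad D a j i (w, g w) (tv D.X (w, g w)) = 0)
    (fun t ht => ((q t ht).and (hb t ht)).mono fun w => not_or.2) c r0
  have cB : closedBall c ρ ⊆ ball c r := closedBall_subset_ball ρr
  have sB : sphere c ρ ⊆ ball c r := sphere_subset_closedBall.trans cB
  have sO : sphere c ρ ⊆ ball c r \ {c} := fun t ht =>
    ⟨sB ht, ne_of_mem_sphere ht ρ0.ne'⟩
  have g1 : ∀ t ∈ sphere c ρ, ¬Pp (g t) (s k₀ t) := fun t ht e => hρ t (sO ht) ht (.inl e)
  have g2 : ∀ t ∈ sphere c ρ, (g t j ≠ 0 ∧ wg (g t) (tv D.X (t, g t)) (j, a) ≠ 0) ∧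
      D.Φ i (t, g t) (tv D.X (t, g t)) ≠ 0 := fun t ht =>
    (mul_ne_zero_iff.1 fun e => hρ t (sO ht) ht (.inr e)).imp_left mul_ne_zero_iff.1
  have g3 : ∀ t ∈ sphere c ρ, (t, g t) ∈ Rx D.X := fun t ht => hg.rx hX D.nonreg o (sO ht)
  have pc : PC (sphere c ρ) g := hg.1.pc.mono sO
  obtain ⟨U, Y, ch, hY⟩ := h1 n D.X a j _ g hX (isCompact_sphere c ρ) pc fun t ht =>
    (rg_iff h3 hX (g3 t ht) (Rx.vt hX (g3 t ht))).2 (g2 t ht).1
  have cK : IsCompact ((fun t => (t, g t a / g t j)) '' sphere c ρ) :=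
    (isCompact_sphere c ρ).image_of_continuousOn
      (continuousOn_id.prodMk (pc.ratio a fun t ht => (g2 t ht).1.1))
  obtain ⟨ε, ε0, hε⟩ := cK.exists_cthickening_subset_open (t := interior
    {p | (p ∈ U ∧ Y p ∈ Cone D.U) ∧ fc D.Φ Y i p ≠ 0 ∧ wg (s k₀ p.1) (Y p) ≠ 0})
    isOpen_interior (by
      rintro _ ⟨t, ht, rfl⟩
      obtain ⟨b1, b2⟩ := hY t ht
      have b3 := cone_pp (hU t (sO ht)) b2.symm
      obtain ⟨κ, -, -, -, e⟩ := D.frm.vt hX ch b1 b3 b2 (Rx.vt hX (g3 t ht))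
      have c1 : ContinuousAt (fun p : ℂ × ℂ => wg (s k₀ p.1) (Y p)) (t, g t a / g t j) :=
        wg_cont.continuousAt.comp (((an k₀ t (sB ht)).continuousAt.comp_of_eq
          continuousAt_fst rfl).prodMk (ch.an b1).continuousAt)
      refine mem_interior_iff_mem_nhds.2 (Eventually.and (D.ev_chart ch b1 b3) (Eventually.and
        ((D.frm.an _ _ _ _ ch _ b1 b3 i).continuousAt.eventually_ne fun e0 => (g2 t ht).2 ?_)
        (c1.eventually_ne fun e0 => g1 t ht (b2.trans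
          ((wg_eq_zero ((hs k₀).1.2 t (sB ht)) (ch.ne b1)).1 e0)))))
      exact (e i).trans (by rw [e0, mul_zero]))
  have hK := fun p hp => interior_subset (hε (a := p) hp)
  have mK : ∀ t ∈ sphere c ρ, ∀ w ∈ closedBall (g t a / g t j) ε,
      (t, w) ∈ cthickening ε ((fun t => (t, g t a / g t j)) '' sphere c ρ) := fun t ht w hw =>
    mem_cthickening_of_dist_le _ _ _ _ ⟨t, ht, rfl⟩ (dist_prod_same_left.trans_le hw)
  obtain ⟨A, hA⟩ := cK.cthickening.exists_bound_of_continuousOn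
    (f := fun p l => fc D.Φ Y l p / fc D.Φ Y i p) (continuousOn_pi.2 fun l p hp =>
      ((D.frm.an _ _ _ _ ch _ (hK p hp).1.1 (hK p hp).1.2 l).continuousAt.div
        (D.frm.an _ _ _ _ ch _ (hK p hp).1.1 (hK p hp).1.2 i).continuousAt
          (hK p hp).2.1).continuousWithinAt)
  obtain ⟨η, η0, hη⟩ := h2 n D.X a j U _ Y ε hX ch cK
    (by rintro _ ⟨t, ht, rfl⟩; exact (hY t ht).1) ε0
  have good : ∀ᶠ k in u, Cl D.X c y (s k c) ∧ ∀ t ∈ sphere c ρ,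
      s k t a / s k t j ∈ closedBall (g t a / g t j) ε ∧
        Pp (s k t) (Y (t, s k t a / s k t j)) := by
    filter_upwards [hy, hC.unif (isCompact_sphere c ρ) sO η0] with k b1 b2
    refine ⟨b1, fun t ht => ?_⟩
    obtain ⟨e1, e2, -, e3⟩ := hη _ ⟨t, ht, rfl⟩ _ ((hs k).2.2 t (sB ht)) (by simpa using η0.le)
      (((Pp.refl _).d2 (hY t ht).2).symm.trans_le (b2 t ht))
    exact ⟨mem_closedBall_iff_norm.2 e2, _, e1, e3⟩
  have cnt : ∀ k, (∀ t ∈ sphere c ρ, s k t a / s k t j ∈ closedBall (g t a / g t j) ε ∧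
      Pp (s k t) (Y (t, s k t a / s k t j))) → ∃ (M I : ℕ) (v : ℂ → V n),
      Zv c ρ (fun t => wg (s k₀ t) (s k t)) I ∧
      (VL D.X c ρ (s k) v ∧ VH D.X (ball c ρ) (s k) v) ∧
      (∀ l, ContinuousOn (fun t => D.Φ l (t, s k t) (v t)) (closedBall c ρ)) ∧
      Zv c ρ (fun t => D.Φ i (t, s k t) (v t)) M ∧ ∀ l, ∀ t ∈ sphere c ρ,
        ‖D.Φ l (t, s k t) (v t)‖ ≤ A * ‖D.Φ i (t, s k t) (v t)‖ := fun k hk => by
    obtain ⟨ρ', r1, r2⟩ := exists_between ρr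
    have cB' : closedBall c ρ ⊆ ball c ρ' := closedBall_subset_ball r1
    obtain ⟨v, v0⟩ := h5 n D.X c ρ' r (s k) hX D.nonreg r2 (hs k)
    have v3 := h7 n D.L D.X D.U D.m D.Φ _ (s k) v hX D.nonreg D.frm isOpen_ball
      ((hs' k).mono (ball_subset_ball r2.le)) v0
    have v1 : VL D.X c ρ (s k) v := ⟨v0.1.continuousOn.mono cB', fun t ht => v0.2 t (cB' ht)⟩
    have v2 : ∀ l, ContinuousOn (fun t => D.Φ l (t, s k t) (v t)) (closedBall c ρ) ∧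
        UA (ball c ρ) fun t => D.Φ l (t, s k t) (v t) := fun l =>
      ⟨(v3 l).continuousOn.mono cB', fun t ht => ⟨fun _ => 1, _, (v3 l).analyticAt
        (isOpen_ball.mem_nhds (ball_subset_ball r1.le ht)),
        .of_forall fun w => ⟨continuousAt_const, one_ne_zero, (one_smul _ _).symm⟩⟩⟩
    have b := fun t ht => hK _ (mK t ht _ (hk t ht).1)
    have e := fun t ht => D.frm.vt hX ch (b t ht).1.1 (b t ht).1.2 (hk t ht).2
      (v1.2 t (sphere_subset_closedBall ht))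
    obtain ⟨M, hM⟩ := h6 ℂ c ρ _ ρ0 (v2 i).1 (fun t ht => by
      obtain ⟨κ, k0, -, -, e⟩ := e t ht
      exact (e i).trans_ne (mul_ne_zero (pow_ne_zero _ k0) (b t ht).2.1)) (v2 i).2
    obtain ⟨I, hI⟩ := h6 (Wg n) c ρ (fun t => wg (s k₀ t) (s k t)) ρ0
      (fun t ht => (wg_an (an k₀ t (cB ht)) (an k t (cB ht))).continuousAt.continuousWithinAt)
      (fun t ht => ((Pp.refl _).wg (hk t ht).2).ne (b t ht).2.2) fun t ht =>
        ⟨fun _ => 1, _, wg_an (an k₀ t (ball_subset_ball ρr.le ht))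
          (an k t (ball_subset_ball ρr.le ht)),
          .of_forall fun w => ⟨continuousAt_const, one_ne_zero, (one_smul _ _).symm⟩⟩
    refine ⟨M, I, v, hI, ⟨v1, v0.1.mono (ball_subset_ball r1.le), fun t ht =>
      v0.2 t (ball_subset_ball r1.le ht)⟩, fun l => (v2 l).1, hM, fun l t ht => ?_⟩
    obtain ⟨κ, -, -, -, e⟩ := e t ht
    have b1 := (norm_le_pi_norm _ l).trans (hA _ (mK t ht _ (hk t ht).1))
    rw [norm_div, div_le_iff₀ (norm_pos_iff.2 (b t ht).2.1)] at b1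
    refine ((congrArg norm (e l)).trans_le ?_).trans_eq (congrArg (A * ‖·‖) (e i).symm)
    rw [norm_mul, norm_mul, mul_left_comm]
    exact mul_le_mul_of_nonneg_left b1 (norm_nonneg _)
  obtain ⟨k₁, l1, l2⟩ := good.exists
  obtain ⟨M', J, v', m1, m2, -, m3, -⟩ := cnt k₁ l2
  suffices H : ∀ᶠ k in u, ∃ M ∈ Iic (M' + D.m * (J + J)), ∃ v, VH D.X (ball c ρ) (s k) v ∧
      (∀ l, ContinuousOn (fun t => D.Φ l (t, s k t) (v t)) (closedBall c ρ)) ∧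
      Zv c ρ (fun t => D.Φ i (t, s k t) (v t)) M ∧ ∀ l, ∀ t ∈ sphere c ρ,
        ‖D.Φ l (t, s k t) (v t)‖ ≤ A * ‖D.Φ i (t, s k t) (v t)‖ by
    obtain ⟨M, -, hM⟩ := (Ultrafilter.eventually_exists_mem_iff (finite_Iic _)).1 H
    exact ⟨ρ, A, i, M, ρ0, ρr, hM⟩
  filter_upwards [good] with k ⟨b1, b2⟩
  obtain ⟨M, I, v, e1, e2, e3, e4, e5⟩ := cnt k b2
  have band : ∀ q ∈ Bn c ρ, ((q.2, zb a j (s k) (s k₁) q) ∈ U ∧
      Y (q.2, zb a j (s k) (s k₁) q) ∈ Cone D.U) ∧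
      fc D.Φ Y i (q.2, zb a j (s k) (s k₁) q) ≠ 0 ∧
      wg (s k₀ q.2) (Y (q.2, zb a j (s k) (s k₁) q)) ≠ 0 := fun q hq => hK _ (mK _ hq.2 _ (by
    have := convex_closedBall _ _ (b2 _ hq.2).1 (l2 _ hq.2).1 (sub_nonneg.2 hq.1.2) hq.1.1
      (sub_add_cancel _ _)
    rwa [Complex.real_smul, Complex.real_smul, Complex.ofReal_sub, Complex.ofReal_one] at this))
  have np : ∀ q ∈ Bn c ρ, ¬Pp (s k₀ q.2) (Y (q.2, zb a j (s k) (s k₁) q)) := fun q hq e =>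
    (band q hq).2.2 ((wg_eq_zero ((hs k₀).1.2 _ (sB hq.2)) (ch.ne (band q hq).1.1)).2 e.symm)
  refine ⟨M, (Nat.le_add_right _ _).trans_eq (h4 n D a j U Y c ρ r (s k) (s k₁) (s k₀) v v'
    i M M' I J ρ0 ρr (fun x hx => hP x ⟨hx.1, hx.2.trans ρr.le⟩) ch (hs' k) (hs' k₁) (hs k₀)
    ⟨fun t ht => ⟨(b2 t ht).2, (l2 t ht).2⟩, fun q hq => (band q hq).1.1⟩
    (fun q hq => ⟨(band q hq).1.2, (band q hq).2.1, np q hq⟩) (hk₀.symm.trans b1)
    (hk₀.symm.trans l1) e2.1 m2.1 e4 m3 e1 m1), v, e2.2, e3, e4, e5⟩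

end Pool.Agent.MP_c69980_ag.E2.G3S
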