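import Pool.Agent.MP_c69980_ag.G3S.Base
import Pool.Agent.MP_c69980_ag.E1.Wind

/-!
Open surfaces with a nonconstant unit: the holomorphic model from the winding numbers.
-/

set_option autoImplicit false

noncomputable section

namespace Pool.Agent.MP_c69980_ag.E2.G3S

open MvPolynomial Metric Filter Topology Set Real
open H60 H4 E1

namespace CoreX

variable {n : ℕ} {D : Fib n} {Q : PR 3} {d : ℕ} {a j : Fin n} {O : Set (ℂ × ℂ)}
  {Y : ℂ × ℂ → V n} {s s' v : ℂ → V n} {b t z z' : ℂ} {y y' : V n} {R ρ r' ε A : ℝ}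

/-- The conclusion of the pairing statement. -/
def Pr (N : ℤ) (ε r r' : ℝ) : Prop :=
  ∀ (b : ℂ) (R ρ : ℝ) (f h : ℂ → ℂ) (p w : ℤ) (e : ℕ), 0 < ρ → ρ ≤ r' → ρ < R →
    DifferentiableOn ℂ f (ball b R) → DifferentiableOn ℂ h (ball b R) →
    (∀ t ∈ ball b R, ρ ≤ ‖t - b‖ → h t ≠ 0) → Wn b ρ h p → p ≤ N →
    Wn b ρ (fun t => f t / h t) w → e ≤ 1 → (e : ℤ) ≤ w →
    ∃ G κ : ℂ → ℂ, DifferentiableOn ℂ G (ball b R) ∧ (e = 1 → G b = 0) ∧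
      ContinuousOn κ (ball b r)ᶜ ∧ ∀ t ∈ ball b R, r ≤ ‖t - b‖ →
        κ t ≠ 0 ∧ |Real.log ‖κ t‖| ≤ ε ∧ G t = κ t * (f t / h t)

/-- The point `y` over `t` lies in the chart. -/
def In (a j : Fin n) (O : Set (ℂ × ℂ)) (Y : ℂ × ℂ → V n) (t : ℂ) (y : V n) : Prop :=
  (t, y a / y j) ∈ O ∧ Pp y (Y (t, y a / y j))

open LocX in
lemma point0 (h : Chart D.X a j O Y) (hd : 0 < d) (hQ : Q.IsHomogeneous d)
    (h1 : In a j O Y t (s t)) (h2 : In a j O Y t (s' t)) (hU : s t ∈ Cone D.U) :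
    (Zp D Q t (s t) (s' t) ↔ t ∉ D.L.lattice ∧ Gf D.Φ Q (D.m * d) a j Y s s' t ≠ 0) ∧
      (Zp D Q t (s t) (s' t) → uu D Q d t (s t) (s' t) =
        bt D.L (Gf D.Φ Q (D.m * d) a j Y s s') t +
          3 * (D.m * d) * EE Y (t, s t a / s t j, s' t a / s' t j)) := by
  have := point (l := 0) (t := t) (z := s t a / s t j) (z' := s' t a / s' t j)
    (G := Gf D.Φ Q (D.m * d) a j Y s s') (y := s t) (y' := s' t) h hd hQ (zero_mem _)
    (by rw [sub_zero]; exact h1.1) (by rw [sub_zero]; exact h2.1)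
    (by rw [sub_zero]; exact cone_pp hU h1.2.symm) (by rw [sub_zero]; exact h1.2)
    (by rw [sub_zero]; exact h2.2) (by rw [sub_zero]; rfl)
  rwa [sub_zero] at this

lemma quot (h : Chart D.X a j O Y) (hQ : Q.IsHomogeneous d) (h1 : In a j O Y t (s t))
    (h2 : In a j O Y t (s' t)) (hU : s t ∈ Cone D.U) (hv : Vt D.X (t, s t) (v t)) :
    s' t j ≠ 0 ∧ wg (s t) (v t) (j, a) ≠ 0 ∧ Gf D.Φ Q (D.m * d) a j Y s s' t =
      (s' t a * s t j - s t a * s' t j) ^ (D.m * d) * eval (fun i => D.Φ i (t, s t) (v t)) Q *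
        s t j ^ (D.m * d) / (s' t j ^ (D.m * d) * wg (s t) (v t) (j, a) ^ (D.m * d)) := by
  obtain ⟨k1, k2⟩ := D.frm.vt' (p := (t, s t a / s t j)) D.cn h h1.1 (cone_pp hU h1.2.symm) h1.2 hv
  have a1 := (h.eq h1.1 h1.2).1
  have a2 := (h.eq h2.1 h2.2).1
  have a3 := (div_ne_zero_iff.1 k1).1
  have e : eval (fun i => D.Φ i (t, s t) (v t)) Q =
      (wg (s t) (v t) (j, a) / s t j ^ 2) ^ (D.m * d) * qq D.Φ Q Y (t, s t a / s t j) := by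
    rw [pow_mul, qq, ← eval_smul_hom hQ]
    exact congrArg (fun f => eval f Q) (funext k2)
  refine ⟨a2, a3, ?_⟩
  rw [eq_div_iff (mul_ne_zero (pow_ne_zero _ a2) (pow_ne_zero _ a3)), e, Gf]
  have e2 : (s' t a / s' t j - s t a / s t j) * s' t j * wg (s t) (v t) (j, a) =
      (s' t a * s t j - s t a * s' t j) * (wg (s t) (v t) (j, a) / s t j ^ 2) * s t j := by
    field_simp
  have e3 := congrArg (· ^ (D.m * d)) e2
  simp only [mul_pow] at e3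
  linear_combination qq D.Φ Q Y (t, s t a / s t j) * e3

/-- The holomorphic function. -/
lemma hol (h2 : VHStmt) (h3 : VFStmt) (h5 : WindStmt) (h : Chart D.X a j O Y)
    (hQ : Q.IsHomogeneous d) (hs : Nm D.Xo (ball b R) s id) (hs' : Nm D.X (ball b R) s' id)
    (hR : 4 * ρ ≤ R) (r0 : 0 < r') (r1 : r' < ρ / 2) {N₁ N₂ : ℤ}
    (hP : Pr ((D.m * d : ℕ) * N₂ + (D.m * d : ℕ) * N₁) ε (ρ / 2) r') (e0 : 0 ≤ ε)
    (hz : ∀ t ∈ ball b (7 / 2 * ρ), r' / 2 ≤ ‖t - b‖ → In a j O Y t (s t) ∧ In a j O Y t (s' t))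
    (hW : ∀ τ ∈ Icc (r' / 2) r', ∀ w : ℤ, Wn b τ (Gf D.Φ Q (D.m * d) a j Y s s') w →
      0 ≤ w ∧ (b ∈ D.L.lattice → 1 ≤ w))
    (hN : ∀ τ ∈ Icc (r' / 2) r', ∀ v, VL D.X b τ s v →
      ∀ w : ℤ, Wn b τ (fun t => wg (s t) (v t) (j, a)) w → w ≤ N₁)
    (hN' : ∀ τ ∈ Icc (r' / 2) r', ∀ w : ℤ, Wn b τ (fun t => s' t j) w → w ≤ N₂) :
    ∃ G κ : ℂ → ℂ, DifferentiableOn ℂ G (ball b (7 / 2 * ρ)) ∧ (b ∈ D.L.lattice → G b = 0) ∧
      ContinuousOn κ (ball b (ρ / 2))ᶜ ∧ ∀ t ∈ ball b (7 / 2 * ρ), ρ / 2 ≤ ‖t - b‖ →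
        κ t ≠ 0 ∧ |Real.log ‖κ t‖| ≤ ε ∧ G t = κ t * Gf D.Φ Q (D.m * d) a j Y s s' t := by
  classical
  have hl : 7 / 2 * ρ < R := by linarith
  have sb : ball b (7 / 2 * ρ) ⊆ ball b R := ball_subset_ball hl.le
  obtain ⟨v, hv⟩ := h2 n D.X b _ R s D.cn D.nonreg hl (nm_op.1 hs).1
  have d1 := h3 n D.L D.X D.U D.m D.Φ _ s v D.cn D.nonreg D.frm isOpen_ball (hs.mono sb) hv
  have d2 := differentiableOn_pi.1 (hs.1.1.mono sb)
  have d3 := differentiableOn_pi.1 (hs'.1.1.mono sb)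
  have d4 := differentiableOn_pi.1 hv.1 (j, a)
  obtain ⟨f, hf⟩ : ∃ f : ℂ → ℂ, f = fun t => (s' t a * s t j - s t a * s' t j) ^ (D.m * d) *
    eval (fun i => D.Φ i (t, s t) (v t)) Q * s t j ^ (D.m * d) := ⟨_, rfl⟩
  obtain ⟨g, hg⟩ : ∃ g : ℂ → ℂ, g = fun t => s' t j ^ (D.m * d) *
    wg (s t) (v t) (j, a) ^ (D.m * d) := ⟨_, rfl⟩
  have df : DifferentiableOn ℂ f (ball b (7 / 2 * ρ)) := hf ▸
    (((((d3 a).mul (d2 j)).sub ((d2 a).mul (d3 j))).pow _).mul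
      (H18.evd (differentiableOn_pi.2 d1) Q)).mul ((d2 j).pow _)
  have dg : DifferentiableOn ℂ g (ball b (7 / 2 * ρ)) := hg ▸ ((d3 j).pow _).mul (d4.pow _)
  have q : ∀ t ∈ ball b (7 / 2 * ρ), r' / 2 ≤ ‖t - b‖ → s' t j ≠ 0 ∧
      wg (s t) (v t) (j, a) ≠ 0 ∧ g t ≠ 0 ∧ Gf D.Φ Q (D.m * d) a j Y s s' t = f t / g t :=
    fun t ht h1 => by
      obtain ⟨a1, a2, a3⟩ := quot h hQ (hz t ht h1).1 (hz t ht h1).2 (hs.2.2 t (sb ht)).2
        (hv.2 t ht)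
      rw [hf, hg]
      exact ⟨a1, a2, mul_ne_zero (pow_ne_zero _ a1) (pow_ne_zero _ a2), a3⟩
  rcases iden (E := ℂ) (P := fun w => f w = 0) (convex_ball b (7 / 2 * ρ)).isPreconnected
    (fun t ht => ⟨f, df.analyticAt (isOpen_ball.mem_nhds ht), .of_forall fun _ => Iff.rfl⟩)
    with c | c
  · refine ⟨fun _ => 0, fun _ => 1, differentiableOn_const _, fun _ => rfl, continuousOn_const,
      fun t ht h1 => ⟨one_ne_zero, by simpa using e0, ?_⟩⟩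
    rw [(q t ht (by linarith)).2.2.2, (c t ht).self_of_nhds, zero_div, mul_zero]
  obtain ⟨τ, ⟨t1, t2⟩, t3⟩ := gen_rad c b (half_lt_self r0)
  have t0 : 0 < τ := by linarith
  have tm : τ ∈ Icc (r' / 2) r' := ⟨t1.le, t2.le⟩
  have sc : closedBall b τ ⊆ ball b (7 / 2 * ρ) := closedBall_subset_ball (by linarith)
  have ss : sphere b τ ⊆ ball b (7 / 2 * ρ) := sphere_subset_closedBall.trans sc
  have q' := fun t (ht : t ∈ sphere b τ) => q t (ss ht)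
    (t1.le.trans_eq (mem_sphere_iff_norm.1 ht).symm)
  have W := (h5 b τ t0).1
  obtain ⟨w₂, w2⟩ := W (fun t => s' t j) ((d3 j).continuousOn.mono ss) fun t ht => (q' t ht).1
  obtain ⟨w₁, w1⟩ := W (fun t => wg (s t) (v t) (j, a)) (d4.continuousOn.mono ss)
    fun t ht => (q' t ht).2.1
  obtain ⟨w, w0⟩ := W (fun t => f t / g t) ((df.continuousOn.mono ss).div
    (dg.continuousOn.mono ss) fun t ht => (q' t ht).2.2.1)
    fun t ht => div_ne_zero (t3 t (ss ht) ht) (q' t ht).2.2.1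
  have b1 := hN τ tm v ⟨hv.1.continuousOn.mono sc, fun t ht => hv.2 t (sc ht)⟩ w₁ w1
  have b2 := hN' τ tm w₂ w2
  have b3 := hW τ tm w (w0.congr fun t ht => (q' t ht).2.2.2)
  obtain ⟨G, κ, g1, g2, g3, g4⟩ := hP b (7 / 2 * ρ) τ f g _ w (if b ∈ D.L.lattice then 1 else 0)
    t0 t2.le (by linarith) df dg (fun t ht h1 => (q t ht (t1.le.trans h1)).2.2.1)
    (hg ▸ (w2.pow (D.m * d)).mul t0 (w1.pow (D.m * d)))
    (add_le_add (mul_le_mul_of_nonneg_left b2 (Nat.cast_nonneg _))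
      (mul_le_mul_of_nonneg_left b1 (Nat.cast_nonneg _))) w0 (by split_ifs <;> simp)
    (by
      split_ifs with hb
      · exact_mod_cast b3.2 hb
      · exact_mod_cast b3.1)
  refine ⟨G, κ, g1, fun hb => g2 (if_pos hb), g3, fun t ht h1 => ?_⟩
  rw [(q t ht (by linarith)).2.2.2]
  exact g4 t ht h1

open LocX in
/-- The model for one pair of sections. -/
lemma mod (h : Chart D.X a j O Y) (hd : 0 < d) (hQ : Q.IsHomogeneous d)
    (hs : Nm D.Xo (ball b R) s id) (hs' : Nm D.X (ball b R) s' id) (hρ : 0 < ρ)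
    (hR : 4 * ρ ≤ R) (hB : ∀ t ∈ ball b R, t ∈ D.B → t = b)
    (hz : ∀ t ∈ ball b (7 / 2 * ρ), ρ / 2 ≤ ‖t - b‖ → In a j O Y t (s t) ∧ In a j O Y t (s' t) ∧
      |3 * (D.m * d) * EE Y (t, s t a / s t j, s' t a / s' t j)| ≤ 6 * ε)
    (hA : ∀ t, ‖t - b‖ = 3 * ρ → ‖Gf D.Φ Q (D.m * d) a j Y s s' t‖ ≤ A) {G κ : ℂ → ℂ}
    (g1 : DifferentiableOn ℂ G (ball b (7 / 2 * ρ))) (g2 : b ∈ D.L.lattice → G b = 0)
    (g3 : ContinuousOn κ (ball b (ρ / 2))ᶜ) (g4 : ∀ t ∈ ball b (7 / 2 * ρ), ρ / 2 ≤ ‖t - b‖ →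
      κ t ≠ 0 ∧ |Real.log ‖κ t‖| ≤ ε ∧ G t = κ t * Gf D.Φ Q (D.m * d) a j Y s s' t) :
    Ap D Q d s s' b ρ (ρ / 2) (12 * ε) (Real.exp ε * A) := by
  have s1 : ball b (3 * ρ) ⊆ ball b (7 / 2 * ρ) := ball_subset_ball (by linarith)
  have s2 : ball b (7 / 2 * ρ) ⊆ ball b R := ball_subset_ball (by linarith)
  have s3 : closedBall b (3 * ρ) ⊆ ball b (7 / 2 * ρ) := closedBall_subset_ball (by linarith)
  have nm : ∀ t ∈ ball b (3 * ρ) \ ball b (ρ / 2), ρ / 2 ≤ ‖t - b‖ := fun t ht =>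
    not_lt.1 fun q => ht.2 (mem_ball_iff_norm.2 q)
  have hz' := fun t (ht : t ∈ ball b (3 * ρ) \ ball b (ρ / 2)) => hz t (s1 ht.1) (nm t ht)
  have s4 : ball b (3 * ρ) \ ball b (ρ / 2) ⊆ ball b R := fun t ht => s2 (s1 ht.1)
  have c1 := continuousOn_pi.1 (hs.1.1.continuousOn.mono s4)
  have c2 := continuousOn_pi.1 (hs'.1.1.continuousOn.mono s4)
  refine ⟨G, fun t => 3 * (D.m * d) * EE Y (t, s t a / s t j, s' t a / s' t j) -
    6 * Real.log ‖κ t‖, g1.mono s1, ?_, fun t ht => ⟨?_, fun hl => ?_, fun h1 => ?_⟩⟩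
  · refine (continuousOn_const.mul ((EE_cont h).comp
      (f := fun t => (t, s t a / s t j, s' t a / s' t j)) (continuousOn_id.prodMk
        (((c1 a).div (c1 j) fun t ht => (h.eq (hz' t ht).1.1 (hz' t ht).1.2).1).prodMk
          ((c2 a).div (c2 j) fun t ht => (h.eq (hz' t ht).2.1.1 (hz' t ht).2.1.2).1)))
      fun t ht => ⟨(hz' t ht).1.1, (hz' t ht).2.1.1⟩)).sub (continuousOn_const.mul ?_)
    exact (g3.mono fun t ht => ht.2).norm.log fun t ht =>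
      norm_ne_zero_iff.2 (g4 t (s1 ht.1) (nm t ht)).1
  · refine Complex.norm_le_of_forall_mem_frontier_norm_le (U := ball b (3 * ρ)) isBounded_ball
      (DifferentiableOn.diffContOnCl (g1.mono (closure_ball_subset_closedBall.trans s3)))
      (fun w hw => ?_) (subset_closure ht)
    have h1 := frontier_ball_subset_sphere hw
    have h2 := mem_sphere_iff_norm.1 h1
    obtain ⟨k1, k2, k3⟩ := g4 w (s3 (sphere_subset_closedBall h1)) (by linarith)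
    rw [k3, norm_mul]
    refine mul_le_mul ?_ (hA w h2) (norm_nonneg _) (Real.exp_pos _).le
    exact (Real.log_le_iff_le_exp (norm_pos_iff.2 k1)).1 (abs_le.1 k2).2
  · obtain rfl := hB t (s2 (s1 ht)) (lat_sub D hl)
    exact g2 hl
  · obtain ⟨k1, k2, k3⟩ := g4 t (s1 ht) h1
    obtain ⟨z1, z2, z3⟩ := hz t (s1 ht) h1
    obtain ⟨p1, p2⟩ := point0 h hd hQ z1 z2 (hs.2.2 t (s2 (s1 ht))).2
    refine ⟨?_, by rw [p1, k3, mul_ne_zero_iff_left k1], fun q => ?_⟩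
    · rw [abs_le] at k2 z3 ⊢
      constructor <;> linarith [k2.1, k2.2, z3.1, z3.2]
    · rw [p2 q, bt, bt, k3, norm_mul,
        Real.log_mul (norm_ne_zero_iff.2 k1) (norm_ne_zero_iff.2 (p1.1 q).2)]
      ring

end CoreX

open CoreX LocX in
theorem core (h1 : PairStmt) (h2 : VHStmt) (h3 : VFStmt) (h4 : NearStmt) (h5 : WindStmt) :
    CoreStmt := by
  intro n D Q d κ u b R s s' g a j O Y hQ κ0 hB bs hs' cv' ⟨ρa, a0, hW⟩ ⟨ρb, N₂, b0, hN'⟩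
    ⟨ρc, c0, hA⟩
  obtain ⟨ρd, N₁, d0, hN⟩ := D.deg u b R s g a j O Y bs
  have ch := bs.ch
  have R0 := bs.r0
  have ev := (ch.ev_pc (K := ball b R) (τ := id) (s := g) (q := b) D.cn bs.mem (mem_ball_self R0)
    continuousWithinAt_id (crv_lh bs.hg.1 isOpen_ball).pc
    (mem_of_superset self_mem_nhdsWithin bs.hg.2.2) rfl bs.pp).2
  rw [nhdsWithin_eq_nhds.2 (ball_mem_nhds b R0)] at ev
  obtain ⟨ρ₀, r0, hg⟩ := Metric.eventually_nhds_iff_ball.1 ev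
  obtain ⟨ρ, hρ, r1, r2, r3, r4, r5, r6⟩ : ∃ ρ : ℝ, 0 < ρ ∧ 4 * ρ ≤ R ∧ 4 * ρ ≤ ρ₀ ∧ 4 * ρ ≤ ρa ∧
      4 * ρ ≤ ρb ∧ 4 * ρ ≤ ρc ∧ 4 * ρ ≤ ρd := by
    refine ⟨min R (min ρ₀ (min ρa (min ρb (min ρc ρd)))) / 4, by positivity, ?_⟩
    rw [mul_div_cancel₀ _ (four_ne_zero (α := ℝ))]
    simp only [← le_min_iff, le_refl]
  have s1 : closedBall b (7 / 2 * ρ) ⊆ ball b R := closedBall_subset_ball (by linarith)
  have s2 : closedBall b (7 / 2 * ρ) ⊆ ball b ρ₀ := closedBall_subset_ball (by linarith)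
  have cg := continuousOn_pi.1 (bs.hg.1.1.continuousOn.mono s1)
  have kΓ : IsCompact ((fun t => (t, g t a / g t j)) '' closedBall b (7 / 2 * ρ)) :=
    (isCompact_closedBall _ _).image_of_continuousOn (continuousOn_id.prodMk ((cg a).div (cg j)
      fun t ht => (ch.eq (hg t (s2 ht)).1 (hg t (s2 ht)).2).1))
  have sΓ : (fun t => (t, g t a / g t j)) '' closedBall b (7 / 2 * ρ) ⊆ O := by
    rintro _ ⟨t, ht, rfl⟩
    exact (hg t (s2 ht)).1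
  obtain ⟨δ, δ0, hδ⟩ := kΓ.exists_cthickening_subset_open ch.1 sΓ
  obtain ⟨M, hM⟩ : ∃ M : ℝ, M = 3 * (D.m * d) := ⟨_, rfl⟩
  have M0 : 0 < M := by
    have := D.frm.m0
    have := hQ.1
    rw [hM]
    positivity
  obtain ⟨ε, hε⟩ : ∃ ε : ℝ, ε = κ * ρ ^ 2 / 12 := ⟨_, rfl⟩
  have ε0 : 0 < ε := hε ▸ by positivity
  obtain ⟨e, he, e0⟩ := ((EE_small ch kΓ.cthickening hδ (e := 6 * ε / M) (by positivity)).and
    self_mem_nhdsWithin).exists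
  have e0 : 0 < e := e0
  obtain ⟨η, η0, hη⟩ := h4 n D.X a j O _ Y (min δ (e / 2)) D.cn ch kΓ sΓ (by positivity)
  obtain ⟨r', q0, q1, hP⟩ := h1 ((D.m * d : ℕ) * N₂ + (D.m * d : ℕ) * N₁) ε (ρ / 2) ε0
    (half_pos hρ)
  obtain ⟨A, hA⟩ := hA (r' / 2) (half_pos q0)
  have kA : IsCompact (closedBall b (7 / 2 * ρ) \ ball b (r' / 2)) :=
    (isCompact_closedBall _ _).diff isOpen_ball
  have sA : closedBall b (7 / 2 * ρ) \ ball b (r' / 2) ⊆ ball b R \ {b} := fun t ht =>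
    ⟨s1 ht.1, fun q => ht.2 (q ▸ mem_ball_self (half_pos q0))⟩
  have near : ∀ t ∈ closedBall b (7 / 2 * ρ), ∀ y, (t, y) ∈ D.X → d2 y (g t) ≤ η →
      In a j O Y t y ∧ ‖y a / y j - g t a / g t j‖ ≤ e / 2 ∧ (t, y a / y j) ∈
        cthickening δ ((fun t => (t, g t a / g t j)) '' closedBall b (7 / 2 * ρ)) :=
    fun t ht y hy hd => by
      obtain ⟨k1, k2, k3, k4⟩ := hη _ ⟨t, ht, rfl⟩ (t, y) hy (by simpa using η0.le)
        (((Pp.refl y).d2 (hg t (s2 ht)).2).symm.trans_le hd)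
      refine ⟨⟨k3, _, k1, k4⟩, k2.trans (min_le_right _ _),
        mem_cthickening_of_dist_le _ _ _ _ ⟨t, ht, rfl⟩ ?_⟩
      rw [dist_prod_same_left, dist_eq_norm]
      exact k2.trans (min_le_left _ _)
  refine ⟨ρ, Real.exp ε * A, hρ, r1, ?_⟩
  filter_upwards [bs.cv.unif kA sA η0, cv'.unif kA sA η0, hW _ (half_pos q0), hN _ (half_pos q0),
    hN' _ (half_pos q0), hA] with k k1 k2 k3 k4 k5 k6
  have hz : ∀ t ∈ ball b (7 / 2 * ρ), r' / 2 ≤ ‖t - b‖ → In a j O Y t (s k t) ∧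
      In a j O Y t (s' k t) ∧
      |3 * (D.m * d) * EE Y (t, s k t a / s k t j, s' k t a / s' k t j)| ≤ 6 * ε :=
    fun t ht hr => by
      have t1 := ball_subset_closedBall ht
      have t2 : t ∈ closedBall b (7 / 2 * ρ) \ ball b (r' / 2) :=
        ⟨t1, fun q => absurd (mem_ball_iff_norm.1 q) hr.not_gt⟩
      obtain ⟨x1, x2, x3⟩ := near t t1 _ ((bs.hs k).2.2 t (s1 t1)).1 (k1 t t2)
      obtain ⟨y1, y2, y3⟩ := near t t1 _ ((hs' k).2.2 t (s1 t1)) (k2 t t2)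
      refine ⟨x1, y1, ?_⟩
      rw [← hM, abs_mul, abs_of_pos M0, mul_comm, ← le_div_iff₀ M0]
      refine he _ _ _ x3 y3 ((norm_sub_le_norm_sub_add_norm_sub _ (g t a / g t j) _).trans ?_)
      rw [norm_sub_rev (g t a / g t j)]
      linarith
  obtain ⟨G, κ', g1, g2, g3, g4⟩ := hol h2 h3 h5 ch hQ.2.1 (bs.hs k) (hs' k) r1 q0 q1 hP ε0.le
    (fun t ht hr => ⟨(hz t ht hr).1, (hz t ht hr).2.1⟩)
    (fun τ hτ => k3 τ ⟨hτ.1, by linarith [hτ.2]⟩)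
    (fun τ hτ => (k4 τ ⟨hτ.1, by linarith [hτ.2]⟩).2)
    (fun τ hτ => k5 τ ⟨hτ.1, by linarith [hτ.2]⟩)
  have := mod ch hQ.1 hQ.2.1 (bs.hs k) (hs' k) hρ r1 hB (fun t ht hr => hz t ht (by linarith))
    (fun t ht => k6 t (by linarith) (by linarith)) g1 g2 g3 g4
  rwa [show 12 * ε = κ * ρ ^ 2 by rw [hε]; ring] at this

end Pool.Agent.MP_c69980_ag.E2.G3S
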