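import Pool.Agent.MP_c69980_ag.G3S.Base

/-!
Compactness for the convergence off the bad values; admissible sections.
-/

set_option autoImplicit false

noncomputable section

namespace Pool.Agent.MP_c69980_ag.E2.G3S

open MvPolynomial Metric Filter Topology Set
open H60 H4 E1

namespace CptX

variable {n : ℕ} {D : Fib n} {u : Ultrafilter ℕ} {O : Set ℂ} {s : ℕ → ℂ → V n} {G : ℂ → V n}

lemma mon (h1 : MonStmt) (h2 : HypStmt) (h8 : E1.LiftStmt) (h9 : LatStmt)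
    (hs : ∀ t ∈ O, ∃ r : ℝ, 0 < r ∧ ∀ᶠ k in u, Sc D.Xo (ball t r) (s k)) :
    ∃ G, Cv u (O \ D.B) s G := by
  refine h1 n u _ s fun t ht => ?_
  obtain ⟨r, r0, hr⟩ := hs t ht.1
  obtain ⟨η, η0, hη⟩ := far_of_notMem h9 ht.2
  obtain ⟨ρ, ρ0, ρ1, ρ2⟩ : ∃ ρ : ℝ, 0 < ρ ∧ 4 * ρ ≤ r ∧ 4 * ρ ≤ η :=
    ⟨min r η / 4, by positivity, by linarith [min_le_left r η], by linarith [min_le_right r η]⟩
  obtain ⟨A, -, hA⟩ := h2 n D (η / 2) (|t.re| + 2 * ρ) (half_pos η0)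
  refine ⟨ρ, A / ρ ^ 2, ρ0, hr.mono fun k hk => ?_⟩
  obtain ⟨g, g1, g2⟩ := h8 n (s k) t (2 * ρ) r (by linarith) hk.1
  have b := sc_nm (hk.mono (ball_subset_ball (by linarith))) D.cn g1 g2
  have m : ball t ρ ⊆ ball t (2 * ρ) := ball_subset_ball (by linarith)
  refine ⟨g, crv_mono g1 m, fun w hw => ⟨g2 w (m hw), ?_⟩⟩
  have m' : ball w ρ ⊆ ball t (2 * ρ) := ball_subset_ball' (by linarith [mem_ball.1 hw])
  rw [le_div_iff₀ (by positivity)]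
  refine hA g id w ρ ρ0 (b.mono m') fun z hz =>
    ⟨(hη.near (t' := z)).mono (by linarith [mem_ball_iff_norm.1 (m' hz)]), ?_⟩
  have e := (Complex.abs_re_le_norm (z - t)).trans (mem_ball_iff_norm.1 (m' hz)).le
  rw [Complex.sub_re] at e
  change |z.re| ≤ _
  linarith [abs_sub_abs_le_abs_sub z.re t.re]

lemma mem (hs : ∀ t ∈ O, ∃ r : ℝ, 0 < r ∧ ∀ᶠ k in u, Sc D.Xo (ball t r) (s k))
    (hG : Cv u (O \ D.B) s G) : Sc D.X (O \ D.B) G := ⟨hG.lh, fun t ht => by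
  obtain ⟨r, r0, hr⟩ := hs t ht.1
  exact hG.mem D.cn ht tendsto_const_nhds (hr.mono fun k hk => (hk.2 t (mem_ball_self r0)).1)⟩

lemma ext (h3 : HurStmt) (h4 : AlphaStmt) (h5 : RatStmt) (h6 : ExtStmt) (h7 : ExtBStmt)
    (h8 : E1.LiftStmt) (h9 : LatStmt) (hO : IsOpen O)
    (hs : ∀ t ∈ O, ∃ r : ℝ, 0 < r ∧ ∀ᶠ k in u, Sc D.Xo (ball t r) (s k))
    (hG : Cv u (O \ D.B) s G) {b : ℂ} (hb : b ∈ O) : Ext b G := by
  obtain ⟨r₀, r0, h0⟩ := ((h9 D.L).2.2 D.S).2.2 b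
  obtain ⟨r₁, r1, h1⟩ := hs b hb
  obtain ⟨r₂, r2, h2⟩ := Metric.isOpen_iff.1 hO b hb
  obtain ⟨r, rp, a0, a1, a2⟩ : ∃ r : ℝ, 0 < r ∧ r ≤ r₀ ∧ r < r₁ ∧ r ≤ r₂ :=
    ⟨min r₀ (min (r₁ / 2) r₂), by positivity, min_le_left _ _,
      ((min_le_right _ _).trans (min_le_left _ _)).trans_lt (half_lt_self r1),
      (min_le_right _ _).trans (min_le_right _ _)⟩
  have sub : ball b r \ {b} ⊆ O \ D.B := fun t ht => ⟨h2 (ball_subset_ball a2 ht.1),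
    fun q => ht.2 (h0 t q ((mem_ball_iff_norm.1 ht.1).le.trans a0))⟩
  have op : IsOpen (ball b r \ {b}) := isOpen_ball.sdiff isClosed_singleton
  have ev : ∀ᶠ k in u, ∃ f, Nm D.Xo (ball b r) f id ∧ ∀ w ∈ ball b r, Pp (s k w) (f w) :=
    h1.mono fun k hk => by
      obtain ⟨g, g1, g2⟩ := h8 n (s k) b r r₁ a1 hk.1
      exact ⟨g, sc_nm (hk.mono (ball_subset_ball a1.le)) D.cn g1 g2, g2⟩
  obtain ⟨k₀, f₀, f0, -⟩ := ev.exists
  have ch : ∀ k, ∃ f, Nm D.Xo (ball b r) f id ∧ ((∃ f, Nm D.Xo (ball b r) f id ∧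
      ∀ w ∈ ball b r, Pp (s k w) (f w)) → ∀ w ∈ ball b r, Pp (s k w) (f w)) := fun k => by
    by_cases q : ∃ f, Nm D.Xo (ball b r) f id ∧ ∀ w ∈ ball b r, Pp (s k w) (f w)
    · exact q.imp fun f hf => ⟨hf.1, fun _ => hf.2⟩
    · exact ⟨f₀, f0, fun q' => absurd q' q⟩
  choose f f1 f2 using ch
  have cv : Cv u (ball b r \ {b}) f G := cv_congr (hG.mono sub) op (fun t ht => by
    obtain ⟨ρ, ρ0, hρ⟩ := Metric.isOpen_iff.1 isOpen_ball t ht.1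
    exact ⟨ρ, ρ0, ev.mono fun k hk w hw => (f2 k hk w (hρ hw)).symm⟩) fun _ _ => .refl _
  have sc : Sc D.X (ball b r \ {b}) G := (mem hs hG).mono sub
  rcases h3 n D.W D.U u _ f G D.eqp op (punct_conn b r) (fun t ht => by
    obtain ⟨ρ, ρ0, hρ⟩ := Metric.isOpen_iff.1 isOpen_ball t ht.1
    exact ⟨ρ, ρ0, .of_forall fun k w hw => ((f1 k).2.2 w (hρ hw)).2⟩) cv
    (fun t ht => D.cone (sc.2 t ht)) with hU | hU
  swap
  · obtain ⟨B, b1, b2⟩ := D.bdy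
    exact h7 n D b r G B rp sc b1 fun t ht => b2 (t, G t) (sc.2 t ht) (hU t ht)
  have so : Sc D.Xo (ball b r \ {b}) G := sc_op.2 ⟨sc, hU⟩
  by_cases ex : ∃ t ∈ ball b r \ {b}, ∃ i, ph D i t (G t) ≠ 0
  · obtain ⟨𝒮, c1, c2, c3⟩ := D.cls b
    obtain ⟨A, e1, e2⟩ := (Ultrafilter.eventually_exists_mem_iff (f := u)
      (P := fun A k => f k b ∈ A) c1).1 (.of_forall fun k =>
        c3 _ ((nm_op.1 (f1 k)).1.rx D.cn D.nonreg isOpen_ball (mem_ball_self rp)))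
    obtain ⟨k₁, k1⟩ := e2.exists
    have hq : Sq D u b r f G := ⟨rp, pun D fun t ht q => h0 t ht (q.trans a0), f1, so, cv, f k₁ b,
      e2.mono fun k hk => ⟨A, (c2 A e1).1, (c2 A e1).2, k1, hk⟩⟩
    exact (h4 n D u b r f G hq ex).elim id fun q => h6 n D b r G rp so ex (h5 n D u b r f G hq q)
  · obtain ⟨B, b1, b2⟩ := D.zero (X 0) 1 (isHomogeneous_X _ _) (X_ne_zero _)
    obtain ⟨e, he⟩ := b1.1
    refine h7 n D b r G B rp sc b1 fun t ht => uq_zero (isHomogeneous_X _ _) he b2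
      (D.bad (t, G t) (sc.2 t ht) (sub ht).2) (hU t ht) ?_
    rw [Uq, eval_X]
    by_contra q
    exact ex ⟨t, ht, 0, q⟩

lemma lim (hs : ∀ R : ℝ, ∀ᶠ k in u, Sc D.Xo (ball 0 R) (s k)) (hg : Sc D.X univ G)
    (h : Cv u D.Bᶜ s G) : Adm D G := ⟨hg, fun R ε ε0 => by
  obtain ⟨k, k1, k2⟩ := ((hs R).and (h.unif ((isCompact_closedBall (0 : ℂ) R).inter_right
    (far_closed D ε)) (fun t ht => Far.notMem ht.2 ε0) ε0)).exists
  exact ⟨s k, k1, fun t ht q => k2 t ⟨ball_subset_closedBall ht, q⟩⟩⟩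

lemma appr (h9 : LatStmt) {g : ℕ → ℂ → V n} (hg : ∀ k, Adm D (g k)) :
    ∃ s : ℕ → ℂ → V n, (∀ R : ℝ, ∀ᶠ k in atTop, Sc D.Xo (ball 0 R) (s k)) ∧
      ∀ t ∉ D.B, ∃ r : ℝ, 0 < r ∧ ∀ η : ℝ, 0 < η → ∀ᶠ k in atTop,
        ∀ w ∈ ball t r, d2 (s k w) (g k w) ≤ η := by
  choose s s1 s2 using fun k : ℕ => (hg k).2 k (1 / ((k : ℝ) + 1)) Nat.one_div_pos_of_nat
  have big : ∀ R : ℝ, ∀ᶠ k : ℕ in atTop, R ≤ k := fun R =>
    tendsto_natCast_atTop_atTop.eventually (eventually_ge_atTop R)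
  have sm : ∀ η : ℝ, 0 < η → ∀ᶠ k : ℕ in atTop, 1 / ((k : ℝ) + 1) ≤ η := fun η h =>
    tendsto_one_div_add_atTop_nhds_zero_nat.eventually (ge_mem_nhds h)
  refine ⟨s, fun R => (big R).mono fun k hk => (s1 k).mono (ball_subset_ball hk), fun t ht => ?_⟩
  obtain ⟨e, e0, he⟩ := far_of_notMem h9 ht
  refine ⟨e / 2, half_pos e0, fun η η0 => ?_⟩
  filter_upwards [big (‖t‖ + e / 2), sm η η0, sm _ (half_pos e0)] with k k1 k2 k3 w hw
  refine (s2 k w (ball_subset_ball' ?_ hw) ((he.near (t' := w)).mono ?_)).trans k2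
  · rw [dist_zero_right]
    linarith
  · linarith [mem_ball_iff_norm.1 hw]

lemma loc (hs : ∀ R : ℝ, ∀ᶠ k in u, Sc D.Xo (ball 0 R) (s k)) (t : ℂ) (r : ℝ) :
    ∀ᶠ k in u, Sc D.Xo (ball t r) (s k) :=
  (hs (r + ‖t‖)).mono fun _ hk => hk.mono (ball_subset_ball' (by rw [dist_zero_right]))

end CptX

open CptX

theorem cpt (h1 : MonStmt) (h2 : HypStmt) (h3 : HurStmt) (h4 : AlphaStmt) (h5 : RatStmt)
    (h6 : ExtStmt) (h7 : ExtBStmt) (h8 : E1.LiftStmt) (h9 : LatStmt) : CptStmt := by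
  classical
  intro n D u O s hO hs
  obtain ⟨G, hG⟩ := mon h1 h2 h8 h9 hs
  have sc := mem hs hG
  have ex : ∀ b, ∃ e : ℂ → V n, b ∈ O → AnalyticAt ℂ e b ∧ e b ≠ 0 ∧
      ∀ᶠ t in 𝓝[≠] b, Pp (G t) (e t) := fun b => by
    by_cases hb : b ∈ O
    · exact (ext h3 h4 h5 h6 h7 h8 h9 hO hs hG hb).imp fun e he _ => he
    · exact ⟨G, fun q => absurd q hb⟩
  choose e he using ex
  refine ⟨fun t => if t ∈ D.B then e t t else G t, ⟨lh_iff.2 fun t ht => ?_, fun t ht => ?_⟩,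
    cv_congr hG (hO.inter (b_open h9 D)) (fun _ _ => ⟨1, one_pos, .of_forall fun _ _ _ => .refl _⟩)
      fun t ht => ?_⟩
  · by_cases hb : t ∈ D.B
    · refine ⟨e t, (he t ht).1, (he t ht).2.1, ?_⟩
      filter_upwards [eventually_nhdsWithin_iff.1 ((he t ht).2.2.and (b_ev h9 D t))] with w hw
      by_cases q : w = t
      · rw [q, if_pos hb]
        exact .refl _
      · rw [if_neg (hw q).2]
        exact (hw q).1
    · obtain ⟨g, g1, g2, g3⟩ := lh_iff.1 hG.lh t ⟨ht, hb⟩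
      refine ⟨g, g1, g2, ?_⟩
      filter_upwards [g3, (b_open h9 D).mem_nhds hb] with w w1 w2
      rwa [if_neg w2]
  · by_cases hb : t ∈ D.B
    · simp only [if_pos hb]
      refine D.cn.lim (l := 𝓝[≠] t) (f := fun w => (w, e t w)) (p := (t, e t t))
        ((continuousAt_id.prodMk (he t ht).1.continuousAt).tendsto.mono_left nhdsWithin_le_nhds)
        (he t ht).2.1 ?_
      filter_upwards [(he t ht).2.2, b_ev h9 D t, nhdsWithin_le_nhds (hO.mem_nhds ht)]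
        with w w1 w2 w3 using D.cn.pp (sc.2 w ⟨w3, w2⟩) w1.symm
    · simp only [if_neg hb]
      exact sc.2 t ⟨ht, hb⟩
  · simp only [if_neg ht.2]
    exact .refl _

theorem adm (h1 : CptStmt) (h2 : HurStmt) (h3 : LatStmt) : AdmStmt := by
  intro n D
  refine ⟨⟨fun g h => h.1, fun g hg l hl => ⟨hg.1.shift' D.cov hl fun _ _ => mem_univ _,
    fun R ε ε0 => ?_⟩⟩, fun u g hg => ?_, fun u s g a b c => lim a b c, fun g hg => ?_⟩
  · obtain ⟨s, s1, s2⟩ := hg.2 (R + ‖l‖) ε ε0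
    have m : ∀ t ∈ ball (0 : ℂ) R, t + l ∈ ball (0 : ℂ) (R + ‖l‖) := fun t ht => by
      rw [mem_ball_zero_iff] at ht ⊢
      linarith [norm_add_le t l]
    exact ⟨_, D.shift s1 hl m, fun t ht q => s2 _ (m t ht) ((far_shift h3 hl).2 q)⟩
  · rcases uf_cases u with hu | ⟨k, rfl⟩
    · obtain ⟨s, s1, s2⟩ := appr h3 hg
      have s3 : ∀ R : ℝ, ∀ᶠ k in u, Sc D.Xo (ball 0 R) (s k) := fun R => hu (s1 R)
      obtain ⟨G, g1, g2⟩ := h1 n D u univ s isOpen_univ fun t _ => ⟨1, one_pos, loc s3 t 1⟩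
      have g3 : Cv u D.Bᶜ s G := g2.mono fun t ht => ⟨mem_univ _, ht⟩
      refine ⟨G, lim s3 g1 g3, cv_of_close g3 (b_open h3 D) fun t ht => ?_⟩
      obtain ⟨r, r0, hr⟩ := s2 t ht
      exact ⟨r, r0, .of_forall fun k => (hg k).1.1.mono (subset_univ _), fun η η0 => hu (hr η η0)⟩
    · exact ⟨g k, hg k, cv_pure ((hg k).1.1.mono (subset_univ _))⟩
  · obtain ⟨s, s1, s2⟩ := appr h3 (g := fun _ => g) fun _ => hg
    have s3 : ∀ R : ℝ, ∀ᶠ k in uf, Sc D.Xo (ball 0 R) (s k) := fun R => uf_le (s1 R)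
    have cv : Cv uf D.Bᶜ s g :=
      cv_of_close (cv_const (hg.1.1.mono (subset_univ _))) (b_open h3 D) fun t ht => by
        obtain ⟨r, r0, hr⟩ := s2 t ht
        exact ⟨r, r0, (loc s3 t r).mono fun k hk => hk.1, fun η η0 =>
          uf_le ((hr η η0).mono fun k hk w hw => (d2_symm _ _).trans_le (hk w hw))⟩
    rcases h2 n D.W D.U uf _ s g D.eqp (b_open h3 D) (b_conn h3 D)
      (fun t _ => ⟨1, one_pos, (loc s3 t 1).mono fun k hk w hw => (hk.2 w hw).2⟩) cv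
      (fun t _ => D.cone (hg.1.2 t (mem_univ _))) with hU | hU
    · exact .inr hU
    · refine .inl fun t ht => ?_
      obtain ⟨w, w1, w2⟩ := ((b_ev h3 D t).and (nhdsWithin_le_nhds
        (D.sc_ev hg.1 isOpen_univ (mem_univ t) ht))).exists
      exact hU w w1 w2

end Pool.Agent.MP_c69980_ag.E2.G3S
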