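import Pool.Agent.MP_c69980_ag.G3S.Base
import Pool.Agent.MP_c69980_ag.E1.Mon

/-!
Open surfaces with a nonconstant unit: entire curves in the good fibres.
-/

set_option autoImplicit false

noncomputable section

namespace Pool.Agent.MP_c69980_ag.E2.G3S

open MvPolynomial Metric Filter Topology Set
open H60 H4 E1

namespace FibX

variable {n : ℕ} {D : Fib n} {G g : ℂ → V n} {t z w : ℂ} {a j : Fin n} {O : Set (ℂ × ℂ)}
  {Y : ℂ × ℂ → V n} {A : ℝ} {y : V n} {c : ℂ → Fin 3 → ℂ}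

/-- Curves with bounded density are uniformly continuous. -/
lemma unif (h3 : E1.LiftStmt) (hG : LH univ G) (hA : ∀ c r g, Crv (ball c r) g →
    (∀ w ∈ ball c r, Pp (G w) (g w)) → ∀ w ∈ ball c r, lam g w ≤ A) {η : ℝ} (hη : 0 < η) :
    ∃ s : ℝ, 0 < s ∧ ∀ w, ∀ w' ∈ ball w s, d2 (G w') (G w) ≤ η := by
  obtain ⟨s, s0, s1, hs⟩ := Mon.nrm n 1 A one_pos
  have c : Tendsto (fun x : ℝ => n * ((2 + 2) / s * x) ^ 2) (𝓝[>] 0) (𝓝 0) :=
    (Continuous.tendsto' (by fun_prop) _ _ (by simp)).mono_left nhdsWithin_le_nhds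
  obtain ⟨x, x1, x2, x3⟩ := ((c.eventually (ge_mem_nhds hη)).and (Eventually.and
    (nhdsWithin_le_nhds (ge_mem_nhds s0)) self_mem_nhdsWithin)).exists
  refine ⟨x, x3, fun w w' hw => ?_⟩
  obtain ⟨g, g1, g2⟩ := h3 n G w 1 2 one_lt_two (hG.mono (subset_univ _))
  obtain ⟨Φ, f1, f2⟩ := hs w g g1 (hA w 1 g g1 g2)
  have m : w' ∈ ball w s := ball_subset_ball x2 hw
  have m0 := mem_ball_self (x := w) s0
  have pp : ∀ v ∈ ball w s, Pp (G v) (Φ v) := fun v hv =>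
    (g2 v (ball_subset_ball s1 hv)).trans (f2 v hv).2.2
  have ne : ∀ v ∈ ball w s, Φ v ≠ 0 := fun v hv => (pp v hv).symm.ne (hG.ne (mem_univ v))
  have k1 : dist (Φ w') (Φ w) ≤ (2 + 2) / s * dist w' w :=
    Complex.dist_le_div_mul_dist_of_mapsTo_ball f1 (fun v hv => mem_closedBall_iff_norm.2
      ((norm_sub_le _ _).trans (add_le_add (f2 v hv).1 (f2 w m0).1))) m
  have k2 := H84.d2_le (ne w' m) (ne w m0) 1
  rw [one_smul] at k2
  rw [dist_eq_norm] at k1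
  rw [(pp w' m).d2 (pp w m0)]
  refine (le_mul_of_one_le_right (H84.d2_nonneg (ne w' m) (ne w m0)) (f2 w' m).2.1).trans
    (k2.trans ((sq_le _).trans (le_trans ?_ x1)))
  exact mul_le_mul_of_nonneg_left (pow_le_pow_left₀ (norm_nonneg _) (k1.trans
    (mul_le_mul_of_nonneg_left (mem_ball.1 hw).le (by positivity))) 2) (Nat.cast_nonneg n)

/-- Points of the fibre close to a point of a chart. -/
lemma cnear (h : Chart D.X a j O Y) (hp : (t, z) ∈ O) (hy : Pp y (Y (t, z))) {P : ℂ → Prop}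
    (hP : ∀ᶠ x in 𝓝 z, P x) : ∃ η : ℝ, 0 < η ∧ ∀ v, (t, v) ∈ D.X → d2 v y ≤ η →
      ∃ x, (t, x) ∈ O ∧ Pp v (Y (t, x)) ∧ P x := by
  have c3 : Tendsto (fun y' : V n => ((t, y') : Pt n)) (𝓝 y) (𝓝 (t, y)) :=
    tendsto_const_nhds.prodMk_nhds tendsto_id
  have c4 : ∀ᶠ q : ℂ × ℂ in 𝓝 (t, z), P q.2 := continuous_snd.continuousAt.eventually hP
  obtain ⟨η, η0, hη⟩ := near_of_d2 (hy.ne (h.ne hp))
    ((c3.eventually (h.ev D.cn hp hy)).and (c3.eventually ((h.tend hp hy).eventually c4)))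
  refine ⟨η, η0, fun v hv H => ?_⟩
  obtain ⟨v', p1, p2, p3⟩ := hη v (D.cn.nz _ hv) H
  obtain ⟨q1, q2, q3⟩ := p2 (D.cn.pp hv p1.symm)
  exact ⟨_, q2, p1.trans ⟨_, q1, q3⟩, p3⟩

/-- A curve in a fibre, read in a chart. -/
lemma near (hG : LH univ G) (hX : ∀ w, (t, G w) ∈ D.Xo) (h : Chart D.X a j O Y) (hp : (t, z) ∈ O)
    (hy : Pp (G w) (Y (t, z))) : AnalyticAt ℂ (fun w => G w a / G w j) w ∧ G w a / G w j = z ∧
      ∀ᶠ w' in 𝓝 w, (t, G w' a / G w' j) ∈ O ∧ Pp (G w') (Y (t, G w' a / G w' j)) := by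
  refine ⟨(hG.ratio (mem_univ w) a (h.eq hp hy).1).1, h.div hp hy, ?_⟩
  have := (h.ev_pc (K := univ) (τ := fun _ => t) D.cn hp (mem_univ w)
    continuousWithinAt_const hG.pc (.of_forall fun w => (hX w).1) rfl hy).2
  rwa [nhdsWithin_univ] at this

/-- The forms and the density along a curve in a fibre. -/
lemma form (hG : LH univ G) (hX : ∀ w, (t, G w) ∈ D.Xo) (h : Chart D.X a j O Y) (hp : (t, z) ∈ O)
    (hy : Pp (G w) (Y (t, z))) (hg : AnalyticAt ℂ g w) (hgG : ∀ᶠ w' in 𝓝 w, Pp (G w') (g w')) :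
    lam g w = ‖deriv (fun w => G w a / G w j) w‖ ^ 2 * lamv (Y (t, z)) (dz Y (t, z)) ∧
      ∀ i, D.Φ i (t, g w) (deriv g w) =
        deriv (fun w => G w a / G w j) w ^ D.m * fc D.Φ Y i (t, z) := by
  obtain ⟨h1, h2, h3⟩ := near hG hX h hp hy
  have e : g =ᶠ[𝓝 w] fun w => g w j • Y (t, G w a / G w j) := by
    filter_upwards [h3, hgG] with w' w1 w2 using (h.eq w1.1 (w2.symm.trans w1.2)).2
  obtain ⟨c0, hc⟩ := h.eq hp (hgG.self_of_nhds.symm.trans hy)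
  have dj := (analyticAt_pi_iff.1 hg j).differentiableAt.hasDerivAt
  have d := dj.smul (hasDerivAt_comp (Y := Y) (f := fun _ => t) (g := fun w => G w a / G w j)
    (by rw [h2]; exact (h.an hp).differentiableAt) (hasDerivAt_const _ _)
    h1.differentiableAt.hasDerivAt)
  have e2 := e.deriv_eq.trans d.deriv
  simp only [h2, zero_smul, zero_add, smul_smul] at e2
  constructor
  · rw [lam, e2]
    conv_lhs => rw [hc]
    simp only [Pi.smul_apply, h.yj hp, smul_eq_mul, mul_one]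
    rw [lamv_comb (h.ne hp) c0, mul_div_cancel_left₀ _ c0]
  · intro i
    have := D.frm.hom a j O Y h _ hp (cone_pp (hX w).2 hy.symm) 0 (zero_mem _) (g w j)
      (g w j * deriv (fun w => G w a / G w j) w) (deriv (fun x => g x j) w) i c0
    rw [mul_div_cancel_left₀ _ c0, add_zero, ← hc, ← e2] at this
    exact this

/-- The values `c` of the forms along the curve `G`, in the charts. -/
def Cf (D : Fib n) (t : ℂ) (G : ℂ → V n) (A : ℝ) (c : ℂ → Fin 3 → ℂ) : Prop :=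
  ∀ w a j O Y z, Chart D.X a j O Y → (t, z) ∈ O → Pp (G w) (Y (t, z)) →
    ‖deriv (fun w => G w a / G w j) w‖ ^ 2 * lamv (Y (t, z)) (dz Y (t, z)) ≤ A ∧
      ∀ i, c w i = deriv (fun w => G w a / G w j) w ^ D.m * fc D.Φ Y i (t, z)

/-- The forms that vanish at one point are bounded near `y`. -/
def Lc (G : ℂ → V n) (c : ℂ → Fin 3 → ℂ) (y : V n) : Prop :=
  ∃ (γ : Fin 3 → ℂ) (η : ℝ), 0 < η ∧ ∀ (Q : PR 3) (d : ℕ), Q.IsHomogeneous d → eval γ Q = 0 →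
    ∃ C : ℝ, ∀ w, d2 (G w) y ≤ η → ‖eval (c w) Q‖ ≤ C

/-- Near a point of the open part. -/
lemma locU (hX : ∀ w, (t, G w) ∈ D.Xo) (hc : Cf D t G A c) (h : Chart D.X a j O Y)
    (hp : (t, z) ∈ O) (hy : Pp y (Y (t, z))) (hU : Y (t, z) ∈ Cone D.U) : Lc G c y := by
  have c0 : ContinuousAt (fun x : ℂ => ((t, x) : ℂ × ℂ)) z := by fun_prop
  have c1 : ContinuousAt (fun p => lamv (Y p) (dz Y p)) (t, z) :=
    ContinuousAt.comp (f := fun p => (Y p, dz Y p)) (lamv_cont (h.ne hp) _)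
      ((h.an hp).continuousAt.prodMk (dz_an (h.an hp)).continuousAt)
  have c2 : ContinuousAt (fun p => ‖fun i => fc D.Φ Y i p‖) (t, z) :=
    (continuousAt_pi.2 fun i => (D.frm.an a j O Y h _ hp hU i).continuousAt).norm
  have p0 := LocX.lamv_pos (h.wg_ne hp)
  obtain ⟨η, η0, hη⟩ := cnear h hp hy (c0.eventually ((c1.eventually
    (lt_mem_nhds (half_lt_self p0))).and (c2.eventually (gt_mem_nhds (lt_add_one _)))))
  refine ⟨0, η, η0, fun Q _ _ _ => ?_⟩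
  obtain ⟨C, hC⟩ := (isCompact_closedBall (0 : Fin 3 → ℂ)
    (√(A / (lamv (Y (t, z)) (dz Y (t, z)) / 2)) ^ D.m * (‖fun i => fc D.Φ Y i (t, z)‖ + 1))
    ).exists_bound_of_continuousOn (MvPolynomial.continuous_eval Q).continuousOn
  refine ⟨C, fun w hw => hC _ ?_⟩
  obtain ⟨x, z1, z2, z3, z4⟩ := hη _ (hX w).1 hw
  obtain ⟨k1, k2⟩ := hc w a j O Y x h z1 z2
  have k3 : c w = deriv (fun w => G w a / G w j) w ^ D.m • fun i => fc D.Φ Y i (t, x) := funext k2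
  rw [mem_closedBall_zero_iff, k3, norm_smul, norm_pow]
  refine mul_le_mul (pow_le_pow_left₀ (norm_nonneg _) (Real.le_sqrt_of_sq_le ?_) _) z4.le
    (norm_nonneg _) (by positivity)
  rw [le_div_iff₀ (half_pos p0)]
  exact (mul_le_mul_of_nonneg_left z3.le (sq_nonneg _)).trans k1

lemma xlog {u p s : ℝ} (M : ℕ) (u0 : 0 < u) (u1 : u ≤ 1) (p0 : 0 ≤ p) (s0 : 0 < s)
    (h : p * s ≤ 2 * u * -Real.log u) : (p / u) ^ M * u ≤ (2 / s) ^ M * M.factorial := by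
  have l0 : 0 ≤ -Real.log u := neg_nonneg.2 (Real.log_nonpos u0.le u1)
  have k1 : p / u ≤ 2 / s * -Real.log u := by
    rw [div_mul_eq_mul_div, div_le_div_iff₀ u0 s0]
    linarith
  have k2 := Real.pow_div_factorial_le_exp _ l0 M
  rw [Real.exp_neg, Real.exp_log u0, div_le_iff₀ (by positivity), inv_mul_eq_div,
    le_div_iff₀ u0] at k2
  refine (mul_le_mul_of_nonneg_right (pow_le_pow_left₀ (by positivity) k1 M) u0.le).trans ?_
  rw [mul_pow, mul_assoc]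
  exact mul_le_mul_of_nonneg_left k2 (by positivity)

/-- Near a point of the boundary. -/
lemma locB (h1 : LogDStmt) (hG : LH univ G) (hX : ∀ w, (t, G w) ∈ D.Xo)
    (hu : ∀ η : ℝ, 0 < η → ∃ s : ℝ, 0 < s ∧ ∀ w, ∀ w' ∈ ball w s, d2 (G w') (G w) ≤ η)
    (hc : Cf D t G A c) (ht : t ∉ D.B) (h : Chart D.X a j O Y)
    (hp : (t, z) ∈ O) (hy : Pp y (Y (t, z))) (hU : Y (t, z) ∉ Cone D.U) : Lc G c y := by
  obtain ⟨ζ, φ, -, e, a1, a2⟩ := D.pole a j O Y h _ hp ht hU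
  have e : ζ t = z := e
  have c0 : AnalyticAt ℂ (fun x : ℂ => ((t, x) : ℂ × ℂ)) z := analyticAt_const.prod analyticAt_id
  have a3 : AnalyticAt ℂ (fun x i => φ i (t, x)) z :=
    analyticAt_pi_iff.2 fun i => (a1 i).comp_of_eq c0 rfl
  obtain ⟨ρ, ρ0, hρ⟩ := nhds_basis_closedBall.eventually_iff.1 (a3.eventually_analyticAt.and
    ((c0.continuousAt.eventually a2).and (closedBall_mem_nhds z one_pos)))
  simp only [e] at hρ
  obtain ⟨η, η0, hη⟩ := cnear h hp hy (closedBall_mem_nhds z ρ0)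
  obtain ⟨s, s0, hs⟩ := hu (η / 4) (by positivity)
  refine ⟨fun i => φ i (t, z), η / 4, by positivity, fun Q d hQ h0 => ?_⟩
  have f1 : ∀ x ∈ closedBall z ρ, AnalyticAt ℂ (fun x => eval (fun i => φ i (t, x)) Q) x :=
    fun x hx => eval_an (hρ hx).1 Q
  obtain ⟨C, hC⟩ := (isCompact_closedBall z ρ).exists_bound_of_continuousOn
    ((continuousOn_dslope (closedBall_mem_nhds z ρ0)).2
      ⟨fun x hx => (f1 x hx).continuousAt.continuousWithinAt,
        (f1 z (mem_closedBall_self ρ0.le)).differentiableAt⟩)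
  refine ⟨(2 / s) ^ (D.m * d) * (D.m * d).factorial * C, fun w hw => ?_⟩
  have key : ∀ v ∈ ball w s, (t, G v a / G v j) ∈ O ∧ Pp (G v) (Y (t, G v a / G v j)) ∧
      G v a / G v j ∈ closedBall z ρ ∧ G v a / G v j ≠ z := fun v hv => by
    have tri := H84.d2_tri (hG.ne (mem_univ v)) (hG.ne (mem_univ w)) (hy.ne (h.ne hp))
    obtain ⟨x, x1, x2, x3⟩ := hη (G v) (hX v).1 (by linarith [hs w v hv])
    rw [h.div x1 x2]
    exact ⟨x1, x2, x3, (hρ x3).2.1.1.1 (cone_pp (hX v).2 x2.symm)⟩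
  have l := h1 (fun v => G v a / G v j - z) w s s0 (fun v hv => ((hG.ratio (mem_univ v) a
    (h.eq (key v hv).1 (key v hv).2.1).1).1.differentiableAt.sub_const z).differentiableWithinAt)
    fun v hv => ⟨sub_ne_zero.2 (key v hv).2.2.2,
      mem_closedBall_iff_norm.1 (hρ (key v hv).2.2.1).2.2⟩
  rw [deriv_sub_const] at l
  obtain ⟨k1, k2, k3, k4⟩ := key w (mem_ball_self s0)
  have k5 := (hc w a j O Y _ h k1 k2).2
  generalize G w a / G w j = x at k3 k4 k5 l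
  generalize deriv (fun w => G w a / G w j) w = p at k5 l
  have x0 := sub_ne_zero.2 k4
  have e2 : c w = (p / (x - z)) ^ D.m • fun i => φ i (t, x) := funext fun i => by
    rw [k5, Pi.smul_apply, (hρ k3).2.1.2 k4 i, smul_eq_mul, ← mul_assoc, ← mul_pow,
      div_mul_cancel₀ _ x0]
  have e3 := sub_smul_dslope (fun x => eval (fun i => φ i (t, x)) Q) z x
  rw [h0, sub_zero] at e3
  rw [e2, eval_smul_hom hQ, ← pow_mul, ← e3, norm_mul, norm_smul, norm_pow, norm_div, ← mul_assoc]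
  exact mul_le_mul (xlog _ (norm_pos_iff.2 x0) (mem_closedBall_iff_norm.1 (hρ k3).2.2)
    (norm_nonneg _) s0 l) (hC x k3) (norm_nonneg _) (by positivity)

/-- Compactness of the fibre. -/
lemma allQ (hX : ∀ w, (t, G w) ∈ D.Xo) (H : ∀ y, (t, y) ∈ D.X → Lc G c y) :
    ∃ Γ : Set (Fin 3 → ℂ), Γ.Finite ∧ ∀ (Q : PR 3) (d : ℕ), Q.IsHomogeneous d →
      (∀ γ ∈ Γ, eval γ Q = 0) → ∃ C : ℝ, ∀ w, ‖eval (c w) Q‖ ≤ C := by
  have hK : IsCompact {y ∈ sphere (0 : V n) 1 | (t, y) ∈ D.X} := by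
    refine (isCompact_sphere (0 : V n) 1).of_isClosed_subset
      (isClosed_of_closure_subset fun y hy => ?_) (sep_subset _ _)
    have h1 : y ∈ sphere (0 : V n) 1 :=
      isClosed_sphere.closure_subset (closure_mono (sep_subset _ _) hy)
    refine ⟨h1, D.cn.closed _ (map_mem_closure (f := fun y' : V n => ((t, y') : Pt n))
      (by fun_prop) hy fun _ q => q.2) ?_⟩
    rintro (rfl : y = 0)
    simp at h1
  obtain ⟨Γ, Γ0, hΓ⟩ := hK.induction_on (p := fun s => ∃ Γ : Set (Fin 3 → ℂ), Γ.Finite ∧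
      ∀ (Q : PR 3) (d : ℕ), Q.IsHomogeneous d → (∀ γ ∈ Γ, eval γ Q = 0) →
        ∃ C : ℝ, ∀ w, ∀ y ∈ s, Pp (G w) y → ‖eval (c w) Q‖ ≤ C)
    ⟨∅, finite_empty, fun _ _ _ _ => ⟨0, fun _ _ q => q.elim⟩⟩
    (fun s s' hs ⟨Γ, Γ0, hΓ⟩ => ⟨Γ, Γ0, fun Q d q1 q2 =>
      (hΓ Q d q1 q2).imp fun C hC w y hy => hC w y (hs hy)⟩)
    (fun s s' ⟨Γ, Γ0, hΓ⟩ ⟨Γ', Γ0', hΓ'⟩ => ⟨Γ ∪ Γ', Γ0.union Γ0', fun Q d q1 q2 => by
      obtain ⟨C, hC⟩ := hΓ Q d q1 fun γ hγ => q2 γ (.inl hγ)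
      obtain ⟨C', hC'⟩ := hΓ' Q d q1 fun γ hγ => q2 γ (.inr hγ)
      exact ⟨max C C', fun w y hy q => hy.elim (fun r => (hC w y r q).trans (le_max_left _ _))
        fun r => (hC' w y r q).trans (le_max_right _ _)⟩⟩)
    fun y hy => by
      obtain ⟨γ, η, η0, hη⟩ := H y hy.2
      have y0 : y ≠ 0 := D.cn.nz _ hy.2
      have c1 := d2_lim (tendsto_id (x := 𝓝 y)) tendsto_const_nhds y0 y0
      rw [d2_self y0] at c1
      refine ⟨_, nhdsWithin_le_nhds (c1.eventually (ge_mem_nhds η0)), {γ}, finite_singleton _,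
        fun Q d q1 q2 => (hη Q d q1 (q2 γ rfl)).imp fun C hC w y' hy' q => hC w ?_⟩
      rw [q.d2 (.refl y)]
      exact hy'
  refine ⟨Γ, Γ0, fun Q d q1 q2 => (hΓ Q d q1 q2).imp fun C hC w => ?_⟩
  have y0 : G w ≠ 0 := D.cn.nz _ (hX w).1
  have n0 : ((‖G w‖ : ℂ))⁻¹ ≠ 0 := by simpa using y0
  exact hC w _ ⟨by simp [norm_smul, y0], D.cn.scal _ (hX w).1 _ n0⟩ (Pp.smul n0 _).symm

end FibX

open FibX in
theorem fib (h1 : LogDStmt) (h2 : PropStmt) (h3 : E1.LiftStmt) : FibStmt := by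
  intro n D G t A ht hG hX hA r g r0 hg hgG
  choose f ρ ρ0 f1 f2 using fun w => hG w (mem_univ w)
  have fa : ∀ w, AnalyticAt ℂ (f w) w := fun w => Crv.an (f1 w) isOpen_ball (mem_ball_self (ρ0 w))
  have fp : ∀ w, ∀ᶠ w' in 𝓝 w, Pp (G w') (f w w') := fun w =>
    mem_of_superset (ball_mem_nhds w (ρ0 w)) (f2 w)
  have ch : ∀ w, ∃ a j O Y z, Chart D.X a j O Y ∧ (t, z) ∈ O ∧ Pp (G w) (Y (t, z)) := fun w => by
    obtain ⟨a, j, O, Y, h, z, hp, hz⟩ := D.bad _ (hX w).1 ht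
    exact ⟨a, j, O, Y, z, h, hp, hz⟩
  have hc : Cf D t G A fun w i => D.Φ i (t, f w w) (deriv (f w) w) :=
    fun w a j O Y z h hp hz => by
      obtain ⟨k1, k2⟩ := form hG hX h hp hz (fa w) (fp w)
      exact ⟨k1 ▸ hA w _ _ (f1 w) (f2 w) w (mem_ball_self (ρ0 w)), k2⟩
  generalize (fun w i => D.Φ i (t, f w w) (deriv (f w) w)) = c at hc
  have dc : Differentiable ℂ c := fun w => differentiableAt_pi.2 fun i => by
    obtain ⟨a, j, O, Y, z, h, hp, hz⟩ := ch w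
    obtain ⟨k1, k2, k3⟩ := near hG hX h hp hz
    have k4 : AnalyticAt ℂ (fun w => deriv (fun w => G w a / G w j) w ^ D.m *
        fc D.Φ Y i (t, G w a / G w j)) w :=
      (k1.deriv.pow _).mul ((D.frm.an a j O Y h _ hp (cone_pp (hX w).2 hz.symm) i).comp_of_eq
        (analyticAt_const.prod k1) (by simp only [k2]))
    exact k4.differentiableAt.congr_of_eventuallyEq
      (k3.mono fun w' q => (hc w' a j O Y _ h q.1 q.2).2 i)
  obtain ⟨Γ, Γ0, hΓ⟩ := allQ (c := c) hX fun y hy => by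
    obtain ⟨a, j, O, Y, h, z, hp, hz⟩ := D.bad _ hy ht
    by_cases hU : Y (t, z) ∈ Cone D.U
    · exact locU hX hc h hp hz hU
    · exact locB h1 hG hX (fun _ => unif h3 hG hA) hc ht h hp hz hU
  obtain ⟨c₀, cst⟩ := h2 c Γ dc Γ0 hΓ
  obtain ⟨a, j, O, Y, z, h, hp, hz⟩ := ch 0
  obtain ⟨k1, k2, k3⟩ := near hG hX h hp hz
  rw [(form hG hX h hp hz (Crv.an hg isOpen_ball (mem_ball_self r0))
    (mem_of_superset (ball_mem_nhds 0 r0) hgG)).1]
  suffices e : deriv (fun w => G w a / G w j) 0 = 0 by simp [e]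
  by_contra hne
  have fin := (D.vert t ht a j O Y h c₀).sdiff (t := {z})
  have e : (fun w => G w a / G w j) =ᶠ[𝓝 0] fun _ => z := by
    filter_upwards [k3, k1.deriv.continuousAt.eventually_ne hne,
      k1.continuousAt.eventually (fin.isClosed.isOpen_compl.mem_nhds fun q => q.2 k2)]
      with w q1 q2 q3
    by_contra q
    obtain ⟨κ, hκ⟩ := cst w
    refine q3 ⟨⟨q1.1, cone_pp (hX w).2 q1.2.symm,
      (deriv (fun w => G w a / G w j) w ^ D.m)⁻¹ * κ, fun l => ?_⟩, q⟩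
    rw [mul_assoc, ← hκ, (hc w a j O Y _ h q1.1 q1.2).2,
      inv_mul_cancel_left₀ (pow_ne_zero _ q2)]
  exact hne (by rw [e.deriv_eq, deriv_const])

end Pool.Agent.MP_c69980_ag.E2.G3S
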