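import Pool.Agent.MP_c69980_ag.G3S.Lat
import Pool.Agent.MP_c69980_ag.E1.Gain

/-!
The potential on the base is strictly subharmonic on strips.
-/

set_option autoImplicit false

noncomputable section

namespace Pool.Agent.MP_c69980_ag.E2.G3S

open Metric Filter Topology Set MeasureTheory Real
open H60 H4 E1

namespace GainS

/-- Entire homogeneous coordinates. -/
def tz (t : ℂ) : V 3 := ![Complex.exp t - 1, -Complex.exp t, (Complex.exp t - 1) ^ 2]

/-- The difference quotient of the exponential function at the origin. -/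
def dq : ℂ → ℂ := dslope Complex.exp 0

theorem dq_mul (w : ℂ) : w * dq w = Complex.exp w - 1 := by
  simpa [dq] using sub_smul_dslope Complex.exp 0 w

theorem dq_diff : Differentiable ℂ dq := differentiableOn_univ.1
  ((Complex.differentiableOn_dslope univ_mem).2 Complex.differentiable_exp.differentiableOn)

theorem dq_ne (L : Bas) {w : ℂ} (h : w ∈ L.lattice → w = 0) : dq w ≠ 0 := by
  by_cases z : w = 0
  · simp [z, dq]
  · exact right_ne_zero_of_mul (dq_mul w ▸ L.exp_ne fun q => z (h q))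

theorem tz_eq (L : Bas) {t : ℂ} (ht : Complex.exp t - 1 ≠ 0) :
    tz t = (Complex.exp t - 1) ^ 2 • ![L.wp t, L.wq t, 1] := by
  funext i
  fin_cases i
  · simp [tz, Bas.wp]
    field_simp
  · simp [tz, Bas.wq]
    field_simp
  · simp [tz]

theorem tz_der (t : ℂ) : HasDerivAt tz
    ![Complex.exp t, -Complex.exp t, 2 * (Complex.exp t - 1) * Complex.exp t] t :=
  hasDerivAt_pi.2 fun i => by
    have h := Complex.hasDerivAt_exp t
    fin_cases i
    · exact h.sub_const 1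
    · exact h.neg
    · simpa [tz] using (h.sub_const 1).fun_pow 2

theorem tz_crv : Crv univ tz :=
  ⟨fun t _ => (tz_der t).differentiableAt.differentiableWithinAt, fun t _ h => by
    simpa [tz] using congrFun h 1⟩

theorem tz_lam (t : ℂ) : 0 < lam tz t := by
  have m := (R1.minor 3 (tz t) (deriv tz t) (tz_crv.2 t trivial)).1 0 1
  have e : deriv tz t 0 * tz t 1 - tz t 0 * deriv tz t 1 = -Complex.exp t := by
    rw [(tz_der t).deriv]
    simp [tz]
    ring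
  rw [e] at m
  exact pos_of_mul_pos_left ((pow_pos (norm_pos_iff.2 (by simp)) 2).trans_le m) (sq_nonneg _)

/-- Uniform bounds on a fundamental region. -/
theorem bounds (L : Bas) (R : ℝ) {r : ℝ} (hr : 0 < r) :
    ∃ a C : ℝ, 0 < a ∧ ∀ w : ℂ, ‖w‖ ≤ R → (∀ l ∈ L.lattice, l ≠ 0 → r ≤ ‖w - l‖) →
      dq w ≠ 0 ∧ a ≤ lam tz w ∧ log (H4.sq (tz w)) + 2 * ‖w / dq w ^ 2‖ ≤ C := by
  let K : Set ℂ := closedBall 0 R ∩ ⋂ l ∈ (L.lattice : Set ℂ) \ {0}, {w | r ≤ ‖w - l‖}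
  have hK : IsCompact K := (isCompact_closedBall 0 R).inter_right
    (isClosed_biInter fun l _ => isClosed_le continuous_const (by fun_prop))
  have hs : ∀ w ∈ K, dq w ≠ 0 := fun w hw => dq_ne L fun h => by
    by_contra z
    have : r ≤ ‖w - w‖ := mem_iInter₂.1 hw.2 w ⟨h, z⟩
    rw [sub_self, norm_zero] at this
    linarith
  obtain ⟨q1, q2, -⟩ := R1.lapQ 3 _ tz isOpen_univ tz_crv
  obtain ⟨a, a1, a2⟩ := hK.exists_forall_le' (q2.1.mono (subset_univ _)) fun w _ => tz_lam w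
  obtain ⟨C, hC⟩ := hK.bddAbove_image
    (f := fun w => log (H4.sq (tz w)) + 2 * ‖w / dq w ^ 2‖)
    ((q1.continuousOn.mono (subset_univ _)).add (continuousOn_const.mul (continuousOn_id.div
      (dq_diff.continuous.continuousOn.pow 2) fun w hw => pow_ne_zero 2 (hs w hw)).norm))
  refine ⟨a, C, a1, fun w w1 w2 => ?_⟩
  have hw : w ∈ K := ⟨mem_closedBall_zero_iff.2 w1, mem_iInter₂.2 fun l hl => w2 l hl.1 hl.2⟩
  exact ⟨hs w hw, a2 w hw, hC (mem_image_of_mem _ hw)⟩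

/-- A lattice point such that all the others are far. -/
theorem pick (L : Bas) : ∃ r : ℝ, 0 < r ∧ ∀ M : ℝ, ∃ R : ℝ, ∀ t : ℂ, |t.re| ≤ M →
    ∃ l ∈ L.lattice, ‖t - l‖ ≤ R ∧ ∀ l' ∈ L.lattice, l' ≠ l → r ≤ ‖t - l'‖ := by
  obtain ⟨r, r0, hr⟩ := L.bad_sep ∅
  refine ⟨r / 2, half_pos r0, fun M => ?_⟩
  obtain ⟨R, R0, hR⟩ := L.near M
  refine ⟨R + r / 2, fun t ht => ?_⟩
  by_cases hc : ∃ l ∈ L.lattice, ‖t - l‖ < r / 2
  · obtain ⟨l, hl, hd⟩ := hc
    refine ⟨l, hl, by linarith, fun l' hl' hne => ?_⟩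
    have e1 := hr l' (Or.inl hl') l (Or.inl hl) hne
    have e2 : l' - l = t - l - (t - l') := by ring
    rw [e2] at e1
    linarith [norm_sub_le (t - l) (t - l')]
  · obtain ⟨l, hl, hd⟩ := hR t ht
    exact ⟨l, hl, by linarith, fun l' hl' _ => not_lt.1 fun h => hc ⟨l', hl', h⟩⟩

end GainS

open GainS E1.Gain in
theorem gain : GainStmt := fun L => by
  obtain ⟨r, r0, hp⟩ := GainS.pick L
  refine ⟨r / 4, by positivity, fun M => ?_⟩
  obtain ⟨R, hp⟩ := hp M
  obtain ⟨a, C, a0, hb⟩ := GainS.bounds L (R + r / 2) (half_pos r0)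
  refine ⟨3 / 16 * a, by positivity, fun ρ hρ hρr =>
    ⟨6 * log (2 / ρ) + C, fun t₀ g A hM hg hA => ?_⟩⟩
  obtain ⟨l, hl, l1, l2⟩ := hp t₀ hM
  obtain ⟨f, f1, f2⟩ := divide isOpen_ball hg l fun h => (hA l h).2 hl
  have hw : ∀ t ∈ ball t₀ (2 * ρ), dq (t - l) ≠ 0 ∧ a ≤ lam GainS.tz (t - l) ∧
      log (H4.sq (GainS.tz (t - l))) + 2 * ‖(t - l) / dq (t - l) ^ 2‖ ≤ C := fun t ht => by
    rw [mem_ball_iff_norm] at ht
    refine hb _ ?_ fun m hm m0 => ?_
    · have e : t - l = t - t₀ + (t₀ - l) := by ring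
      rw [e]
      linarith [norm_add_le (t - t₀) (t₀ - l)]
    · have e1 := l2 (l + m) (add_mem hl hm) (by simpa using m0)
      have e : t₀ - (l + m) = t - l - m - (t - t₀) := by ring
      rw [e] at e1
      linarith [norm_sub_le (t - l - m) (t - t₀)]
  have hF : Crv (ball t₀ (2 * ρ)) fun t => GainS.tz (t - l) :=
    ⟨GainS.tz_crv.1.comp (differentiableOn_id.sub_const l) fun t _ => trivial,
      fun t _ => GainS.tz_crv.2 _ trivial⟩
  obtain ⟨F, hF0⟩ : ∃ F : ℂ → ℂ, F = fun t => f t ^ 3 * ((t - l) / dq (t - l) ^ 2) := ⟨_, rfl⟩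
  have F1 : DifferentiableOn ℂ F (ball t₀ (2 * ρ)) := hF0 ▸ (f1.pow 3).mul
    ((differentiableOn_id.sub_const l).div ((dq_diff.comp
      (differentiable_id.sub_const l)).differentiableOn.pow 2) fun t ht =>
        pow_ne_zero 2 (hw t ht).1)
  have key : ∀ t ∈ ball t₀ (2 * ρ), g t ≠ 0 → f t ≠ 0 ∧ F t ≠ 0 ∧
      log ‖F t‖ = 3 * log ‖f t‖ + log ‖(t - l) / dq (t - l) ^ 2‖ ∧
      bt L g t = 2 * log ‖F t‖ + log (H4.sq (GainS.tz (t - l))) := fun t ht h0 => by
    rw [f2 t ht] at h0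
    have n1 := left_ne_zero_of_mul h0
    have n2 := right_ne_zero_of_mul h0
    have n3 : (![L.wp t, L.wq t, 1] : V 3) ≠ 0 := fun h => by simpa using congrFun h 2
    have n4 := (hw t ht).1
    have n5 := div_ne_zero n1 (pow_ne_zero 2 n4)
    have e1 := L.wp_add_coe t ⟨-l, neg_mem hl⟩
    have e2 := L.wq_add_coe t ⟨-l, neg_mem hl⟩
    simp only [← sub_eq_add_neg] at e1 e2
    have e3 : log ‖F t‖ = 3 * log ‖f t‖ + log ‖(t - l) / dq (t - l) ^ 2‖ := by
      rw [hF0, norm_mul, log_mul (norm_ne_zero_iff.2 (pow_ne_zero 3 n2)) (norm_ne_zero_iff.2 n5),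
        norm_pow, log_pow]
      norm_num
    refine ⟨n2, hF0 ▸ mul_ne_zero (pow_ne_zero 3 n2) n5, e3, ?_⟩
    rw [e3, bt, f2 t ht, GainS.tz_eq L (dq_mul _ ▸ mul_ne_zero n1 n4), e1, e2, R1.sq_smul,
      ← dq_mul, norm_mul, log_mul (norm_ne_zero_iff.2 n1) (norm_ne_zero_iff.2 n2),
      log_mul (pow_ne_zero 2 (norm_ne_zero_iff.2 (pow_ne_zero 2 (mul_ne_zero n1 n4))))
        (R1.sq_pos' n3).ne', norm_pow, log_pow, log_pow, norm_mul,
      log_mul (norm_ne_zero_iff.2 n1) (norm_ne_zero_iff.2 n4), norm_div,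
      log_div (norm_ne_zero_iff.2 n1) (norm_ne_zero_iff.2 (pow_ne_zero 2 n4)), norm_pow, log_pow]
    push_cast
    ring
  have sb : ball t₀ ρ ⊆ ball t₀ (2 * ρ) := ball_subset_ball (by linarith)
  have sc : closedBall t₀ ρ ⊆ ball t₀ (2 * ρ) := closedBall_subset_ball (by linarith)
  refine ⟨fun t ht _ h0 => ?_, fun _ h0 => ?_⟩
  · obtain ⟨k1, -, k3, k2⟩ := key t (sb ht) h0
    have A0 : 0 < A := (norm_pos_iff.2 h0).trans_le (hA t (sb ht)).1
    have e := log_le_log (norm_pos_iff.2 k1) (schwarz hρ f1 f2 (fun t ht => (hA t ht).1) ht)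
    rw [log_mul A0.ne' (by positivity)] at e
    linarith [(hw t (sb ht)).2.2, log_le_self (norm_nonneg ((t - l) / dq (t - l) ^ 2))]
  have c0 : t₀ ∈ ball t₀ (2 * ρ) := mem_ball_self (by linarith)
  obtain ⟨-, k1, -, k2⟩ := key t₀ c0 h0
  have ae := ((H26.logSub _ g isOpen_ball hg).2 t₀ ρ hρ sc h0).1
  obtain ⟨s1, s2⟩ := H26.logSub _ F isOpen_ball F1
  have s3 := (s2 t₀ ρ hρ sc k1).2
  have s4 : IntegrableOn (fun z => log ‖F z‖) (ball t₀ ρ) :=
    (s1.integrableOn_compact_subset sc (isCompact_closedBall t₀ ρ)).mono_set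
      ball_subset_closedBall
  obtain ⟨q1, -, q3⟩ := R1.lapQ 3 _ _ isOpen_ball hF
  obtain ⟨u1, u2⟩ := strict isOpen_ball q1 hρ sc a0.le fun z hz => by
    rw [q3 z hz, lam, deriv_comp_sub_const]
    exact mul_le_mul_of_nonneg_left (hw z hz).2.1 (by norm_num)
  have e : (fun t => 2 * log ‖F t‖ + log (H4.sq (GainS.tz (t - l)))) =ᵐ[volume.restrict
      (ball t₀ ρ)] bt L g := (ae_restrict_iff' measurableSet_ball).2
    (ae.mono fun t ht h => (key t (sb h) (ht h)).2.2.2.symm)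
  refine ⟨ae.mono fun t ht h => ⟨fun h' => ht h ((hA t (sb h)).2 h'), ht h⟩,
    Integrable.congr ((s4.const_mul 2).add u1) e, ?_⟩
  rw [← integral_congr_ae e, integral_add (s4.const_mul 2) u1, integral_const_mul, k2]
  linarith

end Pool.Agent.MP_c69980_ag.E2.G3S
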