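import Pool.Agent.MP_c69980_ag.G3S.Base

/-!
Open surfaces with a nonconstant unit: gluing of the local models on half-strips.
-/

set_option autoImplicit false

noncomputable section

namespace Pool.Agent.MP_c69980_ag.E2.G3S

open MvPolynomial Metric Filter Topology MeasureTheory Set Real
open H60 H4 E1

namespace GlueY

variable {L : Bas} {u u' : ℂ → ℝ} {Z Z' : Set ℂ} {c c' t : ℂ} {R R' ε ε' C C' : ℝ}

/-- A holomorphic model with a measurable error term. -/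
def Md (L : Bas) (u : ℂ → ℝ) (Z : Set ℂ) (c : ℂ) (R ε C : ℝ) : Prop :=
  ∃ (G : ℂ → ℂ) (E : ℂ → ℝ), DifferentiableOn ℂ G (ball c R) ∧
    AEStronglyMeasurable E (volume.restrict (ball c R)) ∧ ∀ t ∈ ball c R,
      ‖G t‖ ≤ C ∧ (t ∈ L.lattice → G t = 0) ∧ |E t| ≤ ε ∧
        (t ∈ Z ↔ t ∉ L.lattice ∧ G t ≠ 0) ∧ (t ∈ Z → u t = bt L G t + E t)

lemma Md.mono (h : Md L u Z c R ε C) (H : ball c' R' ⊆ ball c R) (h1 : ε ≤ ε') (h2 : C ≤ C') :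
    Md L u Z c' R' ε' C' := by
  obtain ⟨G, E, a, b, e⟩ := h
  exact ⟨G, E, a.mono H, b.mono_measure (Measure.restrict_mono H le_rfl), fun t ht =>
    ⟨(e t (H ht)).1.trans h2, (e t (H ht)).2.1, (e t (H ht)).2.2.1.trans h1, (e t (H ht)).2.2.2⟩⟩

lemma perturb {b E : ℂ → ℝ} {ρ g e : ℝ} (hρ : 0 < ρ)
    (hE : AEStronglyMeasurable E (volume.restrict (ball t ρ)))
    (hb : ∀ w ∈ ball t ρ, |E w| ≤ e) (hu : ∀ᵐ w, w ∈ ball t ρ → u w = b w + E w)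
    (ht : u t = b t + E t) (hi : IntegrableOn b (ball t ρ))
    (hm : π * ρ ^ 2 * (b t + (g + 2 * e)) ≤ ∫ w in ball t ρ, b w) :
    IntegrableOn u (ball t ρ) ∧ π * ρ ^ 2 * (u t + g) ≤ ∫ w in ball t ρ, u w := by
  have i1 : IntegrableOn E (ball t ρ) :=
    Integrable.mono' (integrableOn_const (C := e) measure_ball_lt_top.ne) hE
      ((ae_restrict_iff' measurableSet_ball).2 (.of_forall hb))
  have e1 : (fun w => b w + E w) =ᵐ[volume.restrict (ball t ρ)] u :=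
    (ae_restrict_iff' measurableSet_ball).2 (hu.mono fun w hw h => (hw h).symm)
  refine ⟨Integrable.congr (hi.add i1) e1, ?_⟩
  have v : volume.real (ball t ρ) = π * ρ ^ 2 := by
    simp [Measure.real, Complex.volume_ball, hρ.le, mul_comm]
  have e2 : ∫ _ in ball t ρ, -e ≤ ∫ w in ball t ρ, E w :=
    setIntegral_mono_on (integrableOn_const measure_ball_lt_top.ne) i1 measurableSet_ball
      fun w hw => (abs_le.1 (hb w hw)).1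
  rw [setIntegral_const, v, smul_eq_mul] at e2
  have e3 := (abs_le.1 (hb t (mem_ball_self hρ))).2
  have p : 0 < π * ρ ^ 2 := by positivity
  rw [← integral_congr_ae e1, integral_add hi i1, ht]
  nlinarith [mul_le_mul_of_nonneg_left e3 p.le]

/-- The conclusion of the row on the potential, for one radius and one strip. -/
def Gn (L : Bas) (M g ρ C : ℝ) : Prop :=
  ∀ (t₀ : ℂ) (G : ℂ → ℂ) (A : ℝ), |t₀.re| ≤ M → DifferentiableOn ℂ G (ball t₀ (2 * ρ)) →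
    (∀ t ∈ ball t₀ (2 * ρ), ‖G t‖ ≤ A ∧ (t ∈ L.lattice → G t = 0)) →
    (∀ t ∈ ball t₀ ρ, t ∉ L.lattice → G t ≠ 0 → bt L G t ≤ 6 * Real.log A + C) ∧
    (t₀ ∉ L.lattice → G t₀ ≠ 0 → (∀ᵐ t, t ∈ ball t₀ ρ → t ∉ L.lattice ∧ G t ≠ 0) ∧
      IntegrableOn (bt L G) (ball t₀ ρ) ∧
      Real.pi * ρ ^ 2 * (bt L G t₀ + g * ρ ^ 2) ≤ ∫ t in ball t₀ ρ, bt L G t)

lemma Md.up {M g ρ A : ℝ} (h : Md L u Z t (2 * ρ) ε A) (hG : Gn L M g ρ C) (hρ : 0 < ρ)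
    (hM : |t.re| ≤ M) (ht : t ∈ Z) : u t ≤ 6 * log A + C + ε := by
  obtain ⟨G, E, a, -, e⟩ := h
  obtain ⟨-, -, e1, e2, e3⟩ := e t (mem_ball_self (by linarith))
  rw [e3 ht]
  exact add_le_add ((hG t G A hM a fun w hw => ⟨(e w hw).1, (e w hw).2.1⟩).1 t (mem_ball_self hρ)
    (e2.1 ht).1 (e2.1 ht).2) (abs_le.1 e1).2

lemma Md.sub {M g ρ A : ℝ} (h : Md L u Z t (2 * ρ) (g / 4 * ρ ^ 2) A) (hG : Gn L M g ρ C)
    (hρ : 0 < ρ) (hM : |t.re| ≤ M) (ht : t ∈ Z) : Sb u Z t ρ (g / 2 * ρ ^ 2) := by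
  obtain ⟨G, E, a, m, e⟩ := h
  have sb : ball t ρ ⊆ ball t (2 * ρ) := ball_subset_ball (by linarith)
  obtain ⟨-, -, -, e2, e3⟩ := e t (mem_ball_self (by linarith))
  obtain ⟨g1, g2, g3⟩ := (hG t G A hM a fun w hw => ⟨(e w hw).1, (e w hw).2.1⟩).2
    (e2.1 ht).1 (e2.1 ht).2
  have ae : ∀ᵐ w, w ∈ ball t ρ → w ∈ Z := g1.mono fun w hw q => (e w (sb q)).2.2.2.1.2 (hw q)
  exact ⟨ae, perturb hρ (m.mono_measure (Measure.restrict_mono sb le_rfl))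
    (fun w hw => (e w (sb hw)).2.2.1) (ae.mono fun w hw q => (e w (sb q)).2.2.2.2 (hw q)) (e3 ht)
    g2 (le_of_eq_of_le (by ring) g3)⟩

lemma sb_mono {ρ a b : ℝ} (h : Sb u Z t ρ a) (H : b ≤ a) : Sb u Z t ρ b :=
  ⟨h.1, h.2.1, le_trans (mul_le_mul_of_nonneg_left (by linarith) (by positivity)) h.2.2⟩

/-- The modified function. -/
lemma modif (L : Bas) (u : ℂ → ℝ) (Z : Set ℂ) (P : ℂ → ℂ → Prop) (G : ℂ → ℂ → ℂ)
    (hP : ∀ t b b', P t b → P t b' → b = b') : ∃ (u' : ℂ → ℝ) (Z' : Set ℂ),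
      (∀ t, (∀ b, ¬P t b) → u' t = u t ∧ (t ∈ Z' ↔ t ∈ Z)) ∧
      ∀ t b, P t b → u' t = bt L (G b) t ∧ (t ∈ Z' ↔ t ∉ L.lattice ∧ G b t ≠ 0) := by
  classical
  refine ⟨fun t => if h : ∃ b, P t b then bt L (G h.choose) t else u t,
    {t | (∃ b, P t b ∧ t ∉ L.lattice ∧ G b t ≠ 0) ∨ (∀ b, ¬P t b) ∧ t ∈ Z},
    fun t h => ⟨dif_neg (not_exists.2 h), ?_, fun q => Or.inr ⟨h, q⟩⟩,
    fun t b h => ⟨?_, ?_, fun q => Or.inl ⟨b, h, q⟩⟩⟩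
  · rintro (⟨b, q, -⟩ | q)
    · exact absurd q (h b)
    · exact q.2
  · have q : ∃ b, P t b := ⟨b, h⟩
    rw [hP t b _ h q.choose_spec]
    exact dif_pos q
  · rintro (⟨b', q, q'⟩ | q)
    · exact hP t b b' h q ▸ q'
    · exact absurd h (q.1 b)

variable {n : ℕ} {D : Fib n} {Q : PR 3} {d : ℕ} {s s' : ℂ → V n}

/-- The body of `Aq`. -/
def Bq (L : Bas) (u : ℂ → ℝ) (Z : Set ℂ) (c : ℂ) (ρ r ε C : ℝ) (G : ℂ → ℂ) (E : ℂ → ℝ) :
    Prop := DifferentiableOn ℂ G (ball c (3 * ρ)) ∧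
  AEStronglyMeasurable E (volume.restrict (ball c (3 * ρ) \ closedBall c r)) ∧
  ∀ t ∈ ball c (3 * ρ), ‖G t‖ ≤ C ∧ (t ∈ L.lattice → G t = 0) ∧ (r < ‖t - c‖ → |E t| ≤ ε ∧
      (t ∈ Z ↔ t ∉ L.lattice ∧ G t ≠ 0) ∧ (t ∈ Z → u t = bt L G t + E t))

lemma Bq.md {ρ r : ℝ} {G : ℂ → ℂ} {E : ℂ → ℝ} (h : Bq L u Z c ρ r ε C G E) (hε : 0 ≤ ε)
    (h1 : ∀ t ∈ ball c (3 * ρ), r < ‖t - c‖ → u' t = u t ∧ (t ∈ Z' ↔ t ∈ Z))
    (h2 : ∀ t, ‖t - c‖ ≤ r → u' t = bt L G t ∧ (t ∈ Z' ↔ t ∉ L.lattice ∧ G t ≠ 0)) :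
    Md L u' Z' c (3 * ρ) ε C := by
  obtain ⟨a, b, e⟩ := h
  refine ⟨G, indicator (closedBall c r)ᶜ E, a, ?_, fun t ht => ⟨(e t ht).1, (e t ht).2.1, ?_⟩⟩
  · rw [aestronglyMeasurable_indicator_iff measurableSet_closedBall.compl,
      Measure.restrict_restrict measurableSet_closedBall.compl, inter_comm]
    exact b
  · rcases lt_or_ge r ‖t - c‖ with q | q
    · rw [indicator_of_mem (show t ∈ (closedBall c r)ᶜ from fun k =>
        absurd (mem_closedBall_iff_norm.1 k) q.not_ge), (h1 t ht q).1, (h1 t ht q).2]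
      exact (e t ht).2.2 q
    · rw [indicator_of_notMem (show t ∉ (closedBall c r)ᶜ from fun k =>
        k (mem_closedBall_iff_norm.2 q)), abs_zero, add_zero]
      exact ⟨hε, (h2 t q).2, fun _ => (h2 t q).1⟩

lemma ap_md {ρ : ℝ} (h : Ap D Q d s s' c ρ 0 ε C)
    (h1 : ∀ t ∈ ball c (3 * ρ), u' t = uu D Q d t (s t) (s' t) ∧
      (t ∈ Z' ↔ Zp D Q t (s t) (s' t))) : Md D.L u' Z' c (3 * ρ) ε C := by
  obtain ⟨G, E, a, b, e⟩ := h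
  refine ⟨G, E, a, (b.mono fun w hw => ⟨hw, by simp⟩).aestronglyMeasurable measurableSet_ball,
    fun t ht => ⟨(e t ht).1, (e t ht).2.1, ?_⟩⟩
  rw [(h1 t ht).1, (h1 t ht).2]
  exact (e t ht).2.2 (norm_nonneg _)

lemma far_two {ρ : ℝ} {b : ℂ}
    (hs : ∀ t ∈ D.B, ∀ t' ∈ D.B, t ≠ t' → 8 * ρ ≤ ‖t - t'‖) (hb : b ∈ D.B) {r : ℝ}
    (h1 : r ≤ ‖t - b‖) (h2 : ‖t - b‖ ≤ 4 * ρ) : Far D r t := fun b' hb' => by
  by_cases e : b = b'
  · exact e ▸ h1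
  · have a := hs b hb b' hb' e
    have k := norm_sub_le (t - b') (t - b)
    rw [show t - b' - (t - b) = b - b' by ring] at k
    linarith

lemma re_le (w t : ℂ) : |w.re| ≤ |t.re| + ‖w - t‖ := by
  have k := Complex.abs_re_le_norm (w - t)
  rw [Complex.sub_re] at k
  linarith [abs_sub_abs_le_abs_sub w.re t.re]

lemma im_le {σ : ℝ} (h : σ = 1 ∨ σ = -1) (w t : ℂ) : σ * t.im ≤ σ * w.im + ‖w - t‖ := by
  have k := abs_le.1 (Complex.abs_im_le_norm (w - t))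
  rw [Complex.sub_im] at k
  rcases h with rfl | rfl <;> linarith [k.1, k.2]

/-- The model at a good value, for pairs of limit sections. -/
lemma good (h2 : LocGStmt) (h6 : AdmStmt) (hQ : QV D Q d) {κ ρ₁ : ℝ} (M : ℝ) (hκ : 0 < κ)
    (p0 : 0 < ρ₁) : ∃ δ r C : ℝ, 0 < δ ∧ 0 < r ∧ ∀ (g g' : ℂ → V n) (t : ℂ), Pr D g g' →
      ¬InB D g → |t.re| ≤ M → Far D (2 * ρ₁) t → (∀ w ∈ ball t ρ₁, d2 (g w) (g' w) ≤ δ) →
      ∃ ρ ∈ Icc r (ρ₁ / 3), Ap D Q d g g' t ρ 0 (κ * ρ ^ 2) C := by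
  obtain ⟨η, η0, hη⟩ : ∃ η : ℝ, 0 < η ∧ (BdP D → ∀ g, Adm D g → ¬InB D g → ∀ t : ℂ,
      |t.re| ≤ M → Far D (2 * ρ₁) t → Aw D η t (g t)) := by
    by_cases q : BdP D
    · obtain ⟨η, a, b⟩ := q (2 * ρ₁) M (by linarith)
      exact ⟨η, a, fun _ => b⟩
    · exact ⟨1, one_pos, fun k => absurd k q⟩
  obtain ⟨δ, r, C, d0, r0, h⟩ := h2 n D Q d η κ ρ₁ M hQ η0 hκ p0
  refine ⟨δ, r, C, d0, r0, fun g g' t hP hn hM fr hδ => ?_⟩
  have s1 : Sc D.X univ g' := hP.2.elim (fun q => q.2.2.1.1) fun q => q.1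
  refine h t g g' hM fr (sc_op.2 ⟨⟨hP.1.1.1.mono (subset_univ _), fun w _ => hP.1.1.2 w trivial⟩,
    fun w hw => ((h6 n D).2.2.2 g hP.1).resolve_left hn w ((fr.near (t' := w)).notMem (by
      linarith [mem_ball_iff_norm.1 hw]))⟩)
    ⟨s1.1.mono (subset_univ _), fun w _ => s1.2 w trivial⟩
    (hP.2.imp (fun q => hη q.1 g hP.1 hn t hM fr) fun q w _ => q.2 w) hδ

end GlueY

open GlueY in
theorem glue (h1 : LocLStmt) (h2 : LocGStmt) (h4 : GainStmt) (h5 : LatStmt) (h6 : AdmStmt) :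
    GlueStmt := by
  intro n D Q d hQ
  obtain ⟨r0, r00, hr0⟩ := ((h5 D.L).2.2 D.S).2.1
  obtain ⟨rG, rG0, hG⟩ := h4 D.L
  choose gn g0 hG using hG
  obtain ⟨MB, -, hMB⟩ := b_strip D
  obtain ⟨ρ, hρ, ρ1, ρ2, ρ3⟩ : ∃ ρ : ℝ, 0 < ρ ∧ 8 * ρ ≤ r0 ∧ ρ ≤ rG ∧ ρ ≤ 1 / 8 :=
    ⟨min (r0 / 8) (min rG (1 / 8)), by positivity,
      by linarith [min_le_left (r0 / 8) (min rG (1 / 8))],
      (min_le_right _ _).trans (min_le_left _ _), (min_le_right _ _).trans (min_le_right _ _)⟩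
  have hs : ∀ t ∈ D.B, ∀ t' ∈ D.B, t ≠ t' → 8 * ρ ≤ ‖t - t'‖ :=
    fun t a t' b e => ρ1.trans (hr0 t a t' b e)
  have n2 : ∀ b : ℂ, ‖b + 2 * ρ - b‖ = 2 * ρ := fun b => by
    simp [abs_of_pos hρ]
  have f2 : ∀ b ∈ D.B, Far D (2 * ρ) (b + 2 * ρ) := fun b hb =>
    far_two hs hb (n2 b).ge (by rw [n2]; linarith)
  obtain ⟨κ, κ0, κ1, κ2⟩ : ∃ κ : ℝ → ℝ, (∀ M, 0 < κ M) ∧ (∀ M, κ M ≤ gn 2) ∧ ∀ M, κ M ≤ gn M :=
    ⟨fun M => min (gn 2) (gn M), fun M => lt_min (g0 2) (g0 M), fun M => min_le_left _ _,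
      fun M => min_le_right _ _⟩
  refine ⟨ρ, gn 2 / 2, hρ, by linarith, half_pos (g0 2), fun t₀ => ?_, fun M₀ => ?_⟩
  · by_cases q : Far D (2 * ρ) t₀
    · exact ⟨t₀, by simp [hρ.le], q⟩
    · simp only [Far, not_forall, not_le] at q
      obtain ⟨b, hb, q⟩ := q
      refine ⟨b + 2 * ρ, ?_, f2 b hb⟩
      have k := norm_sub_le (b + 2 * ρ - b) (t₀ - b)
      rw [n2, sub_sub_sub_cancel_right] at k
      linarith
  obtain ⟨δB, r1, CB, δB0, r10, hB⟩ := h1 n D Q d (κ (MB + 1) / 16) ρ hQ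
    (div_pos (κ0 _) (by norm_num)) hρ fun b hb t ht e => hs t ht b hb e
  obtain ⟨ρ₁, p0, p1, p2⟩ : ∃ ρ₁ : ℝ, 0 < ρ₁ ∧ 2 * ρ₁ ≤ r1 ∧ 2 * ρ₁ ≤ ρ :=
    ⟨min r1 ρ / 2, by positivity, by linarith [min_le_left r1 ρ], by linarith [min_le_right r1 ρ]⟩
  choose δG r2 CG δG0 r20 hL using fun M : ℝ =>
    good h2 h6 hQ M (div_pos (κ0 M) (by norm_num : (0 : ℝ) < 4)) p0
  obtain ⟨rm, m0, m1, m2⟩ : ∃ rm : ℝ → ℝ, (∀ M, 0 < rm M) ∧ (∀ M, rm M ≤ ρ₁) ∧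
      ∀ M, rm M ≤ r2 M := ⟨fun M => min ρ₁ (r2 M), fun M => lt_min p0 (r20 M),
    fun M => min_le_left _ _, fun M => min_le_right _ _⟩
  obtain ⟨Cm, hCm⟩ := hG M₀ (rm M₀) (m0 _) (by linarith [m1 M₀])
  refine ⟨6 * log (max CB (CG M₀)) + Cm + gn 2 / 4, fun M hM => ?_⟩
  obtain ⟨δ, d0, d1, d2', d3, d4⟩ : ∃ δ : ℝ, 0 < δ ∧ δ ≤ δB ∧ δ ≤ δG M ∧ δ ≤ δG M₀ ∧ δ ≤ ρ₁ :=
    ⟨min (min δB ρ₁) (min (δG M) (δG M₀)), lt_min (lt_min δB0 p0) (lt_min (δG0 _) (δG0 _)),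
      (min_le_left _ _).trans (min_le_left _ _), (min_le_right _ _).trans (min_le_left _ _),
      (min_le_right _ _).trans (min_le_right _ _), (min_le_left _ _).trans (min_le_right _ _)⟩
  refine ⟨δ, rm M, d0, m0 M, fun s s' σ y₀ hσ hP hδ => ?_⟩
  by_cases hn : InB D s
  · exact ⟨_, ∅, fun t _ => ⟨rfl, fun q => q.elim, fun q => absurd q.2.1 (hn t)⟩,
      fun t q => q.elim⟩
  obtain ⟨u, hu⟩ : ∃ u : ℂ → ℝ, u = fun t => uu D Q d t (s t) (s' t) := ⟨_, rfl⟩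
  obtain ⟨Z, hZ⟩ : ∃ Z : Set ℂ, Z = {t | Zp D Q t (s t) (s' t)} := ⟨_, rfl⟩
  obtain ⟨K, hK⟩ : ∃ K : ℂ → Prop, ∀ b, K b ↔
      y₀ + 4 * ρ ≤ σ * b.im ∧ |b.re| + 4 * ρ ≤ M + 1 := ⟨_, fun _ => Iff.rfl⟩
  have k1 : ∀ b, ∃ (r : ℝ) (G : ℂ → ℂ) (E : ℂ → ℝ), b ∈ D.B → K b →
      r ∈ Icc r1 ρ ∧ Bq D.L u Z b r (r / 2) (κ (MB + 1) / 16 * r ^ 2) CB G E := fun b => by
    by_cases hb : b ∈ D.B ∧ K b
    swap
    · exact ⟨0, 0, 0, fun a e => absurd ⟨a, e⟩ hb⟩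
    obtain ⟨a1, a2⟩ := (hK b).1 hb.2
    obtain ⟨r, hr, G, E, h⟩ := hB b hb.1 s s' hP hn fun t ht q => by
      have ht := mem_ball_iff_norm.1 ht
      exact (hδ t (by linarith [re_le t b]) (by linarith [im_le hσ t b])
        ((far_two hs hb.1 q ht.le).mono d1)).trans d1
    exact ⟨r, G, E, fun _ _ => ⟨hr, by rw [hu, hZ]; exact h⟩⟩
  choose rb G E hb using k1
  have un : ∀ t b b', b ∈ D.B → b' ∈ D.B → ‖t - b‖ < 4 * ρ → ‖t - b'‖ < 4 * ρ → b = b' :=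
    fun t b b' a a' q q' => by
      by_contra e
      have k := norm_sub_le (t - b') (t - b)
      rw [show t - b' - (t - b) = b - b' by ring] at k
      linarith [hs b a b' a' e]
  obtain ⟨u', Z', U1, U2⟩ := modif D.L u Z
    (fun t b => b ∈ D.B ∧ K b ∧ ‖t - b‖ ≤ rb b / 2) G fun t b b' q q' =>
      un t b b' q.1 q'.1 (by linarith [(hb b q.1 q.2.1).1.2, q.2.2])
        (by linarith [(hb b' q'.1 q'.2.1).1.2, q'.2.2])
  have k2 : ∀ M' ≤ M, δ ≤ δG M' → ∀ t : ℂ, |t.re| ≤ M' → y₀ + 1 < σ * t.im →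
      ∃ r ∈ Icc (rm M') ρ, ∃ N, |t.re| ≤ N ∧
        Md D.L u' Z' t (2 * r) (κ N / 4 * r ^ 2) (max CB (CG M')) := fun M' hM' dM t ht ht' => by
    have m1 := m1 M'
    by_cases q : ∃ b ∈ D.B, K b ∧ ‖t - b‖ < rb b
    · obtain ⟨b, b1, b2, b3⟩ := q
      obtain ⟨⟨a1, a2⟩, a3⟩ := hb b b1 b2
      refine ⟨rb b / 2, ⟨by linarith, by linarith⟩, MB + 1, by linarith [re_le t b, hMB b b1],
        (a3.md (mul_nonneg (div_pos (κ0 _) (by norm_num)).le (sq_nonneg _))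
          (fun w hw e => U1 w ?_) fun w e => U2 w b ⟨b1, b2, e⟩).mono (ball_subset_ball' ?_)
          (le_of_eq (by ring)) (le_max_left _ _)⟩
      · rintro b' ⟨c1, c2, c3⟩
        have hw := mem_ball_iff_norm.1 hw
        obtain rfl := un w b b' b1 c1 (by linarith) (by linarith [(hb b' c1 c2).1.2])
        exact absurd c3 e.not_ge
      · rw [dist_eq_norm]
        linarith
    · have q : ∀ b ∈ D.B, K b → rb b ≤ ‖t - b‖ := fun b a e =>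
        le_of_not_gt fun k => q ⟨b, a, e, k⟩
      have fr : Far D (2 * ρ₁) t := fun b a => by
        by_cases e : K b
        · linarith [q b a e, (hb b a e).1.1]
        · rw [hK, not_and_or, not_le, not_le] at e
          have k1 := re_le b t
          have k2 := im_le hσ b t
          rw [norm_sub_rev] at k1 k2
          rcases e with e | e <;> linarith
      obtain ⟨r, ⟨a1, a2⟩, h⟩ := hL M' s s' t hP hn ht fr fun w hw => by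
        have hw := mem_ball_iff_norm.1 hw
        exact (hδ w (by linarith [re_le w t]) (by linarith [im_le hσ w t])
          ((fr.near (t' := w)).mono (by linarith))).trans dM
      have a0 : 0 < r := (r20 M').trans_le a1
      refine ⟨r, ⟨(m2 M').trans a1, by linarith⟩, M', ht, (ap_md h fun w hw => ?_).mono
        (ball_subset_ball (by linarith)) le_rfl (le_max_right _ _)⟩
      have k := U1 w ?_
      · rw [hu, hZ] at k
        exact k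
      rintro b ⟨c1, c2, c3⟩
      have hw := mem_ball_iff_norm.1 hw
      have k := norm_sub_le (w - b) (w - t)
      rw [show w - b - (w - t) = t - b by ring] at k
      linarith [q b c1 c2, (hb b c1 c2).1.1]
  refine ⟨u', Z', fun t fr => ?_, fun t hz ht => ⟨fun hr => ?_, fun hr => ?_⟩⟩
  · have k := U1 t fun b ⟨c1, c2, c3⟩ => by linarith [fr b c1, (hb b c1 c2).1.2]
    rw [hu, hZ] at k
    exact k
  · obtain ⟨r, ⟨a1, a2⟩, N, -, h⟩ := k2 M₀ hM d3 t hr ht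
    have a0 : 0 < r := (m0 M₀).trans_le a1
    refine (h.mono (ball_subset_ball (by linarith)) ?_ le_rfl).up hCm (m0 _) hr hz
    have a3 : r ^ 2 ≤ 1 := pow_le_one₀ a0.le (by linarith)
    nlinarith [κ0 N, κ1 N]
  · obtain ⟨r, ⟨a1, a2⟩, N, hN, h⟩ := k2 M le_rfl d2' t hr ht
    have a0 : 0 < r := (m0 M).trans_le a1
    refine ⟨r, ⟨a1, by linarith⟩, ?_⟩
    split_ifs with q
    · obtain ⟨C', hC'⟩ := hG 2 r a0 (by linarith)
      exact (h.mono subset_rfl (mul_le_mul_of_nonneg_right (by linarith [κ1 N]) (sq_nonneg r))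
        le_rfl).sub hC' a0 q hz
    · obtain ⟨C', hC'⟩ := hG N r a0 (by linarith)
      exact sb_mono ((h.mono subset_rfl (mul_le_mul_of_nonneg_right (by linarith [κ2 N])
        (sq_nonneg r)) le_rfl).sub hC' a0 hN hz) (mul_nonneg (half_pos (g0 N)).le (sq_nonneg r))

end Pool.Agent.MP_c69980_ag.E2.G3S
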