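import Pool.Agent.MP_c69980_ag.G3S.Base
import Pool.Agent.MP_c69980_ag.G2.Hd

/-!
Open surfaces with a nonconstant unit: the derivative of `h` is bounded by the square of the area.
-/

set_option autoImplicit false

noncomputable section

namespace Pool.Agent.MP_c69980_ag.E2.G3S

open MvPolynomial Metric Filter Topology MeasureTheory Set Real
open H60 H4 E1

namespace Hd

variable {n : ℕ}

/-- The logarithm of the square of the norm. -/
def LL (F : ℂ → V n) (t : ℂ) : ℝ := log (H4.sq (F t))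

lemma lam_nn (F : ℂ → V n) (z : ℂ) : 0 ≤ lam F z := R1.lamv_nn _ _

/-- Jensen's formula with a bound for the density near the centre. -/
lemma avg_le : ∃ K : ℝ, 0 ≤ K ∧ ∀ (n : ℕ) (F : ℂ → V n) (m s T : ℝ), Crv (ball 0 1) F → 0 ≤ m →
    mu (lam F) (ball 0 1) ≤ ENNReal.ofReal m → 0 < s → s ≤ 1 → 0 ≤ T →
    (∀ z ∈ ball (0 : ℂ) s, lam F z * s ^ 2 ≤ T) →
    circleAverage (LL F) 0 (3 / 4) ≤ LL F 0 + m * log (1 / s) + K * T := by
  let g : ℂ → ℝ := (ball (0 : ℂ) 1).indicator fun w => -log ‖w‖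
  have gi : Integrable g := (integrable_indicator_iff measurableSet_ball).2
    ((H26.li_log0.integrableOn_isCompact (isCompact_closedBall 0 1)).mono_set
      ball_subset_closedBall).neg
  have g0 : ∀ w, 0 ≤ g w := fun w => indicator_nonneg (fun w hw => neg_nonneg.2
    (log_nonpos (norm_nonneg _) (mem_ball_zero_iff.1 hw).le)) w
  refine ⟨∫ w, g w, integral_nonneg g0, fun n F m s T hF m0 hm s0 s1 T0 hT => ?_⟩
  obtain ⟨q1, q2, q3⟩ := R1.lapQ n _ F isOpen_ball hF
  have sb : closedBall (0 : ℂ) (3 / 4) ⊆ ball 0 1 := closedBall_subset_ball (by norm_num)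
  obtain ⟨r1, r2⟩ := R1.rep _ _ 0 (3 / 4) isOpen_ball q1 (by norm_num) sb
  have l0 : 0 ≤ log (1 / s) := log_nonneg ((one_le_div s0).2 s1)
  have i1 : IntegrableOn (lam F) (ball (0 : ℂ) (3 / 4)) :=
    ((q2.1.mono sb).integrableOn_compact (isCompact_closedBall _ _)).mono_set ball_subset_closedBall
  have i2 : Integrable fun z : ℂ => g (s⁻¹ • z) := gi.comp_smul (inv_ne_zero s0.ne')
  have e1 : ∫ z in ball (0 : ℂ) (3 / 4), lam F z ≤ m := by
    rw [← ENNReal.ofReal_le_ofReal_iff m0, ofReal_integral_eq_lintegral_ofReal i1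
      (Eventually.of_forall fun z => lam_nn F z)]
    exact (lintegral_mono_set (ball_subset_closedBall.trans sb)).trans hm
  have e2 : ∫ z in ball (0 : ℂ) (3 / 4), g (s⁻¹ • z) ≤ s ^ 2 * ∫ w, g w := by
    refine (setIntegral_le_integral i2 (Eventually.of_forall fun z => g0 _)).trans (le_of_eq ?_)
    rw [Measure.integral_comp_inv_smul_of_nonneg volume g s0.le, Complex.finrank_real_complex,
      smul_eq_mul]
  have e3 := setIntegral_mono_on r1 (((i1.const_mul (log (1 / s))).add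
    (i2.integrableOn.const_mul (T / s ^ 2))).const_mul 4) measurableSet_ball fun z hz => by
      have l1 := lam_nn F z
      have l2 : 0 ≤ T / s ^ 2 * g (s⁻¹ • z) := mul_nonneg (by positivity) (g0 _)
      have l3 := mul_nonneg l0 l1
      rw [q3 z (sb (ball_subset_closedBall hz)), sub_zero, Pi.add_apply]
      by_cases z0 : z = 0
      · rw [z0, norm_zero, div_zero, log_zero, zero_mul, ← z0]
        linarith
      have zp := norm_pos_iff.2 z0
      have l4 : log (3 / 4 / ‖z‖) ≤ log (1 / ‖z‖) := H84.log_div_le (by norm_num) (by norm_num)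
      have l5 := mul_le_mul_of_nonneg_right l4 l1
      by_cases zs : ‖z‖ < s
      · have n1 : ‖s⁻¹ • z‖ = ‖z‖ / s := by
          rw [norm_smul, norm_inv, Real.norm_eq_abs, abs_of_pos s0, inv_mul_eq_div]
        have l6 : log (1 / ‖z‖) = log (1 / s) + g (s⁻¹ • z) := by
          simp only [g]
          rw [indicator_of_mem (mem_ball_zero_iff.2 (by rw [n1]; exact (div_lt_one s0).2 zs)), n1,
            log_div one_ne_zero zp.ne', log_div one_ne_zero s0.ne', log_div zp.ne' s0.ne']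
          ring
        have l7 := mul_le_mul_of_nonneg_right ((le_div_iff₀ (by positivity)).2
          (hT z (mem_ball_zero_iff.2 zs))) (g0 (s⁻¹ • z))
        rw [l6] at l5
        linarith
      · have l6 : log (1 / ‖z‖) ≤ log (1 / s) :=
          log_le_log (by positivity) (one_div_le_one_div_of_le s0 (not_lt.1 zs))
        have l7 := mul_le_mul_of_nonneg_right l6 l1
        linarith
  simp only [Pi.add_apply] at e3
  rw [integral_const_mul, integral_add (i1.const_mul _) (i2.integrableOn.const_mul _),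
    integral_const_mul, integral_const_mul] at e3
  have e4 := mul_le_mul_of_nonneg_left e1 l0
  have e5 := mul_le_mul_of_nonneg_left e2 (by positivity : 0 ≤ T / s ^ 2)
  rw [← mul_assoc, div_mul_cancel₀ _ (by positivity)] at e5
  have K0 : 0 ≤ ∫ w, g w := integral_nonneg g0
  have e6 : (2 * π)⁻¹ * (4 * (log (1 / s) * m + T * ∫ w, g w)) ≤
      log (1 / s) * m + T * ∫ w, g w := by
    rw [← mul_assoc]
    refine mul_le_of_le_one_left (by positivity) ?_
    rw [inv_mul_le_iff₀ (by positivity)]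
    linarith [pi_gt_three]
  have e7 := mul_le_mul_of_nonneg_left (e3.trans (mul_le_mul_of_nonneg_left
    (add_le_add e4 e5) (by norm_num))) (by positivity : 0 ≤ (2 * π)⁻¹)
  have e8 : circleAverage (LL F) 0 (3 / 4) - LL F 0 = _ := r2
  linarith

lemma log_bd {e : ℕ} {C x : ℝ} {y : V n} (C0 : 0 < C) (y0 : y ≠ 0) (x0 : 0 < x)
    (h : x ≤ C * ‖y‖ ^ e) : log x ≤ |log C| + e / 2 * log (H4.sq y) := by
  have p := norm_pos_iff.2 y0
  have a3 := log_le_log x0 h
  rw [log_mul C0.ne' (by positivity), log_pow] at a3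
  have a4 := log_le_log (by positivity) (R1.norm_sq_le y)
  rw [log_pow] at a4
  have a6 := mul_le_mul_of_nonneg_left a4 (Nat.cast_nonneg (α := ℝ) e)
  push_cast at a6
  linarith [le_abs_self (log C)]

/-- An upper bound for the real part of `h` from the mean of the logarithm of the norm. -/
lemma re_le {P₀ P₁ : PR n} {e : ℕ} {η : ℝ} (q0 : P₀.IsHomogeneous e) (q1 : P₁.IsHomogeneous e)
    (η0 : 0 < η) : ∃ C : ℝ, 0 < C ∧ ∀ (F : ℂ → V n) (h : ℂ → ℂ) (M : ℝ), 1 ≤ M →
    Crv (ball 0 1) F → Hol 1 h →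
    (∀ z ∈ ball (0 : ℂ) 1, Complex.exp (h z) * eval (F z) P₁ = eval (F z) P₀) →
    η * ‖F 0‖ ^ e ≤ ‖eval (F 0) P₁‖ → circleAverage (LL F) 0 (3 / 4) ≤ LL F 0 + M →
    ∀ w ∈ ball (0 : ℂ) (1 / 2), (h w).re ≤ C * M := by
  obtain ⟨C, C0, hC⟩ := R1.hom_bd q0
  obtain ⟨C', C0', hC'⟩ := R1.hom_bd q1
  refine ⟨5 * (|log C| + |log C'| + |log η| + e / 2 * (1 + |log n|)) + 1, by positivity,
    fun F h M M1 H hh he hη hM w hw => ?_⟩
  have hw' := mem_ball_zero_iff.1 hw
  have w1 : ‖w‖ < 3 / 4 := by linarith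
  have hf : Hol 1 fun z => Complex.exp (h z) := hh.cexp
  have hg : Hol 1 fun z => eval (F z) P₁ := eval_diff H.1 P₁
  have F0 := H.2 0 (mem_ball_self one_pos)
  have p0 := norm_pos_iff.2 F0
  have p1 : 0 < η * ‖F 0‖ ^ e := by positivity
  have g0 := norm_pos_iff.1 (p1.trans_le hη)
  have e1 := H84.log_le_pk hf (ρ := 3 / 4) (by norm_num) w1 (Complex.exp_ne_zero _)
  have iL : CircleIntegrable (LL F) 0 (3 / 4) :=
    ((H84.logsq_cont H).mono (sph_sub (by norm_num) (by norm_num))).circleIntegrable'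
  have i0 := circleIntegrable_const (5 * (|log C| + |log C'|)) (0 : ℂ) (3 / 4)
  have i1 : CircleIntegrable (fun z => 5 * e / 2 * LL F z) 0 (3 / 4) :=
    iL.const_smul (a := (5 * e / 2 : ℝ))
  have i2 : CircleIntegrable (fun z => -5 * log ‖eval (F z) P₁‖) 0 (3 / 4) :=
    (hg.int (by norm_num) (by norm_num)).const_smul (a := (-5 : ℝ))
  have e2 := avg_mono_off (zeros_fin hg ⟨0, mem_ball_self one_pos, g0⟩ (ρ := 3 / 4) (by norm_num))
    (by norm_num) (pk_int w1 (hf.int (by norm_num) (by norm_num))) ((i0.add i1).add i2)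
    fun z hz hZ => by
      have zb : z ∈ ball (0 : ℂ) 1 := mem_ball_zero_iff.2 (by rw [hz]; norm_num)
      have z0 : 0 < ‖eval (F z) P₁‖ := norm_pos_iff.2 fun q => hZ ⟨hz.le, q⟩
      have z1 : 0 < ‖Complex.exp (h z)‖ := norm_pos_iff.2 (Complex.exp_ne_zero _)
      have a2 := hC (F z)
      rw [← he z zb, norm_mul] at a2
      have a3 : _ ≤ _ + _ * LL F z := log_bd C0 (H.2 z zb) (mul_pos z1 z0) a2
      have a4 : _ ≤ _ + _ * LL F z := log_bd C0' (H.2 z zb) z0 (hC' (F z))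
      rw [log_mul z1.ne' z0.ne'] at a3
      have a8 := abs_nonneg (log C)
      have a9 := abs_nonneg (log C')
      have k0 : 0 ≤ pk w z := le_trans (div_nonneg (by linarith) (by positivity)) (le_pk w1 hz)
      have k1 : pk w z ≤ 5 := (pk_le w1 hz).trans (by rw [div_le_iff₀ (by linarith)]; linarith)
      have k2 : pk w z * log ‖Complex.exp (h z)‖ ≤
          5 * (|log C| + |log C'| + e / 2 * LL F z - log ‖eval (F z) P₁‖) :=
        (mul_le_mul_of_nonneg_left (by linarith) k0).trans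
          (mul_le_mul_of_nonneg_right k1 (by linarith))
      rw [Pi.add_apply, Pi.add_apply]
      linarith
  rw [circleAverage_add (i0.add i1) i2, circleAverage_add i0 i1, circleAverage_const,
    H84.avg_mul, H84.avg_mul] at e2
  rw [Complex.norm_exp, log_exp] at e1
  have e3 : log ‖eval (F 0) P₁‖ ≤ circleAverage (fun z => log ‖eval (F z) P₁‖) 0 (3 / 4) :=
    le_av hg (by norm_num) (by norm_num) g0
  have e4 := log_le_log p1 hη
  rw [log_mul η0.ne' (by positivity), log_pow] at e4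
  have e5 : LL F 0 ≤ log n + 2 * log ‖F 0‖ := by
    have s0 := R1.sq_pos' F0
    have s1 := H84.sq_le_norm (F 0)
    have s2 := log_le_log s0 s1
    rw [log_mul (left_ne_zero_of_mul (s0.trans_le s1).ne') (by positivity), log_pow] at s2
    exact_mod_cast s2
  have b0 : (0 : ℝ) ≤ e := Nat.cast_nonneg _
  have a1 := mul_le_mul_of_nonneg_left (hM.trans (add_le_add e5 le_rfl)) b0
  have a2 := le_mul_of_one_le_right (abs_nonneg (log C)) M1
  have a3 := le_mul_of_one_le_right (abs_nonneg (log C')) M1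
  have a4 := le_mul_of_one_le_right (abs_nonneg (log η)) M1
  have a5 := mul_le_mul_of_nonneg_left ((le_abs_self (log n)).trans
    (le_mul_of_one_le_right (abs_nonneg (log n)) M1)) b0
  linarith [neg_le_abs (log η)]

lemma hd_one (h1 : HypStmt) (D : Fib n) {P₀ P₁ : PR n} {e : ℕ} {η : ℝ} (A : ℝ)
    (hU : UQ D.X P₀ P₁ e) (η0 : 0 < η) : ∃ C : ℝ, 0 < C ∧ ∀ (F : ℂ → V n) (h : ℂ → ℂ) (m : ℝ),
    1 ≤ m → Nm D.Xo (ball 0 1) F h → Mid D P₁ e η A (h 0) (F 0) →
    mu (lam F) (ball 0 1) ≤ ENNReal.ofReal m →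
    ∀ z ∈ ball (0 : ℂ) (1 / 8), ‖deriv h z‖ ≤ C * m ^ 2 := by
  obtain ⟨T, T0, hT⟩ := h1 n D (η / 2) (A + η) (half_pos η0)
  obtain ⟨K, K0, hK⟩ := avg_le
  obtain ⟨C, C0, hC⟩ := re_le hU.1 hU.2.1 η0
  obtain ⟨κ, κ0, κ1, κ2⟩ : ∃ κ : ℝ, 0 < κ ∧ κ ≤ 1 / 8 ∧ κ ≤ η / 2 :=
    ⟨min (1 / 8) (η / 2), by positivity, min_le_left _ _, min_le_right _ _⟩
  obtain ⟨E, E1, hE⟩ : ∃ E : ℝ, 1 ≤ E ∧ log (2 / κ) ≤ E - K * T :=
    ⟨1 + |log (2 / κ)| + K * T, by
      have := mul_nonneg K0 T0.le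
      linarith [abs_nonneg (log (2 / κ))], by linarith [le_abs_self (log (2 / κ))]⟩
  refine ⟨(1 + 16 * (C * (E + 2) + |A|)) ^ 2, by positivity, fun F h m m1 H hd hm z hz => ?_⟩
  obtain ⟨hf, h0, hη⟩ := hd
  have sb : closedBall (0 : ℂ) (1 / 8) ⊆ ball 0 1 := closedBall_subset_ball (by norm_num)
  obtain ⟨z₀, z0, hz0⟩ := (isCompact_closedBall (0 : ℂ) (1 / 8)).exists_isMaxOn
    (nonempty_closedBall.2 (by norm_num))
    ((H.2.1.deriv isOpen_ball).continuousOn.mono sb).norm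
  obtain ⟨t, t1, ht⟩ : ∃ t : ℝ, 1 ≤ t ∧ t ^ 2 = 1 + ‖deriv h z₀‖ :=
    ⟨√(1 + ‖deriv h z₀‖), one_le_sqrt.2 (by linarith [norm_nonneg (deriv h z₀)]),
      sq_sqrt (by positivity)⟩
  have t2 : 1 ≤ t ^ 2 := one_le_pow₀ t1
  have r0 : 0 < κ / t ^ 2 := by positivity
  have r1 : κ / t ^ 2 ≤ 1 / 8 := (div_le_self κ0.le t2).trans κ1
  have s1 : ball (0 : ℂ) (κ / t ^ 2) ⊆ closedBall 0 (1 / 8) :=
    ball_subset_closedBall.trans (closedBall_subset_closedBall r1)
  have far : ∀ w ∈ ball (0 : ℂ) (κ / t ^ 2), Far D (η / 2) (h w) ∧ |(h w).re| ≤ A + η :=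
    fun w hw => by
      have a1 := G2.Hd.osc (y := t ^ 2) (H.2.1.mono (s1.trans sb)) (fun v hv =>
        (hz0 (s1 hv)).trans (by linarith)) w hw
      rw [mul_div_cancel₀ _ (by positivity)] at a1
      have a2 := Complex.abs_re_le_norm (h w - h 0)
      rw [Complex.sub_re] at a2
      exact ⟨(hf.near (t' := h w)).mono (by linarith),
        by linarith [abs_sub_abs_le_abs_sub (h w).re (h 0).re]⟩
  have av := hK n F m (κ / t ^ 2 / 2) T H.1 (by linarith) hm (half_pos r0) (by linarith) T0.le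
    fun w hw => by
      have s2 : ball w (κ / t ^ 2 / 2) ⊆ ball 0 (κ / t ^ 2) :=
        ball_subset_ball' (by linarith [mem_ball.1 hw])
      exact hT F h w _ (half_pos r0) (H.mono (s2.trans (s1.trans sb))) fun v hv => far v (s2 hv)
  have l1 : log (1 / (κ / t ^ 2 / 2)) ≤ log (2 / κ) + 2 * t := by
    rw [show 1 / (κ / t ^ 2 / 2) = 2 / κ * t ^ 2 by field_simp,
      log_mul (by positivity) (by positivity), log_pow]
    have := log_le_sub_one_of_pos (one_pos.trans_le t1)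
    push_cast
    linarith
  have mt : 1 ≤ m * t := one_le_mul_of_one_le_of_one_le m1 t1
  have mm : m ≤ m * t := le_mul_of_one_le_right (by linarith) t1
  have l3 : circleAverage (LL F) 0 (3 / 4) ≤ LL F 0 + (E + 2) * (m * t) := by
    have a1 := mul_le_mul_of_nonneg_left (l1.trans (add_le_add hE le_rfl)) (by linarith : 0 ≤ m)
    have a2 := le_mul_of_one_le_left (mul_nonneg K0 T0.le) m1
    have a4 := mul_le_mul_of_nonneg_left mm (by linarith : 0 ≤ E)
    linarith
  have l4 := hC F h _ (one_le_mul_of_one_le_of_one_le (by linarith) mt) H.1 H.2.1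
    (fun v hv => hU.2.2.2.2 _ (H.2.2 v hv).1) hη l3
  have l5 := G2.Hd.der_le (M := (C * (E + 2) + |A|) * (m * t)) (by positivity)
    (H.2.1.mono (ball_subset_ball (by norm_num))) (fun w hw => by
      have a1 := le_mul_of_one_le_right (abs_nonneg A) mt
      rw [Complex.sub_re]
      linarith [l4 w hw, neg_le_abs (h 0).re, le_abs_self A]) z₀ z0
  have l6 : t ≤ (1 + 16 * (C * (E + 2) + |A|)) * m :=
    le_of_mul_le_mul_right (by linarith) (one_pos.trans_le t1)
  have l7 := pow_le_pow_left₀ (by linarith) l6 2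
  have l8 : ‖deriv h z‖ ≤ ‖deriv h z₀‖ := hz0 (ball_subset_closedBall hz)
  rw [mul_pow] at l7
  linarith

end Hd

theorem hd (h1 : HypStmt) : HdStmt := fun n D P₀ P₁ e η A hU η0 => by
  obtain ⟨C, C0, hC⟩ := Hd.hd_one h1 D A hU η0
  refine ⟨C, C0, fun F h c ρ m ρ0 m1 H hd hm z hz => ?_⟩
  have s2 := (H84.scale R1.scale (F := F) (c := c) ρ0 1).2
  rw [mul_one] at s2
  have mp : ∀ w ∈ ball (0 : ℂ) 1, c + ρ * w ∈ ball c ρ := fun w hw => by rwa [← s2] at hw
  obtain ⟨u1, u2⟩ := H84.unscale (s := 1 / 8) ρ0 (show z ∈ ball c (ρ * (1 / 8)) by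
    rwa [mul_one_div])
  have := hC (fun w => F (c + ρ * w)) (fun w => h (c + ρ * w)) m m1
    ⟨⟨H.1.1.comp (by fun_prop) mp, fun w hw => H.1.2 _ (mp w hw)⟩, H.2.1.comp (by fun_prop) mp,
      fun w hw => H.2.2 _ (mp w hw)⟩ (by simpa using hd)
    (by rw [← s2, (R1.scale n F c ρ ρ0).2.1]; exact hm) _ u1
  rwa [deriv_comp_mul_left (f := fun w => h (c + w)), deriv_comp_const_add, u2, norm_smul,
    Complex.norm_real, Real.norm_eq_abs, abs_of_pos ρ0, mul_comm] at this

end Pool.Agent.MP_c69980_ag.E2.G3S
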