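import Pool.Agent.MP_c69980_ag.G3S.Base

/-!
Open surfaces with a nonconstant unit: the holomorphic model passes to the limit.
-/

set_option autoImplicit false

noncomputable section

namespace Pool.Agent.MP_c69980_ag.E2.G3S

open MvPolynomial Metric Filter Topology MeasureTheory Set Real
open H60 H4 E1

namespace Lim0X

variable {n : ℕ} {D : Fib n} {Q : PR 3} {d : ℕ} {a j : Fin n} {O : Set (ℂ × ℂ)}
  {Y : ℂ × ℂ → V n} {t z : ℂ} {y y' w : V n}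

/-- The exponential of `uu`, without the part that comes from the base. -/
def PP (D : Fib n) (Q : PR 3) (d : ℕ) (t : ℂ) (y y' : V n) : ℝ :=
  (d2 y y' / lamv y (tv D.X (t, y))) ^ (3 * (D.m * d)) * ‖Uq D Q t y‖ ^ 6

lemma pp_zp (hd : 0 < d) (hx : (t, y) ∈ Rx D.X) (hU : y ∈ Cone D.U) (y1 : y' ≠ 0)
    (ht : t ∉ D.L.lattice) : (Zp D Q t y y' ↔ PP D Q d t y y' ≠ 0) ∧ (Zp D Q t y y' →
      uu D Q d t y y' = log (PP D Q d t y y') + log (H4.sq ![D.L.wp t, D.L.wq t, 1])) := by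
  have p := LocX.lamv_pos (Rx.vt D.cn hx).1
  have y0 : y ≠ 0 := D.cn.nz _ (Rx.mem D.cn hx)
  have m0 : D.m * d ≠ 0 := (Nat.mul_pos D.frm.m0 hd).ne'
  have m1 : 3 * (D.m * d) ≠ 0 := by omega
  have e : Zp D Q t y y' ↔ d2 y y' ≠ 0 ∧ Uq D Q t y ≠ 0 := by
    simp only [Zp, ht, hU, ne_eq, d2_eq_zero y0 y1, not_false_eq_true, true_and]
  refine ⟨?_, fun h => ?_⟩
  · rw [e, PP, mul_ne_zero_iff, pow_ne_zero_iff m1, pow_ne_zero_iff (by norm_num),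
      norm_ne_zero_iff, div_ne_zero_iff, and_iff_left p.ne']
  obtain ⟨h1, h2⟩ := e.1 h
  rw [uu, bt, PP, log_mul (pow_ne_zero _ (div_ne_zero h1 p.ne'))
    (pow_ne_zero _ (norm_ne_zero_iff.2 h2)), log_pow, log_pow, log_div h1 p.ne']
  push_cast
  ring

lemma alg {k : ℝ} (hk : k ≠ 0) (A B q : ℝ) (N : ℕ) :
    (A / (k ^ 2 * B)) ^ (3 * N) * (k ^ N * q) ^ 6 = (A / B) ^ (3 * N) * q ^ 6 := by
  have e : (k ^ 2) ^ (3 * N) = (k ^ N) ^ 6 := by ring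
  have h := pow_ne_zero 6 (pow_ne_zero N hk)
  rw [mul_comm (k ^ 2), ← div_div, div_pow (A / B), e, mul_pow, ← mul_assoc,
    div_mul_cancel₀ _ h]

lemma pp_chart (h : Chart D.X a j O Y) (hQ : Q.IsHomogeneous d) (hz : (t, z) ∈ O)
    (hU : Y (t, z) ∈ Cone D.U) (hw : Pp w (Y (t, z))) (w' : V n) : PP D Q d t w w' =
      (d2 w w' / lamv (Y (t, z)) (dz Y (t, z))) ^ (3 * (D.m * d)) *
        ‖qq D.Φ Q Y (t, z)‖ ^ 6 := by
  obtain ⟨κ, k0, k1, -, k2⟩ := ph_chart0 h hz hU hw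
  rw [PP, k1, k2 Q d hQ, norm_mul, norm_pow, alg (norm_ne_zero_iff.2 k0)]

/-- Continuity at the regular points of the open part. -/
lemma pp_lim {β : Type} {l : Filter β} {τ : β → ℂ} {x x' v v' : β → V n}
    (hQ : Q.IsHomogeneous d) (hx : (t, y) ∈ Rx D.X) (hU : y ∈ Cone D.U) (y1 : y' ≠ 0)
    (hτ : Tendsto τ l (𝓝 t)) (h1 : Tendsto x l (𝓝 y)) (h2 : Tendsto x' l (𝓝 y'))
    (h3 : ∀ᶠ k in l, (τ k, v k) ∈ D.X ∧ Pp (v k) (x k) ∧ Pp (v' k) (x' k)) :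
    Tendsto (fun k => PP D Q d (τ k) (v k) (v' k)) l (𝓝 (PP D Q d t y y')) ∧
      ∀ᶠ k in l, v k ∈ Cone D.U := by
  obtain ⟨a, j, O, Y, c, z, z1, z2⟩ := hx
  have hU' := cone_pp hU z2.symm
  have y0 : y ≠ 0 := z2.ne (c.ne z1)
  have c0 : Tendsto (fun k => ((τ k, x k) : Pt n)) l (𝓝 (t, y)) := hτ.prodMk_nhds h1
  have c1 : Tendsto (fun k => ((τ k, x k a / x k j) : ℂ × ℂ)) l (𝓝 (t, z)) :=
    (c.tend z1 z2).comp c0
  have c3 : Tendsto (fun p => lamv (Y p) (dz Y p)) (𝓝 (t, z))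
      (𝓝 (lamv (Y (t, z)) (dz Y (t, z)))) :=
    Tendsto.comp (g := fun q : V n × V n => lamv q.1 q.2) (f := fun p => (Y p, dz Y p))
      (lamv_cont (c.ne z1) _)
      ((c.an z1).continuousAt.tendsto.prodMk_nhds (dz_an (c.an z1)).continuousAt)
  have c4 := (D.frm.qq_an c z1 hU' Q).continuousAt.tendsto.comp c1
  have c5 := (((d2_lim h1 h2 y0 y1).div (c3.comp c1) (LocX.lamv_pos (c.wg_ne z1)).ne').pow
    (3 * (D.m * d))).mul (c4.norm.pow 6)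
  have key : ∀ᶠ k in l, v k ∈ Cone D.U ∧ PP D Q d (τ k) (v k) (v' k) =
      (d2 (x k) (x' k) / lamv (Y (τ k, x k a / x k j)) (dz Y (τ k, x k a / x k j))) ^
        (3 * (D.m * d)) * ‖qq D.Φ Q Y (τ k, x k a / x k j)‖ ^ 6 := by
    filter_upwards [c0.eventually (c.ev D.cn z1 z2), c1.eventually (D.ev_chart c z1 hU'), h3]
      with k k1 k2 k3
    obtain ⟨m1, m2, m3⟩ := k1 (D.cn.pp k3.1 k3.2.1.symm)
    have pp : Pp (v k) (Y (τ k, x k a / x k j)) := k3.2.1.trans ⟨_, m1, m3⟩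
    exact ⟨cone_pp k2.2 pp, by rw [pp_chart c hQ m2 k2.2 pp, k3.2.1.d2 k3.2.2]⟩
  rw [pp_chart c hQ z1 hU' z2]
  exact ⟨c5.congr' (key.mono fun k q => q.2.symm), key.mono fun k q => q.1⟩

/-- Limits of products with bounded exponentials. -/
lemma exp_lim (u : Ultrafilter ℕ) {P A e ε : ℕ → ℝ} {P₀ A₀ ε₀ : ℝ} (hP : Tendsto P u (𝓝 P₀))
    (hA : Tendsto A u (𝓝 A₀)) (hε : Tendsto ε u (𝓝 ε₀))
    (h : ∀ᶠ k in u, |e k| ≤ ε k ∧ P k = A k * exp (e k)) :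
    ∃ e₀, |e₀| ≤ ε₀ ∧ P₀ = A₀ * exp e₀ := by
  have hb : ∀ᶠ k in u, e k ∈ closedBall (0 : ℝ) (ε₀ + 1) := by
    filter_upwards [h, hε.eventually (gt_mem_nhds (lt_add_one ε₀))] with k k1 k2
    exact mem_closedBall_zero_iff.2 (k1.1.trans k2.le)
  obtain ⟨e₀, -, he⟩ := (isCompact_closedBall (0 : ℝ) (ε₀ + 1)).ultrafilter_le_nhds (u.map e)
    (le_principal_iff.2 hb)
  have he' : Tendsto e u (𝓝 e₀) := he
  exact ⟨e₀, le_of_tendsto_of_tendsto he'.abs hε (h.mono fun k q => q.1),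
    tendsto_nhds_unique hP ((hA.mul he'.rexp).congr' (h.mono fun k q => q.2.symm))⟩

/-- Montel on discs with convergent radii. -/
lemma mont (u : Ultrafilter ℕ) {G : ℕ → ℂ → ℂ} {b : ℂ} {r : ℕ → ℝ} {ρ C : ℝ}
    (hr : Tendsto r u (𝓝 ρ)) (h : ∀ᶠ k in u, DifferentiableOn ℂ (G k) (ball b (r k)) ∧
      ∀ t ∈ ball b (r k), ‖G k t‖ ≤ C) : ∃ H : ℂ → ℂ, DifferentiableOn ℂ H (ball b ρ) ∧
      ∀ t ∈ ball b ρ, Tendsto (fun k => G k t) u (𝓝 (H t)) := by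
  have ex : ∀ t ∈ ball b ρ, ∃ x, Tendsto (fun k => G k t) u (𝓝 x) := fun t ht => by
    obtain ⟨x, -, hx⟩ := ulim u (isCompact_closedBall 0 C) (f := fun k => G k t) (by
      filter_upwards [h, hr.eventually (lt_mem_nhds (mem_ball.1 ht))] with k k1 k2
      exact mem_closedBall_zero_iff.2 (k1.2 t k2))
    exact ⟨x, hx⟩
  choose! H hH using ex
  refine ⟨H, fun t ht => ?_, hH⟩
  obtain ⟨ρ', a1, a2⟩ := exists_between (mem_ball.1 ht)
  have ev : ∀ᶠ k in u, DifferentiableOn ℂ (G k) (ball b ρ') ∧ ∀ t ∈ ball b ρ', ‖G k t‖ ≤ C := by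
    filter_upwards [h, hr.eventually (lt_mem_nhds a2)] with k k1 k2
    exact ⟨k1.1.mono (ball_subset_ball k2.le), fun w hw => k1.2 w (ball_subset_ball k2.le hw)⟩
  exact (((H18.locu isOpen_ball ev fun w hw => hH w (ball_subset_ball a2.le hw)).differentiableOn
    (ev.mono fun k q => q.1) isOpen_ball).differentiableAt
      (isOpen_ball.mem_nhds a1)).differentiableWithinAt

end Lim0X

open Lim0X in
theorem lim0 : Lim0Stmt := by
  intro n D Q d u b R ρ κ C r s s' g g' ⟨d0, hQ, _⟩ ρ0 hR hr hB hev hg hg' cg cg'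
  obtain ⟨G, hG⟩ := (hev.mono fun k q => q.2.2).choice
  obtain ⟨E, hE⟩ := hG.choice
  obtain ⟨H, H1, H2⟩ := mont u (hr.const_mul 3) (hE.mono fun k q => ⟨q.1, fun t ht =>
    (q.2.2 t ht).1⟩)
  have inb : ∀ t ∈ ball b (3 * ρ), ∀ᶠ k in u, t ∈ ball b (3 * r k) := fun t ht =>
    (hr.const_mul 3).eventually (lt_mem_nhds (mem_ball.1 ht))
  have ann : ∀ t ∈ ball b (3 * ρ), ρ / 2 < ‖t - b‖ → t ∈ ball b R \ {b} ∧ t ∉ D.B :=
    fun t ht h => by
    have a1 : t ≠ b := fun e => by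
      rw [e, sub_self, norm_zero] at h
      linarith
    exact ⟨⟨ball_subset_ball hR ht, a1⟩, fun q => a1 (hB t (ball_subset_ball hR ht) q)⟩
  have o : IsOpen (ball b R \ {b}) := isOpen_ball.sdiff isClosed_singleton
  have g1 := sc_op.1 hg
  have key : ∀ t ∈ ball b (3 * ρ), ρ / 2 < ‖t - b‖ →
      ∃ e, |e| ≤ κ * ρ ^ 2 ∧ PP D Q d t (g t) (g' t) = ‖H t‖ ^ 6 * exp e := fun t ht h => by
    obtain ⟨a1, a2⟩ := ann t ht h
    have a3 : t ∉ D.L.lattice := fun q => a2 (lat_sub D q)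
    obtain ⟨x, x1, x2⟩ := cg.pt a1 (tendsto_const_nhds (x := t))
    obtain ⟨x', x1', x2'⟩ := cg'.pt a1 (tendsto_const_nhds (x := t))
    obtain ⟨l1, l2⟩ := pp_lim (v := fun k => s k t) (v' := fun k => s' k t) hQ
      (D.bad _ (g1.1.2 t a1) a2) (g1.2 t a1) (hg'.1.ne a1) tendsto_const_nhds x1 x1' (by
        filter_upwards [hev, x2, x2'] with k k1 k2 k3 using ⟨k1.1.2 t a1.1, k2, k3⟩)
    refine exp_lim u (e := fun k => E k t) l1 ((H2 t ht).norm.pow 6) ((hr.pow 2).const_mul κ) ?_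
    filter_upwards [hev, hE, l2, inb t ht, (hr.div_const 2).eventually (gt_mem_nhds h)]
      with k k1 k2 k3 k4 k5
    obtain ⟨e1, e2, e3⟩ := (k2.2.2 t k4).2.2 k5.le
    obtain ⟨p1, p2⟩ := pp_zp (Q := Q) d0 (D.bad _ (k1.1.2 t a1.1) a2) k3 (k1.2.1.1.ne a1.1) a3
    refine ⟨e1, ?_⟩
    by_cases hz : Zp D Q t (s k t) (s' k t)
    · have e4 := (p2 hz).symm.trans (e3 hz)
      have n1 := norm_pos_iff.2 (e2.1 hz).2
      have n2 : 0 ≤ PP D Q d t (s k t) (s' k t) := mul_nonneg (pow_nonneg (div_nonneg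
        (H84.d2_nonneg (k1.1.1.ne a1.1) (k1.2.1.1.ne a1.1)) (LocX.lamv_pos
          (Rx.vt D.cn (D.bad _ (k1.1.2 t a1.1) a2)).1).le) _) (by positivity)
      rw [← exp_log (n2.lt_of_ne (p1.1 hz).symm), ← exp_log (pow_pos n1 6), ← exp_add, log_pow]
      rw [bt] at e4
      push_cast
      exact congrArg exp (by linarith)
    · rw [not_not.1 (p1.not.1 hz), not_not.1 fun q => hz (e2.2 ⟨a3, q⟩), norm_zero]
      simp
  have mA : MeasurableSet (ball b (3 * ρ) \ closedBall b (ρ / 2)) :=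
    measurableSet_ball.diff measurableSet_closedBall
  have cP : ContinuousOn (fun t => PP D Q d t (g t) (g' t))
      (ball b (3 * ρ) \ closedBall b (ρ / 2)) := fun t ht => by
    obtain ⟨a1, a2⟩ := ann t ht.1 (by simpa [dist_eq_norm] using ht.2)
    obtain ⟨f, f1, f2, f3⟩ := lh_iff.1 g1.1.1 t a1
    obtain ⟨f', f1', f2', f3'⟩ := lh_iff.1 hg'.1 t a1
    obtain ⟨c, c0, hc⟩ := f3.self_of_nhds
    obtain ⟨c', c0', hc'⟩ := f3'.self_of_nhds
    refine ContinuousAt.continuousWithinAt (pp_lim (τ := id) (x := fun w => c • f w)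
      (x' := fun w => c' • f' w) (v := g) (v' := g') hQ (D.bad _ (g1.1.2 t a1) a2) (g1.2 t a1)
      (hg'.1.ne a1) tendsto_id (hc ▸ f1.continuousAt.tendsto.const_smul c)
      (hc' ▸ f1'.continuousAt.tendsto.const_smul c') ?_).1
    filter_upwards [f3, f3', o.mem_nhds a1] with w w1 w2 w3
    exact ⟨g1.1.2 w w3, w1.trans (Pp.smul c0 _).symm, w2.trans (Pp.smul c0' _).symm⟩
  refine ⟨H, fun t => log (PP D Q d t (g t) (g' t)) - 6 * log ‖H t‖, H1,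
    ((cP.aemeasurable mA).log.sub (((H1.continuousOn.mono sdiff_subset).norm.aemeasurable
      mA).log.const_mul 6)).aestronglyMeasurable, fun t ht => ⟨?_, fun hl => ?_, fun h => ?_⟩⟩
  · refine le_of_tendsto (H2 t ht).norm ?_
    filter_upwards [hE, inb t ht] with k k1 k2 using (k1.2.2 t k2).1
  · refine tendsto_nhds_unique (H2 t ht) (tendsto_const_nhds.congr' ?_)
    filter_upwards [hE, inb t ht] with k k1 k2 using ((k1.2.2 t k2).2.1 hl).symm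
  obtain ⟨a1, a2⟩ := ann t ht h
  have a3 : t ∉ D.L.lattice := fun q => a2 (lat_sub D q)
  obtain ⟨e, e1, e2⟩ := key t ht h
  obtain ⟨p1, p2⟩ := pp_zp (Q := Q) d0 (D.bad _ (g1.1.2 t a1) a2) (g1.2 t a1) (hg'.1.ne a1) a3
  refine ⟨?_, by simp [p1, e2, a3], fun hz => ?_⟩
  · show |log (PP D Q d t (g t) (g' t)) - 6 * log ‖H t‖| ≤ _
    rw [e2]
    by_cases h0 : H t = 0
    · simpa [h0] using (abs_nonneg e).trans e1
    · rw [log_mul (pow_ne_zero _ (norm_ne_zero_iff.2 h0)) (exp_ne_zero e), log_pow, log_exp]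
      push_cast
      rwa [add_sub_cancel_left]
  · rw [p2 hz, bt]
    ring

end Pool.Agent.MP_c69980_ag.E2.G3S
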