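import Pool.Agent.MP_c69980_ag.G3S.Base

/-!
The model at a bad value, for pairs of limit sections.
-/

set_option autoImplicit false

noncomputable section

namespace Pool.Agent.MP_c69980_ag.E2.G3S

open MvPolynomial Metric Filter Topology Set
open H60 H4 E1

namespace LocLX

variable {n : ℕ} {D : Fib n} {b t : ℂ} {ρ₀ ε R : ℝ} {g : ℂ → V n}

lemma far_loc (h : ∀ t ∈ D.B, t ≠ b → 8 * ρ₀ ≤ ‖t - b‖) (ht : t ∈ ball b (4 * ρ₀))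
    (hε : ε ≤ ‖t - b‖) : Far D ε t := fun b' hb' => by
  by_cases e : b' = b
  · exact e ▸ hε
  have h1 := h b' hb' e
  have h2 := mem_ball_iff_norm.1 ht
  have h3 := norm_sub_le (t - b) (t - b')
  rw [show t - b - (t - b') = b' - b by ring] at h3
  linarith

lemma appr (h : ∀ t ∈ D.B, t ≠ b → 8 * ρ₀ ≤ ‖t - b‖) (hg : Adm D g) (ε0 : 0 < ε) :
    ∃ s, Sc D.Xo (ball b (4 * ρ₀)) s ∧
      ∀ t ∈ ball b (4 * ρ₀), ε ≤ ‖t - b‖ → d2 (s t) (g t) ≤ ε := by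
  obtain ⟨s, s1, s2⟩ := hg.2 (‖b‖ + 4 * ρ₀) ε ε0
  have m : ball b (4 * ρ₀) ⊆ ball 0 (‖b‖ + 4 * ρ₀) :=
    ball_subset_ball' (by rw [dist_zero_right]; linarith)
  exact ⟨s, s1.mono m, fun t ht q => s2 t (m ht) (far_loc h ht q)⟩

lemma cvg {u : Filter ℕ} {e : ℕ → ℝ} {s : ℕ → ℂ → V n} (he : Tendsto e u (𝓝 0)) (hg : LH univ g)
    (hs : ∀ k, LH (ball b R) (s k))
    (h : ∀ k, ∀ t ∈ ball b R, e k ≤ ‖t - b‖ → d2 (s k t) (g t) ≤ e k) :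
    Cv u (ball b R \ {b}) s g := by
  refine cv_of_d2 (hg.mono (subset_univ _)) fun t ht => ?_
  have p : 0 < ‖t - b‖ / 2 := half_pos (norm_pos_iff.2 (sub_ne_zero.2 ht.2))
  obtain ⟨r, r0, hr⟩ := Metric.isOpen_iff.1 isOpen_ball t ht.1
  have m : ball t (min r (‖t - b‖ / 2)) ⊆ ball b R := (ball_subset_ball (min_le_left _ _)).trans hr
  refine ⟨_, lt_min r0 p, .of_forall fun k => (hs k).mono m, fun η η0 => ?_⟩
  filter_upwards [he.eventually (ge_mem_nhds η0), he.eventually (ge_mem_nhds p)] with k k1 k2 w hw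
  refine (h k w (m hw) ?_).trans k1
  have h1 := (mem_ball_iff_norm.1 hw).trans_le (min_le_right _ _)
  have h2 := norm_sub_le (w - b) (w - t)
  rw [show w - b - (w - t) = t - b by ring] at h2
  linarith

lemma aw_near {η : ℝ} {y w : V n} (h : Aw D η t y) (y0 : y ≠ 0) (w0 : w ≠ 0)
    (hd : d2 w y ≤ ε) (hε : ε ≤ η / 4) : Aw D (η / 4) t w := fun y' a b => by
  have h1 := h y' a b
  have h2 := H84.d2_tri y0 w0 (D.cn.nz _ a)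
  rw [d2_symm y w] at h2
  linarith

lemma two (ρ0 : 0 < ρ₀) (b : ℂ) : ‖b + 2 * ρ₀ - b‖ = 2 * ρ₀ := by
  rw [add_sub_cancel_left, norm_mul, Complex.norm_real, Real.norm_of_nonneg ρ0.le]
  simp

lemma eta (D : Fib n) (ρ0 : 0 < ρ₀) (h : ∀ b ∈ D.B, ∀ t ∈ D.B, t ≠ b → 8 * ρ₀ ≤ ‖t - b‖) :
    ∃ η : ℝ, 0 < η ∧ (BdP D → ∀ g, Adm D g → ¬InB D g → ∀ b ∈ D.B,
      Aw D η (b + 2 * ρ₀) (g (b + 2 * ρ₀))) := by
  by_cases q : BdP D
  swap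
  · exact ⟨1, one_pos, fun q' => absurd q' q⟩
  obtain ⟨M, -, hM⟩ := b_strip D
  obtain ⟨η, η0, hη⟩ := q (2 * ρ₀) (M + 2 * ρ₀) (by positivity)
  refine ⟨η, η0, fun _ g hg hI b hb => hη g hg hI _ ?_ (far_loc (h b hb)
    (mem_ball_iff_norm.2 (by rw [two ρ0]; linarith)) (two ρ0 b).ge)⟩
  have e : (b + 2 * ρ₀).re = b.re + 2 * ρ₀ := by simp
  rw [e]
  exact (abs_add_le _ _).trans (add_le_add (hM b hb) (abs_of_pos (by positivity)).le)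

end LocLX

open LocLX in
theorem locL (h1 : LocBStmt) (h2 : Lim0Stmt) (h3 : AdmStmt) (_h4 : LatStmt) : LocLStmt := by
  intro n D Q d κ ρ₀ hQ κ0 ρ0 h8
  obtain ⟨η, η0, hη⟩ := eta D ρ0 h8
  obtain ⟨δ, ρ₁, C, δ0, ρ1, hB⟩ := h1 n D Q d (η / 4) κ ρ₀ hQ (by positivity) κ0 ρ0
    fun b hb t ht e => le_trans (by linarith) (h8 b hb t ht e)
  refine ⟨δ / 8, ρ₁, C, by positivity, ρ1, fun b hb g g' hP hI hc => ?_⟩
  have hg := hP.1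
  have hg' : Sc D.X univ g' := hP.2.elim (fun q => q.2.2.1.1) fun q => q.1
  have g0 : ∀ w, g w ≠ 0 := fun w => hg.1.1.ne (mem_univ w)
  have g0' : ∀ w, g' w ≠ 0 := fun w => hg'.1.ne (mem_univ w)
  obtain ⟨e, e0, m1, m2, m3⟩ : ∃ e : ℝ, 0 < e ∧ e ≤ η / 4 ∧ e ≤ 2 * ρ₀ ∧ e ≤ δ / 12 :=
    ⟨min (η / 4) (min (2 * ρ₀) (δ / 12)), by positivity, by simp, by simp, by simp⟩
  have key : ∀ ε : ℝ, 0 < ε → ε ≤ e → ∃ s s' : ℂ → V n, ∃ r ∈ Icc ρ₁ ρ₀,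
      Sc D.X (ball b (4 * ρ₀)) s ∧ Sc D.X (ball b (4 * ρ₀)) s' ∧
      (∀ t ∈ ball b (4 * ρ₀), ε ≤ ‖t - b‖ → d2 (s t) (g t) ≤ ε) ∧
      (∀ t ∈ ball b (4 * ρ₀), ε ≤ ‖t - b‖ → d2 (s' t) (g' t) ≤ ε) ∧
      Ap D Q d s s' b r (r / 2) (κ * r ^ 2) C := fun ε ε0 εe => by
    obtain ⟨s, s1, s2⟩ := appr (h8 b hb) hg ε0
    obtain ⟨s', s1', s2', s3'⟩ : ∃ s', Sc D.X (ball b (4 * ρ₀)) s' ∧
        (∀ t ∈ ball b (4 * ρ₀), ε ≤ ‖t - b‖ → d2 (s' t) (g' t) ≤ ε) ∧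
        (((∀ t ∈ ball b (4 * ρ₀), s' t ∈ Cone D.U) ∧
          Aw D (η / 4) (b + 2 * ρ₀) (s (b + 2 * ρ₀))) ∨
          ∀ t ∈ ball b (4 * ρ₀), s' t ∉ Cone D.U) := by
      rcases hP.2 with q | q
      · obtain ⟨s', s1', s2'⟩ := appr (h8 b hb) q.2.2.1 ε0
        have m : b + 2 * ρ₀ ∈ ball b (4 * ρ₀) := mem_ball_iff_norm.2 (by rw [two ρ0]; linarith)
        exact ⟨s', (sc_op.1 s1').1, s2', .inl ⟨(sc_op.1 s1').2, aw_near (hη q.1 g hg hI b hb) (g0 _)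
          (s1.1.ne m) (s2 _ m (by rw [two ρ0]; linarith)) (εe.trans m1)⟩⟩
      · exact ⟨g', hg'.mono (subset_univ _), fun t _ _ => (d2_self (g0' t)).trans_le ε0.le,
          .inr fun t _ => q.2 t⟩
    obtain ⟨r, r1, r2⟩ := hB b hb s s' s1 s1' s3' fun t ht q => by
      have a1 := s2 t ht (by linarith)
      have a1' := s2' t ht (by linarith)
      have a2 := hc t ht (by linarith)
      have a3 := H84.d2_tri (s1.1.ne ht) (g0 t) (s1'.1.ne ht)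
      have a4 := H84.d2_tri (g0 t) (g0' t) (s1'.1.ne ht)
      rw [d2_symm (g' t)] at a4
      linarith
    exact ⟨s, s', r, r1, (sc_op.1 s1).1, s1', s2, s2', r2⟩
  choose s s' r r1 k1 k2 k3 k4 k5 using fun k : ℕ => key (e / (k + 1)) (by positivity)
    (div_le_self e0.le (by simp))
  have he : Tendsto (fun k : ℕ => e / (k + 1)) uf (𝓝 0) :=
    (tendsto_const_nhds.div_atTop (tendsto_atTop_add_const_right _ _
      tendsto_natCast_atTop_atTop)).mono_left uf_le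
  obtain ⟨ρ, hρ, c⟩ : ∃ ρ ∈ Icc ρ₁ ρ₀, Tendsto r uf (𝓝 ρ) :=
    isCompact_Icc.ultrafilter_le_nhds (uf.map r)
      (le_principal_iff.2 (mem_map.2 (univ_mem' r1)))
  have only : ∀ t ∈ ball b (4 * ρ₀), t ∈ D.B → t = b := fun t ht q => by
    by_contra e
    linarith [h8 b hb t q e, mem_ball_iff_norm.1 ht]
  exact ⟨ρ, hρ, h2 n D Q d uf b (4 * ρ₀) ρ κ C r s s' g g' hQ (ρ1.trans_le hρ.1)
    (by linarith [hρ.2]) c only (.of_forall fun k => ⟨k1 k, k2 k, k5 k⟩)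
    (sc_op.2 ⟨hg.1.mono (subset_univ _), fun t ht => ((h3 n D).2.2.2 g hg).resolve_left hI t
      fun q => ht.2 (only t ht.1 q)⟩) (hg'.mono (subset_univ _))
    (cvg he hg.1.1 (fun k => (k1 k).1) k3) (cvg he hg'.1 (fun k => (k2 k).1) k4)⟩

end Pool.Agent.MP_c69980_ag.E2.G3S
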