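import Pool.Agent.MP_c69980_ag.G3S.Base
import Pool.Agent.MP_c69980_ag.E1.ND
import Pool.Agent.MP_c69980_ag.E1.Lip

/-!
Discs lift to the cover; charged sequences of discs in the open surface.
-/

set_option autoImplicit false

noncomputable section

namespace Pool.Agent.MP_c69980_ag.E2.G3S

open MvPolynomial Metric Filter Topology MeasureTheory Set
open H60 H4 E1
open NDX hiding far far_near

namespace NDZ

variable {n : ℕ}

/-- Two continuous lifts differ locally by a constant. -/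
lemma lc (h : LatStmt) {L : Bas} {W : Set (PS n)} {X : Set (Pt n)} (hX : Cov L W X)
    {f g : ℂ → ℂ} {F : ℂ → V n} {z : ℂ}
    (hf : ContinuousAt f z) (hg : ContinuousAt g z) (h1 : ∀ᶠ w in 𝓝 z, (f w, F w) ∈ X)
    (h2 : ∀ᶠ w in 𝓝 z, (g w, F w) ∈ X) : f =ᶠ[𝓝 z] fun w => g w + (f z - g z) := by
  obtain ⟨r, r0, hr⟩ := ((h L).2.2 ∅).2.2 0
  have h3 : ContinuousAt (fun w => ‖f w - g w - (f z - g z) - 0‖) z := by fun_prop
  filter_upwards [h1, h2, h3.eventually_lt_const (by simpa using r0)] with w a b c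
  have := hr _ (Or.inl (sub_mem (hX.uniq _ _ _ a b)
    (hX.uniq _ _ _ h1.self_of_nhds h2.self_of_nhds))) c.le
  linear_combination this

lemma low {A P : PR n} {e f : ℕ} {c : ℝ} (hA : A.IsHomogeneous e) (hP : P.IsHomogeneous f)
    (hc : 0 < c) (H : ∀ y, eval y P = 0 → eval y A = 0) : ∃ c' : ℝ, 0 < c' ∧
      ∀ y : V n, y ≠ 0 → c * ‖y‖ ^ e ≤ ‖eval y A‖ → c' * ‖y‖ ^ f ≤ ‖eval y P‖ := by
  obtain ⟨c', c0, h⟩ := ((isCompact_sphere (0 : V n) 1).inter_right (isClosed_le continuous_const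
    (MvPolynomial.continuous_eval A).norm (f := fun _ => c))).exists_forall_le'
    (MvPolynomial.continuous_eval P).norm.continuousOn (a := 0) fun y hy =>
      norm_pos_iff.2 fun q => by
        have a : c ≤ ‖eval y A‖ := hy.2
        rw [H y q, norm_zero] at a
        linarith
  refine ⟨c', c0, fun y y0 hy => ?_⟩
  have y0' : ‖y‖ ≠ 0 := norm_ne_zero_iff.2 y0
  have y1 : ((‖y‖ : ℂ))⁻¹ ≠ 0 := inv_ne_zero (Complex.ofReal_ne_zero.2 y0')
  have y2 : ‖((‖y‖ : ℂ)⁻¹ • y : V n)‖ = 1 := by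
    rw [norm_smul, norm_inv, Complex.norm_real, norm_norm, inv_mul_cancel₀ y0']
  have y3 := pp_le hA (Pp.smul y1 y) hy
  rw [y2, one_pow, mul_one] at y3
  refine pp_le hP (Pp.smul y1 y).symm ?_
  rw [y2, one_pow, mul_one]
  exact h _ ⟨mem_sphere_zero_iff_norm.2 y2, y3⟩

lemma strip {X : Set (Pt n)} {P₀ P₁ : PR n} {f : ℕ} {c₀ c₁ : ℝ} (hX : Cn X) (hP : UQ X P₀ P₁ f)
    (c0 : 0 < c₀) (c1 : 0 < c₁) : ∃ M : ℝ, ∀ x ∈ X, c₀ * ‖x.2‖ ^ f ≤ ‖eval x.2 P₀‖ →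
      c₁ * ‖x.2‖ ^ f ≤ ‖eval x.2 P₁‖ → |x.1.re| ≤ M := by
  obtain ⟨A₀, A0, h0⟩ := R1.hom_bd hP.1
  obtain ⟨A₁, A1, h1⟩ := R1.hom_bd hP.2.1
  refine ⟨max (Real.log (A₀ / c₁)) (-Real.log (c₀ / A₁)), fun x hx a b => ?_⟩
  have y0 := hX.nz x hx
  have p : 0 < ‖x.2‖ ^ f := pow_pos (norm_pos_iff.2 y0) f
  have e := congrArg norm (hP.2.2.2.2 x hx)
  rw [norm_mul, Complex.norm_exp] at e
  have E := Real.exp_pos x.1.re
  have k0 := h0 x.2
  have k1 := h1 x.2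
  refine abs_le.2 ⟨neg_le.1 (le_max_of_le_right (neg_le_neg ?_)), le_max_of_le_left ?_⟩
  · rw [Real.log_le_iff_le_exp (div_pos c0 A1), div_le_iff₀ A1]
    refine le_of_mul_le_mul_right ?_ p
    nlinarith [mul_le_mul_of_nonneg_left k1 E.le]
  · rw [Real.le_log_iff_exp_le (div_pos A0 c1), le_div_iff₀ c1]
    refine le_of_mul_le_mul_right ?_ p
    nlinarith [mul_le_mul_of_nonneg_left b E.le]

lemma far (h3 : LatStmt) (D : Fib n) {A : PR n} {e : ℕ} {c : ℝ} (hA : A.IsHomogeneous e)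
    (hc : 0 < c) (H : ∀ x ∈ D.X, x.1 ∈ Bad D.L D.S → eval x.2 A = 0) (M : ℝ) :
    ∃ η : ℝ, 0 < η ∧ ∀ t y, (t, y) ∈ D.X → |t.re| ≤ M → c * ‖y‖ ^ e ≤ ‖eval y A‖ →
      Far D η t := by
  obtain ⟨h5, -, h4⟩ := h3 D.L
  obtain ⟨R₀, -, hR⟩ := h5 M
  obtain ⟨b1, -, b3⟩ := h4 D.S
  have cB : IsClosed (Bad D.L D.S) := isClosed_of_closure_subset fun t ht => by
    obtain ⟨r, r0, hr⟩ := b3 t
    obtain ⟨b, hb, hd⟩ := Metric.mem_closure_iff.1 ht r r0
    rw [dist_comm, dist_eq_norm] at hd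
    exact hr b hb hd.le ▸ hb
  have cA : Continuous fun x : Pt n => ‖eval x.2 A‖ :=
    ((MvPolynomial.continuous_eval A).comp continuous_snd).norm
  have c1 : IsCompact ((closedBall (0 : ℂ) R₀ ×ˢ sphere (0 : V n) 1) ∩
      {x : Pt n | c ≤ ‖eval x.2 A‖}) :=
    ((isCompact_closedBall _ _).prod (isCompact_sphere _ _)).inter_right
      (isClosed_le continuous_const cA)
  have c2 : IsCompact (((closedBall (0 : ℂ) R₀ ×ˢ sphere (0 : V n) 1) ∩
      {x : Pt n | c ≤ ‖eval x.2 A‖}) ∩ D.X) :=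
    c1.of_isClosed_subset (isClosed_of_closure_subset fun x hx => by
      have a1 := closure_minimal inter_subset_left c1.isClosed hx
      refine ⟨a1, D.cov.cn.closed x (closure_mono inter_subset_right hx) fun h0 => ?_⟩
      have a2 := mem_sphere_zero_iff_norm.1 a1.1.2
      rw [h0, norm_zero] at a2
      exact zero_ne_one a2) inter_subset_left
  obtain ⟨η, η0, hη⟩ := (c2.image continuous_fst).exists_thickening_subset_open cB.isOpen_compl (by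
    rintro _ ⟨x, hx, rfl⟩ hb
    have a1 : c ≤ ‖eval x.2 A‖ := hx.1.2
    rw [H x hx.2 hb, norm_zero] at a1
    linarith)
  refine ⟨η, η0, fun t y hx ht hy b hb => le_of_not_gt fun q => ?_⟩
  obtain ⟨l, hl, hl'⟩ := hR t ht
  have y0 : ‖y‖ ≠ 0 := norm_ne_zero_iff.2 (D.cov.cn.nz _ hx)
  have y1 : ((‖y‖ : ℂ))⁻¹ ≠ 0 := inv_ne_zero (Complex.ofReal_ne_zero.2 y0)
  have y2 : ‖((‖y‖ : ℂ)⁻¹ • y : V n)‖ = 1 := by
    rw [norm_smul, norm_inv, Complex.norm_real, norm_norm, inv_mul_cancel₀ y0]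
  have y3 := pp_le hA (Pp.smul y1 y) hy
  rw [y2, one_pow, mul_one] at y3
  refine hη (mem_thickening_iff.2 ⟨t + -l, ⟨(t + -l, (‖y‖ : ℂ)⁻¹ • y),
    ⟨⟨⟨?_, mem_sphere_zero_iff_norm.2 y2⟩, y3⟩,
      D.cov.cn.scal _ (D.cov.per _ hx (-l) (neg_mem hl)) _ y1⟩, rfl⟩, ?_⟩)
    (b1 b hb (-l) (neg_mem hl))
  · rw [mem_closedBall_zero_iff, ← sub_eq_add_neg]
    exact hl'
  · rwa [dist_add_right, dist_comm, dist_eq_norm]

end NDZ

open NDZ

theorem nrm (h : LatStmt) : NrmStmt := fun n D F c r ⟨h1, h2⟩ => by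
  have hX := D.cov
  have an := h1.analyticOnNhd isOpen_ball
  have key : ∀ z, ∃ φ : ℂ → ℂ, z ∈ ball c r → ∀ᶠ w in 𝓝 z, AnalyticAt ℂ φ w ∧
      ∀ᶠ u in 𝓝 w, (φ u, F u) ∈ D.X := fun z => by
    by_cases hz : z ∈ ball c r
    · obtain ⟨t, ht⟩ := D.onto _ (h2 z hz)
      obtain ⟨T, a, -, b, -⟩ := hX.loc _ ht
      refine ⟨T ∘ F, fun _ => (AnalyticAt.comp (f := F) a (an z hz)).eventually_analyticAt.and
        (Eventually.eventually_nhds ?_)⟩
      filter_upwards [(an z hz).continuousAt.eventually b, isOpen_ball.mem_nhds hz] with w u v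
        using u (cone_mono D.eqp.1 (h2 w v))
    · exact ⟨0, fun a => (hz a).elim⟩
  choose φ hφ using key
  have e1 : ∀ z ∈ ball c r, (fun w => deriv (φ w) w) =ᶠ[𝓝 z] deriv (φ z) := fun z hz => by
    filter_upwards [hφ z hz, isOpen_ball.mem_nhds hz] with w a b
    have d := (hφ w b).self_of_nhds
    rw [(lc h hX d.1.continuousAt a.1.continuousAt d.2 a.2).deriv_eq, deriv_add_const]
  have e2 : DifferentiableOn ℂ (fun w => deriv (φ w) w) (ball c r) := fun z hz =>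
    ((hφ z hz).self_of_nhds.1.deriv.differentiableAt.congr_of_eventuallyEq
      (e1 z hz)).differentiableWithinAt
  obtain ⟨f, f0, hf⟩ := e2.isExactOn_ball.with_val_at c (φ c c)
  refine ⟨f, nm_op.2 ⟨⟨⟨h1, fun z hz => (h2 z hz).1⟩,
    fun z hz => (hf z hz).differentiableAt.differentiableWithinAt, fun z hz => ?_⟩, h2⟩⟩
  have c0 : c ∈ ball c r := mem_ball_self (pos_of_mem_ball hz)
  refine (convex_ball c r).isPreconnected.induction₂'
    (fun x y => (f x, F x) ∈ D.X → (f y, F y) ∈ D.X) (fun x hx => ?_)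
    (fun _ _ _ _ _ _ a b u => b (a u)) c0 hz (f0 ▸ (hφ c c0).self_of_nhds.2.self_of_nhds)
  obtain ⟨s, s0, hs⟩ := Metric.eventually_nhds_iff_ball.1
    ((hφ x hx).and ((e1 x hx).and (isOpen_ball.mem_nhds hx)))
  obtain ⟨k, hk⟩ := isOpen_ball.exists_eq_add_of_deriv_eq (convex_ball x s).isPreconnected
    (f := f) (g := φ x) (fun w hw => (hf w (hs w hw).2.2).differentiableAt.differentiableWithinAt)
    (fun w hw => (hs w hw).1.1.differentiableAt.differentiableWithinAt)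
    fun w hw => (hf w (hs w hw).2.2).deriv.trans (hs w hw).2.1
  have e3 : ∀ w ∈ ball x s, (f w, F w) ∈ D.X ↔ k ∈ D.L.lattice := fun w hw => by
    have u := (hs w hw).1.2.self_of_nhds
    rw [hk hw]
    exact ⟨fun a => by simpa using hX.uniq _ _ _ a u, hX.per _ u k⟩
  filter_upwards [mem_nhdsWithin_of_mem_nhds (ball_mem_nhds x s0)] with y hy
  rw [e3 y hy, e3 x (mem_ball_self s0)]
  exact ⟨id, id⟩

theorem nd (h2 : NrmStmt) (h3 : LatStmt) (h4 : NDAStmt) (h5 : NDBStmt) : NDStmt := by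
  rintro n D ⟨R₁, hR₁, hR'⟩
  obtain ⟨B₁, hB₁, hB₁'⟩ := D.bdy
  have hR : ∀ g, Adm D g → ∀ t, eval (g t) (R₁ * B₁) = 0 := fun g hg t => by
    rw [map_mul]
    by_cases q : InB D g
    · have e : eval (g t) B₁ = 0 := hB₁' (t, g t) (hg.1.2 t trivial) (q t)
      rw [e, mul_zero]
    · rw [hR' g hg q t, zero_mul]
  have hR₀ := D.prime _ _ hR₁ hB₁
  generalize R₁ * B₁ = R₀ at hR hR₀
  obtain ⟨B, hB, hB'⟩ := D.badf
  obtain ⟨P₀, P₁, f, hP⟩ := D.up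
  refine ⟨R₀ * (B * (P₀ * P₁)), D.prime _ _ hR₀ (D.prime _ _ hB
    (D.prime _ _ hP.2.2.1 hP.2.2.2.1)), ?_⟩
  rintro A e c ε F R S hA ⟨T, hT⟩ hc hε hRt hk alt
  obtain ⟨c₀, c0, hc₀⟩ := low hA hP.1 hc fun y hy => by simp [hT, hy]
  obtain ⟨c₁, c1, hc₁⟩ := low hA hP.2.1 hc fun y hy => by simp [hT, hy]
  obtain ⟨M, hM⟩ := strip D.cn hP c0 c1
  obtain ⟨η₁, η1, hη⟩ := far h3 D hA hc (fun x hx hb => by simp [hT, hB' x hx hb]) M
  choose h hN using fun k => h2 n D (F k) 0 (R k) (hk k).2.1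
  have sb : ∀ k, S k ⊆ ball 0 (R k) := fun k => (hk k).2.2.2.1.trans (ball_subset_ball (hk k).1)
  obtain ⟨η, η0, e1, e2⟩ : ∃ η : ℝ, 0 < η ∧ η ≤ η₁ ∧ η ≤ c₁ :=
    ⟨_, lt_min η1 c1, min_le_left _ _, min_le_right _ _⟩
  have nsq : NSq D P₁ f η M F h R S := ⟨hRt, fun k => ⟨hN k, (hk k).2.2.2.1, (hk k).1,
    fun z hz => by
      have m := ((hN k).2.2 z (sb k hz)).1
      have a := (hk k).2.2.2.2.2 z hz
      have y0 := D.cn.nz _ m
      have b := hM _ m (hc₀ _ y0 a) (hc₁ _ y0 a)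
      exact ⟨fun x hx => e1.trans (hη _ _ m b a x hx), b,
        (mul_le_mul_of_nonneg_right e2 (by positivity)).trans (hc₁ _ y0 a)⟩⟩⟩
  have caseA : ∀ Λ : ℝ, Tendsto (fun k => mu (lam (F k)) (S k)) atTop (𝓝 ⊤) →
      (∀ᶠ k in atTop, mu (lam (F k)) (ball 0 64) ≤ ENNReal.ofReal Λ * mu (lam (F k)) (S k)) →
      False := fun Λ H1 H2 => by
    have fin : ∀ᶠ k in atTop, mu (lam (F k)) (S k) ≠ ⊤ :=
      (hRt.eventually_gt_atTop 1).mono fun k a => mu_fin (hN k).1 a (hk k).2.2.2.1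
    obtain ⟨s, hs, t, ht⟩ := h4 n D P₀ P₁ f η M Λ F h R S
      (fun k => (mu (lam (F k)) (S k)).toReal) hP η0 nsq (tendsto_atTop.2 fun N => by
        filter_upwards [fin, H1.eventually (lt_mem_nhds (ENNReal.ofReal_lt_top (r := N)))]
          with k k1 k2
        exact (ENNReal.ofReal_le_iff_le_toReal k1).1 k2.le) (by
        filter_upwards [fin, H2] with k k1 k2
        rw [ENNReal.ofReal_mul' ENNReal.toReal_nonneg, ENNReal.ofReal_toReal k1]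
        exact ⟨le_rfl, k2⟩)
    have cl : IsClosed {y : V n | c * ‖y‖ ^ e ≤ ‖eval y A‖} :=
      isClosed_le (by fun_prop) (MvPolynomial.continuous_eval A).norm
    have a1 : c * ‖s t‖ ^ e ≤ ‖eval (s t) A‖ := closure_minimal (by
      rintro y ⟨k, z, hz, hy⟩
      exact pp_le hA hy ((hk k).2.2.2.2.2 z hz)) cl ht
    rw [hT, map_mul, map_mul, hR s hs t, zero_mul, zero_mul, norm_zero] at a1
    exact (mul_pos hc (pow_pos (norm_pos_iff.2 (hs.1.1.ne (mem_univ t))) e)).not_ge a1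
  rcases alt with ⟨H1, Λ, H2⟩ | ⟨Λ, H⟩
  · exact caseA Λ H1 H2
  by_cases hb : ∃ N : ℕ, ∃ᶠ k in atTop, mu (lam (F k)) (S k) ≤ N
  · obtain ⟨N, hN'⟩ := hb
    refine h5 n D P₀ P₁ f η M (Λ * N) ε F h R S hP η0 hε nsq
      (fun k => ⟨(hk k).2.2.1, (hk k).2.2.2.2.1⟩) fun j => ?_
    refine (hN'.and_eventually (H j)).mono ?_
    rintro k ⟨k1, k2⟩
    rw [mul_right_comm, ENNReal.ofReal_mul' (Nat.cast_nonneg N), ENNReal.ofReal_natCast]
    exact k2.trans (mul_le_mul_right k1 _)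
  · refine caseA (Λ * 2 ^ 2) (ENNReal.tendsto_nhds_top fun N => ?_) ((H 2).mono fun k a =>
      (mu_mono _ (ball_subset_ball ?_)).trans a)
    · exact (not_frequently.1 fun a => hb ⟨N, a⟩).mono fun k a => not_le.1 a
    · rw [show (3 : ℝ) * (2 : ℕ) = (6 : ℕ) * 1 by norm_num, Real.exp_nat_mul]
      have := pow_le_pow_left₀ zero_le_two (show 2 ≤ Real.exp 1 by
        linarith [Real.add_one_le_exp 1]) 6
      linarith

end Pool.Agent.MP_c69980_ag.E2.G3S
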