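import Pool.Agent.MP_c69980_ag.G3S.Base
import Pool.Agent.MP_c69980_ag.G2.Sel
import Pool.Agent.MP_c69980_ag.E1.ND

/-!
Rows NDA, NDB: charged sequences of discs over the strip.
-/

set_option autoImplicit false

noncomputable section

namespace Pool.Agent.MP_c69980_ag.E2.G3S

open Metric Filter Topology MeasureTheory Set
open H60 H4 E1

namespace NDZ

variable {n : ℕ}

lemma near {D : Fib n} {η M : ℝ} {t t' : ℂ} (h : Far D η t) (hM : |t.re| ≤ M) (hη : 0 < η)
    (h' : ‖t' - t‖ ≤ η / 2) : Far D (η / 2) t' ∧ |t'.re| ≤ M + η := by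
  refine ⟨fun b hb => ?_, ?_⟩
  · have h1 := h b hb
    have h2 := norm_sub_le (t' - b) (t' - t)
    rw [show t' - b - (t' - t) = t - b by ring] at h2
    linarith
  · have h1 := Complex.abs_re_le_norm (t' - t)
    rw [Complex.sub_re] at h1
    linarith [abs_sub_abs_le_abs_sub t'.re t.re]

end NDZ

open NDZ

theorem nda (h1 : HdStmt) (h2 : HypStmt) (h3 : InvStmt) (h4 : CptStmt) (h5 : LatStmt)
    (h6 : AdmStmt) : NDAStmt := by
  classical
  intro n D P₀ P₁ e η M Λ F h R S m hU hη ⟨hR, hN⟩ hm hk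
  obtain ⟨C, C0, hC⟩ := h1 n D P₀ P₁ e η M hU hη
  obtain ⟨A₃, A0, hA⟩ := h2 n D (η / 2) (M + η) (half_pos hη)
  let u : Ultrafilter ℕ := Ultrafilter.of atTop
  have hu : (u : Filter ℕ) ≤ atTop := Ultrafilter.of_le _
  obtain ⟨z, ρ, c, c0, hz, ρ0, hρ, hl⟩ := G2.sel (fun k => lam (F k)) h S m (η / 2)
    (4 * A₃ + C * (|Λ| + 1) ^ 2) (half_pos hη) hm (by
      filter_upwards [hk, hR.eventually_ge_atTop 64, hm.eventually_ge_atTop 1] with k k1 k2 k3
      obtain ⟨n1, n2, -, n4⟩ := hN k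
      refine ⟨n1.2.1.mono (ball_subset_ball (by linarith)), n2, k1.1, fun w hw => ?_,
        fun z hz r r0 r1 H w hw => ?_⟩
      · obtain ⟨z, hz⟩ : (S k).Nonempty := nonempty_iff_ne_empty.2 fun e => by
          have := k1.1
          simp only [e, mu, Measure.restrict_empty, lintegral_zero_measure, nonpos_iff_eq_zero,
            ENNReal.ofReal_eq_zero] at this
          linarith
        have z1 : dist z 0 < 1 := n2 hz
        have s1 : ball z 40 ⊆ ball 0 64 := ball_subset_ball' (by linarith)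
        have e1 : 1 ≤ (|Λ| + 1) * m k := by nlinarith [abs_nonneg Λ]
        have := hC (F k) (h k) z 40 ((|Λ| + 1) * m k) (by norm_num) e1
          (n1.mono (s1.trans (ball_subset_ball k2))) (n4 z hz)
          ((NDX.mu_mono _ s1).trans (k1.2.trans (ENNReal.ofReal_le_ofReal
            (by nlinarith [le_abs_self Λ])))) w
          (ball_subset_ball' (by rw [dist_comm]; linarith) hw)
        rw [mul_pow, ← mul_assoc] at this
        nlinarith [norm_nonneg (deriv (h k) w), mul_pos A0 (show 0 < m k ^ 2 by positivity)]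
      · have z1 : dist z 0 < 1 := n2 hz
        have s1 : ball w (r / 2) ⊆ ball z r := ball_subset_ball' (by linarith [mem_ball.1 hw])
        have := hA (F k) (h k) w (r / 2) (half_pos r0)
          (n1.mono (s1.trans (ball_subset_ball' (by linarith)))) fun v hv =>
            near (n4 z hz).1 (n4 z hz).2.1 hη (H v (s1 hv))
        nlinarith [mul_pos C0 (show 0 < (|Λ| + 1) ^ 2 by positivity)]) u hu
  obtain ⟨R₀, -, hR₀⟩ := (h5 D.L).1 M
  have hl0 : ∀ k, ∃ l ∈ D.L.lattice, z k ∈ S k → ‖h k (z k) - l‖ ≤ R₀ := fun k => by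
    by_cases H : z k ∈ S k
    · exact (hR₀ _ ((hN k).2.2.2 _ H).2.1).imp fun _ a => ⟨a.1, fun _ => a.2⟩
    · exact ⟨0, zero_mem _, fun a => (H a).elim⟩
  choose l hl0 hl1 using hl0
  obtain ⟨t₀, -, ht⟩ := (isCompact_closedBall (0 : ℂ) R₀).ultrafilter_le_nhds
    (u.map fun k => h k (z k) - l k)
    (le_principal_iff.2 (hz.mono fun k a => mem_closedBall_zero_iff.2 (hl1 k a)))
  change Tendsto _ (u : Filter ℕ) _ at ht
  have hR' : Tendsto (fun k => (ρ k)⁻¹) u atTop :=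
    tendsto_inv_nhdsGT_zero.comp (tendsto_nhdsWithin_iff.2 ⟨hρ, Eventually.of_forall ρ0⟩)
  have hl' : TendstoLocallyUniformly (fun k w => h k (z k + ρ k * w) - l k)
      (fun w => t₀ + c * w) u := by
    have e : (fun (k : ℕ) (w : ℂ) => h k (z k + ρ k * w) - l k) =
        (fun k _ => h k (z k) - l k) + fun k w => h k (z k + ρ k * w) - h k (z k) := by
      funext k w
      simp
    rw [e]
    exact (ht.tendstoUniformly_const (α := ℂ)).tendstoLocallyUniformly.add hl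
  have hNm : ∀ᶠ k in u, Nm D.Xo (ball 0 (ρ k)⁻¹) (fun w => F k (z k + ρ k * w))
      fun w => h k (z k + ρ k * w) - l k := by
    filter_upwards [hz, hu (hR.eventually_ge_atTop 2)] with k k1 k2
    have mp : MapsTo (fun w : ℂ => z k + ρ k * w) (ball 0 (ρ k)⁻¹) (ball 0 (R k)) := fun w hw => by
      have z1 := mem_ball_zero_iff.1 ((hN k).2.1 k1)
      have z2 := mul_lt_mul_of_pos_left (mem_ball_zero_iff.1 hw) (ρ0 k)
      rw [mul_inv_cancel₀ (ρ0 k).ne'] at z2
      have z3 := norm_add_le (z k) (ρ k * w)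
      rw [norm_mul, Complex.norm_real, Real.norm_of_nonneg (ρ0 k).le] at z3
      exact mem_ball_zero_iff.2 (by linarith [show (2 : ℝ) ≤ R k from k2])
    have df : DifferentiableOn ℂ (fun w : ℂ => z k + ρ k * w) (ball 0 (ρ k)⁻¹) := by fun_prop
    refine ⟨⟨(hN k).1.1.1.comp df mp, fun w hw => (hN k).1.1.2 _ (mp hw)⟩,
      ((hN k).1.2.1.comp df mp).sub_const _, fun w hw => ?_⟩
    simp only [sub_eq_add_neg]
    exact ⟨D.cov.per _ ((hN k).1.2.2 _ (mp hw)).1 (-l k) (neg_mem (hl0 k)),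
      ((hN k).1.2.2 _ (mp hw)).2⟩
  have hI := h3 u _ t₀ c c0 (fun r => by
    filter_upwards [hNm, hR'.eventually_ge_atTop r] with k k1 k2
    exact k1.2.1.mono (ball_subset_ball k2)) hl'
  obtain ⟨P, hP⟩ : ∃ P : ℕ → ℕ → Prop, ∀ k N, P k N ↔ ∃ s, Sc D.Xo (ball 0 N) s ∧
      (h k (z k) - l k ∈ ball (0 : ℂ) N → s (h k (z k) - l k) = F k (z k)) :=
    ⟨_, fun _ _ => Iff.rfl⟩
  have P0 : ∀ k, P k 0 := fun k => (hP k 0).2 ⟨F k, ⟨fun t ht => by simp at ht,
    fun t ht => by simp at ht⟩, fun ht => by simp at ht⟩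
  have P1 : ∀ N : ℕ, ∀ᶠ k in u, P k N := fun N => by
    obtain ⟨R', hR''⟩ := hI N
    filter_upwards [hR'', hNm, hR'.eventually_ge_atTop R'] with k ⟨g, g1, g2, g3⟩ k1 k2
    have mp : MapsTo g (ball 0 N) (ball 0 (ρ k)⁻¹) := fun t ht => ball_subset_ball k2 (g2 t ht).1
    refine (hP k N).2 ⟨fun t => F k (z k + ρ k * g t), ⟨crv_lh
      ⟨k1.1.1.comp g1 mp, fun t ht => k1.1.2 _ (mp ht)⟩ isOpen_ball, fun t ht => ?_⟩, fun ht => ?_⟩
    · have e := k1.2.2 _ (mp ht)
      simp only [(g2 t ht).2] at e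
      exact e
    · simp only [mul_zero, add_zero] at g3
      simp only [g3 ht, mul_zero, add_zero]
  choose s hs hs' using fun k => (hP k _).1 (Nat.findGreatest_spec (Nat.zero_le k) (P0 k))
  have hG : ∀ r : ℝ, ∀ᶠ k in u, r ≤ (Nat.findGreatest (P k) k : ℕ) := fun r => by
    filter_upwards [P1 ⌈r⌉₊, hu (eventually_ge_atTop ⌈r⌉₊)] with k k1 k2
    exact (Nat.le_ceil r).trans (Nat.cast_le.2 (Nat.le_findGreatest k2 k1))
  have hS : ∀ r : ℝ, ∀ᶠ k in u, Sc D.Xo (ball 0 r) (s k) := fun r =>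
    (hG r).mono fun k a => (hs k).mono (ball_subset_ball a)
  obtain ⟨g, g1, g2⟩ := h4 n D u univ s isOpen_univ fun t _ => ⟨1, one_pos,
    (hS (‖t‖ + 1)).mono fun k a => a.mono (ball_subset_ball' (by simp [add_comm]))⟩
  rw [← compl_eq_univ_sdiff] at g2
  have tF : Far D η t₀ := (far_closed D η).mem_of_tendsto ht (hz.mono fun k a =>
    (far_shift h5 (hl0 k)).1 (by simpa using ((hN k).2.2.2 _ a).1))
  obtain ⟨y, y1, y2⟩ := g2.pt (tF.notMem hη) ht
  refine ⟨g, (h6 n D).2.2.1 u s g hS g1 g2, t₀, mem_closure_of_tendsto y1 ?_⟩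
  filter_upwards [y2, hz, hG (R₀ + 1)] with k k1 k2 k3
  rw [hs' k (mem_ball_zero_iff.2 (by linarith [hl1 k k2]))] at k1
  exact ⟨k, z k, k2, k1.symm⟩

theorem ndb (h1 : HdStmt) (h2 : HypStmt) : NDBStmt := by
  intro n D P₀ P₁ e η M Λ ε F h R S hU η0 ε0 H hS hj
  have pi0 := Real.pi_pos
  have e0 : 0 < η / 2 := half_pos η0
  obtain ⟨T, T0, hT⟩ := h2 n D (η / 2) (M + η) e0
  obtain ⟨C, C0, hC⟩ := h1 n D P₀ P₁ e η M hU η0
  obtain ⟨r, r1, hr⟩ : ∃ r : ℝ, 1 ≤ r ∧ T * Real.pi < ε * r := ⟨T * Real.pi / ε + 1,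
    le_add_of_nonneg_left (by positivity), by rw [mul_add, mul_div_cancel₀ _ ε0.ne']; linarith⟩
  obtain ⟨j, hx⟩ := pow_unbounded_of_one_lt (16 * r + 2 * (C * max 1 Λ ^ 2 * r) / (η / 2))
    (one_lt_two (α := ℝ))
  obtain ⟨k, k1, k2⟩ := ((hj j).and_eventually (H.1.eventually_ge_atTop (Real.exp (3 * j)))).exists
  have ex : ((2 : ℝ) ^ j) ^ 3 ≤ Real.exp (3 * j) := by
    rw [← pow_mul, show (3 * j : ℝ) = (j * 3 : ℕ) * 1 by push_cast; ring, Real.exp_nat_mul]
    exact pow_le_pow_left₀ (by norm_num) (by linarith [Real.add_one_le_exp (1 : ℝ)]) _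
  generalize (2 : ℝ) ^ j = x at hx k1 ex
  generalize Real.exp (3 * j) = Y at k1 k2 ex
  have L1 : 1 ≤ max 1 Λ := le_max_left _ _
  have x1 : 16 * r ≤ x := le_trans (le_add_of_nonneg_right (by positivity)) hx.le
  have x2 : 2 * (C * max 1 Λ ^ 2 * r) ≤ x * (η / 2) :=
    (div_le_iff₀ e0).1 (le_trans (le_add_of_nonneg_left (by positivity)) hx.le)
  have x3 : 1 ≤ x := by linarith
  have x4 : x ≤ x ^ 3 := le_self_pow₀ x3 (by norm_num)
  have ρ0 : 0 < Y - 1 := by linarith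
  obtain ⟨N, S1, -, hz⟩ := H.2 k
  have key : ∀ z ∈ S k, lam (F k) z ≤ T / r ^ 2 := fun z zS => by
    have s1 : ball z (Y - 1) ⊆ ball 0 Y := ball_subset_ball' (by linarith [mem_ball.1 (S1 zS)])
    have N1 := N.mono (s1.trans (ball_subset_ball k2))
    have d := hC (F k) (h k) z (Y - 1) (max 1 Λ * x) ρ0 (one_le_mul_of_one_le_of_one_le L1 x3) N1
      (hz z zS) ((lintegral_mono_set s1).trans (k1.trans
        (ENNReal.ofReal_le_ofReal (mul_le_mul_of_nonneg_right (le_max_right _ _) (by linarith)))))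
    have s2 : ball z r ⊆ ball z ((Y - 1) / 8) := ball_subset_ball (by linarith)
    have N2 : Nm D.Xo (ball z r) (F k) (h k) := N1.mono (ball_subset_ball (by linarith))
    rw [le_div_iff₀ (by positivity)]
    refine hT _ _ z r (by linarith) N2 fun w hw => near (hz z zS).1 (hz z zS).2.1 η0
      ((NDX.osc (y := η / 2 / r) N2.2.1 (fun v hv => ?_) w hw).trans
        (le_of_eq (div_mul_cancel₀ _ (by positivity))))
    rw [le_div_iff₀ (by positivity)]
    refine le_of_mul_le_mul_right ?_ ρ0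
    have a1 := mul_le_mul_of_nonneg_right (d v (s2 hv)) (by linarith : 0 ≤ r)
    have a2 := mul_le_mul_of_nonneg_right x2 (sq_nonneg x)
    have a3 := mul_le_mul_of_nonneg_left (by linarith : x ^ 3 ≤ 2 * (Y - 1)) e0.le
    linarith
  have m1 : mu (lam (F k)) (S k) ≤ ENNReal.ofReal (T / r ^ 2 * Real.pi) := by
    refine (setLIntegral_mono' (hS k).1 fun z zS => ENNReal.ofReal_le_ofReal (key z zS)).trans ?_
    rw [setLIntegral_const, ENNReal.ofReal_mul (by positivity)]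
    refine mul_le_mul_right ((measure_mono S1).trans (le_of_eq ?_)) _
    simp [Complex.volume_ball, ← NNReal.coe_real_pi]
  have m2 := (ENNReal.ofReal_le_ofReal_iff (by positivity)).1 ((hS k).2.trans m1)
  rw [div_mul_eq_mul_div, le_div_iff₀ (by positivity)] at m2
  have := mul_le_mul_of_nonneg_left (le_self_pow₀ r1 two_ne_zero) ε0.le
  linarith

end Pool.Agent.MP_c69980_ag.E2.G3S
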