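import Pool.Agent.MP_c69980_ag.G3S.Base
import Pool.Agent.MP_c69980_ag.E1.Exp

/-!
Sections in a curve.
-/

set_option autoImplicit false

noncomputable section

namespace Pool.Agent.MP_c69980_ag.E2.G3S

open MvPolynomial Metric Filter Topology Set
open H60 H4 E1

namespace CurX

open ExpX

variable {n : ℕ}

lemma drop (D : Fib n) {B : PR n} (hB : NZ D.X B) : ∃ A : Polynomial (Polynomial ℂ), A ≠ 0 ∧
    ∀ a j t y, (t, y) ∈ D.X → t ∉ D.L.lattice → y j ≠ 0 → eval y B = 0 →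
      A.evalEval (D.L.wp t) (y a / y j) = 0 := by
  choose P P0 hP using fun q : Fin n × Fin n => D.drop B q.1 q.2 hB
  refine ⟨∏ q, P q, Finset.prod_ne_zero_iff.2 fun q _ => P0 q, fun a j t y h1 h2 h3 h4 => ?_⟩
  rw [Polynomial.evalEval_prod]
  exact Finset.prod_eq_zero (Finset.mem_univ (a, j)) (hP (a, j) (t, y) h1 h2 h3 h4)

lemma bound (hL : LatStmt) (D : Fib n) {B : PR n} (hB : NZ D.X B) : ∃ K : ℕ,
    ∀ F : Finset (ℂ → V n), (∀ s ∈ F, Sc D.X univ s ∧ ∀ t, eval (s t) B = 0) →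
      (∀ s ∈ F, ∀ s' ∈ F, (∀ t, Pp (s t) (s' t)) → s = s') → F.card ≤ K := by
  obtain ⟨A, A0, hA⟩ := drop D hB
  refine ⟨n * A.natDegree ^ n, fun F f1 f2 => ?_⟩
  have j1 : ∀ s : F, ∃ j, s.1 0 j ≠ 0 := fun s =>
    Function.ne_iff.1 ((f1 s.1 s.2).1.1.ne (mem_univ 0))
  choose j hj using j1
  have e1 := (hL D.L).2.1 _ 0 (Polynomial.leadingCoeff_ne_zero.2 A0)
  have e2 : ∀ᶠ t in 𝓝[≠] (0 : ℂ), ∀ s : F, s.1 t (j s) ≠ 0 := eventually_all.2 fun s =>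
    nhdsWithin_le_nhds ((f1 s.1 s.2).1.1.ratio (mem_univ 0) (j s) (hj s)).2
  have e3 : ∀ᶠ t in 𝓝[≠] (0 : ℂ), ∀ s s' : F, Pp (s.1 t) (s'.1 t) → s = s' :=
    eventually_all.2 fun s => eventually_all.2 fun s' => by
      rcases (f1 s.1 s.2).1.1.iden_pp (f1 s'.1 s'.2).1.1 isPreconnected_univ with q | q
      · exact .of_forall fun _ _ => Subtype.ext (f2 _ s.2 _ s'.2 fun t => q t (mem_univ t))
      · exact (q 0 (mem_univ 0)).mono fun t a b => absurd b a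
  obtain ⟨t, ⟨t1, t2⟩, t3, t4⟩ := (e1.and (e2.and e3)).exists
  obtain ⟨Z, z1, z2⟩ := roots A t2
  have m := count (fun s : F => s.1 t) j Z t3 (fun s a => z2 _ (hA a (j s) t _
    ((f1 s.1 s.2).1.2 t (mem_univ t)) t1 (t3 s) ((f1 s.1 s.2).2 t))) t4
  rw [Fintype.card_coe] at m
  exact m.trans (Nat.mul_le_mul_left _ (Nat.pow_le_pow_left z1 _))

end CurX

theorem secFin (h : LatStmt) : SecFinStmt := by
  intro n D B hB
  obtain ⟨K, hK⟩ := CurX.bound h D hB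
  obtain ⟨T, t1, t2, t3⟩ := ExpX.reps (InC D B)
    (fun s s' => ∀ t, Pp (s t) (s' t)) (fun s t => .refl _) (fun s s' q t => (q t).symm) K hK
  exact ⟨T, t1, t2, t3⟩

end Pool.Agent.MP_c69980_ag.E2.G3S
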