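import Pool.Agent.MP_c69980_ag.G3S.Base
import Pool.Agent.MP_c69980_ag.E1.Fin

/-!
Open surfaces with a nonconstant unit: separation of finite classes, translation to a point
of least modulus, continuity in a fibre.
-/

set_option autoImplicit false

noncomputable section

namespace Pool.Agent.MP_c69980_ag.E2.G3S

open MvPolynomial Metric Filter Topology Set Real
open scoped ComplexConjugate
open H60 H4 E1

namespace SepX

variable {n : ℕ} {D : Fib n} {Q : PR 3} {d : ℕ} {a j : Fin n} {O : Set (ℂ × ℂ)}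
  {Y : ℂ × ℂ → V n} {t z : ℂ} {w : V n}

/-- A point of least modulus in a closed set. -/
lemma least {A : Set ℂ} (hA : IsClosed A) (h : A.Nonempty) :
    ∃ t ∈ A, ∀ w, ‖w‖ < ‖t‖ → w ∉ A := by
  obtain ⟨t, t1, t2⟩ := hA.exists_infDist_eq_dist h 0
  refine ⟨t, t1, fun w hw => notMem_of_dist_lt_infDist (x := 0) ?_⟩
  rw [t2]
  simpa using hw

/-- Periods that move a point into a half-plane. -/
lemma deep (L : Bas) {σ : ℝ} (hσ : σ = 1 ∨ σ = -1) (y₀ : ℝ) (t : ℂ) :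
    ∃ l ∈ L.lattice, y₀ < σ * (t + l).im := by
  obtain ⟨k, hk⟩ := exists_nat_gt (y₀ - σ * t.im)
  have k0 : (0 : ℝ) ≤ k := Nat.cast_nonneg k
  have p := Real.pi_gt_three
  rcases hσ with rfl | rfl
  · refine ⟨_, L.mem_iff.2 ⟨k, rfl⟩, ?_⟩
    simp
    nlinarith
  · refine ⟨_, L.mem_iff.2 ⟨-k, rfl⟩, ?_⟩
    simp
    nlinarith

/-- The function `uu` in a chart at the first point. -/
lemma uu_chart (h : Chart D.X a j O Y) (hQ : Q.IsHomogeneous d) (hz : (t, z) ∈ O)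
    (hU : Y (t, z) ∈ Cone D.U) (hw : Pp w (Y (t, z))) :
    (Uq D Q t w ≠ 0 ↔ qq D.Φ Q Y (t, z) ≠ 0) ∧ (qq D.Φ Q Y (t, z) ≠ 0 → ∀ w', uu D Q d t w w' =
      3 * (D.m * d) * (log (d2 w w') - log (lamv (Y (t, z)) (dz Y (t, z)))) +
        bt D.L (fun _ => qq D.Φ Q Y (t, z)) t) := by
  obtain ⟨κ, k0, k1, -, k2⟩ := ph_chart0 h hz hU hw
  refine ⟨by simp [k2 Q d hQ, k0], fun q w' => ?_⟩
  have p2 := LocX.lamv_pos (h.wg_ne hz)
  have a2 := norm_ne_zero_iff.2 q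
  have a3 := norm_ne_zero_iff.2 k0
  rw [uu, bt, bt, k1, k2 Q d hQ, norm_mul, norm_pow, log_mul (pow_ne_zero _ a3) p2.ne',
    log_mul (pow_ne_zero _ a3) a2, log_pow, log_pow]
  push_cast
  ring

end SepX

theorem sep (h : LatStmt) : SepStmt := by
  intro n D P hI ⟨T, t1, t2, t3⟩
  have lh : ∀ s ∈ T, LH univ s := fun s hs => (hI.1 s (t2 s hs)).1
  refine ⟨fun u g hg => ?_, ?_⟩
  · obtain ⟨G, G1, G2⟩ := (Ultrafilter.eventually_exists_mem_iff (f := u) t1).1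
      (.of_forall fun k => t3 _ (hg k))
    exact ⟨G, t2 G G1, cv_congr (cv_const ((lh G G1).mono (subset_univ _))) (b_open h D)
      (fun t _ => ⟨1, one_pos, G2.mono fun k q w _ => q w⟩) fun t _ => .refl _⟩
  have e3 : ∀ᶠ t in 𝓝[≠] (0 : ℂ), ∀ s ∈ T, ∀ s' ∈ T,
      ¬(∀ t, Pp (s t) (s' t)) → ¬Pp (s t) (s' t) :=
    (eventually_all_finite t1).2 fun s hs => (eventually_all_finite t1).2 fun s' hs' => by
      rcases (lh s hs).iden_pp (lh s' hs') isPreconnected_univ with q | q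
      · exact .of_forall fun _ r => absurd (fun t => q t (mem_univ t)) r
      · exact (q 0 (mem_univ 0)).mono fun t a _ => a
  obtain ⟨t₀, b0, ht₀, n0⟩ := ((b_ev h D 0).and (e3.and
    (nhdsWithin_le_nhds (closedBall_mem_nhds (0 : ℂ) one_pos)))).exists
  obtain ⟨η, η0, hη⟩ := far_of_notMem h b0
  have key : ∀ᶠ δ in 𝓝[>] (0 : ℝ), ∀ s ∈ T, ∀ s' ∈ T,
      ¬(∀ t, Pp (s t) (s' t)) → δ < d2 (s t₀) (s' t₀) :=
    (eventually_all_finite t1).2 fun s hs => (eventually_all_finite t1).2 fun s' hs' => by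
      by_cases q : ∀ t, Pp (s t) (s' t)
      · exact .of_forall fun _ r => absurd q r
      · filter_upwards [nhdsWithin_le_nhds (gt_mem_nhds (d2_pos ((lh s hs).ne trivial)
          ((lh s' hs').ne trivial) (ht₀ s hs s' hs' q)))] with δ a _ using a
  obtain ⟨δ₀, hδ₀, δ0, δ1⟩ := (key.and (Ioo_mem_nhdsGT η0)).exists
  refine ⟨δ₀, δ0, fun δ hδ M hM g g' hg hg' ⟨σ, y₀, hσ, hc⟩ => by_contra fun hn => ?_⟩
  obtain ⟨l, l1, l2⟩ := SepX.deep D.L hσ y₀ t₀
  obtain ⟨f, f1, f2⟩ := t3 _ (hI.2 g hg l l1)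
  obtain ⟨f', f1', f2'⟩ := t3 _ (hI.2 g' hg' l l1)
  have a2 := hδ₀ f f1 f' f1' fun q => hn fun t => by
    simpa using (f2 (t - l)).trans ((q (t - l)).trans (f2' (t - l)).symm)
  have a5 := hc (t₀ + l) (by
    rw [D.L.re_add l1]
    exact (Complex.abs_re_le_norm _).trans ((mem_closedBall_zero_iff.1 n0).trans hM)) l2
    ((far_shift h l1).2 (hη.mono (by linarith)))
  rw [(f2 t₀).d2 (f2' t₀)] at a5
  linarith

theorem lm (h : LatStmt) : LMStmt := by
  intro n D P P' M δ u g g' G₀ hI hI' hC hC' δ0 hg cg cg' ne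
  obtain ⟨R, -, hR⟩ := (h D.L).1 M
  have ex : ∀ k, (∃ t : ℂ, |t.re| ≤ M ∧ Far D δ t ∧ δ ≤ d2 (g k t) (g' k t)) →
      ∃ t : ℂ, (|t.re| ≤ M ∧ Far D δ t ∧ δ ≤ d2 (g k t) (g' k t)) ∧
        ∀ w : ℂ, ‖w‖ < ‖t‖ → ¬(|w.re| ≤ M ∧ Far D δ w ∧ δ ≤ d2 (g k w) (g' k w)) := fun k hk =>
    SepX.least ((isClosed_le Complex.continuous_re.abs continuous_const).inter ((far_closed D δ).inter
      (isClosed_le continuous_const
        (FinX.d2_continuous (hI.1 _ (hg k).1).1 (hI'.1 _ (hg k).2).1)))) hk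
  choose! t ht using ex
  have ex : ∀ k, ∃ l ∈ D.L.lattice, |(t k).re| ≤ M → ‖t k - l‖ ≤ R := fun k => by
    by_cases q : |(t k).re| ≤ M
    · exact (hR _ q).imp fun l a => ⟨a.1, fun _ => a.2⟩
    · exact ⟨0, zero_mem _, fun a => absurd a q⟩
  choose l hl hl' using ex
  have inf : Tendsto (fun k => ‖t k‖) u atTop := tendsto_atTop.2 fun r => by
    by_contra q
    obtain ⟨x, -, hx⟩ := ulim u (isCompact_closedBall 0 r) (f := t)
      ((Ultrafilter.eventually_not.2 q).mono fun k q =>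
        mem_closedBall_zero_iff.2 (le_of_not_ge q))
    have x1 : Far D δ x := (far_closed D δ).mem_of_tendsto hx (ne.mono fun k q => (ht k q).1.2.1)
    have x2 := ge_of_tendsto (cg.d2 cg' (x1.notMem δ0) hx) (ne.mono fun k q => (ht k q).1.2.2)
    rw [d2_self (cg.lh.ne (x1.notMem δ0))] at x2
    exact absurd x2 δ0.not_ge
  obtain ⟨G, hG, cG⟩ := hC u (fun k w => g k (w + l k)) fun k => hI.2 _ (hg k).1 _ (hl k)
  obtain ⟨G', hG', cG'⟩ := hC' u (fun k w => g' k (w + l k)) fun k => hI'.2 _ (hg k).2 _ (hl k)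
  obtain ⟨τ, -, hτ⟩ := ulim u (isCompact_closedBall 0 R) (f := fun k => t k - l k)
    (ne.mono fun k q => mem_closedBall_zero_iff.2 (hl' k (ht k q).1.1))
  have pos := inf.eventually_gt_atTop 0
  obtain ⟨v, hv, tv⟩ := ulim u (isCompact_sphere 0 1) (f := fun k => t k / (‖t k‖ : ℝ)) (by
    filter_upwards [pos] with k hk
    rw [mem_sphere_zero_iff_norm, norm_div, Complex.norm_real, norm_norm, div_self hk.ne'])
  have x1 : Far D δ τ := (far_closed D δ).mem_of_tendsto hτ (ne.mono fun k q =>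
    (far_shift h (hl k)).1 (by simpa only [sub_add_cancel] using (ht k q).1.2.1))
  have far : δ ≤ d2 (G τ) (G' τ) := by
    refine ge_of_tendsto (cG.d2 cG' (x1.notMem δ0) hτ) ?_
    filter_upwards [ne] with k hk
    simpa only [sub_add_cancel] using (ht k hk).1.2.2
  have v0 : v.re = 0 := by
    refine tendsto_nhds_unique ((Complex.continuous_re.tendsto _).comp tv)
      (squeeze_zero_norm' ?_ ((tendsto_const_nhds (x := M)).div_atTop inf))
    filter_upwards [ne, pos] with k k1 k2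
    rw [Function.comp, Complex.div_ofReal_re, norm_div, norm_norm]
    exact div_le_div_of_nonneg_right (ht k k1).1.1 k2.le
  have v1 : -v.im = 1 ∨ -v.im = -1 := by
    have e := mem_sphere_zero_iff_norm.1 hv
    rw [← Complex.abs_im_eq_norm.2 v0] at e
    exact (eq_or_eq_neg_of_abs_eq ((abs_neg _).trans e))
  refine ⟨G, G', hG, hG', ⟨-v.im, -v.im * τ.im, v1, fun w hm hw hf => ?_⟩, τ, fun pp => ?_⟩
  · refine le_of_tendsto (cG.d2 cG' (hf.notMem δ0) (tendsto_const_nhds (x := w))) ?_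
    have a1 : Tendsto (fun k => w - (t k - l k)) u (𝓝 (w - τ)) := tendsto_const_nhds.sub hτ
    have a2 := (((Complex.continuous_re.tendsto _).comp (a1.mul
      ((Complex.continuous_conj.tendsto _).comp tv))).const_mul 2).add
      ((a1.norm.pow 2).mul inf.inv_tendsto_atTop)
    have a3 : 2 * ((w - τ) * conj v).re + ‖w - τ‖ ^ 2 * 0 < 0 := by
      simp only [Complex.mul_re, Complex.conj_re, Complex.conj_im, v0, Complex.sub_im]
      linarith
    filter_upwards [ne, pos, a2.eventually_lt_const a3] with k k1 k2 k3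
    refine le_of_not_ge fun q => (ht k k1).2 (w + l k) ?_ ⟨(D.L.re_add (hl k) w).symm ▸ hm,
      (far_shift h (hl k)).2 hf, q⟩
    have e : w + l k = t k + (w - (t k - l k)) := by ring
    rw [e]
    exact FinX.norm_lt k2 k3
  · rw [(d2_eq_zero ((hI.1 G hG).1.ne trivial) ((hI'.1 G' hG').1.ne trivial)).2 pp] at far
    exact absurd far δ0.not_ge

open SepX in
theorem cont : ContStmt := by
  intro n D Q d t y y' ε hQ ⟨a, j, O, Y, c, z, z1, z2⟩ y1 hZ ε0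
  have hU := cone_pp hZ.2.1 z2.symm
  have y0 : y ≠ 0 := z2.ne (c.ne z1)
  have ez : y a / y j = z := c.div z1 z2
  obtain ⟨u1, u2⟩ := uu_chart c hQ z1 hU z2
  have q0 := u1.1 hZ.2.2.2
  have c0 : Tendsto (fun q : V n × V n => ((t, q.1) : Pt n)) (𝓝 (y, y')) (𝓝 (t, y)) :=
    Continuous.tendsto' (by fun_prop) _ _ rfl
  have c1 : Tendsto (fun q : V n × V n => ((t, q.1 a / q.1 j) : ℂ × ℂ)) (𝓝 (y, y')) (𝓝 (t, z)) :=
    (c.tend z1 z2).comp c0
  have c2 : Tendsto (fun q : V n × V n => d2 q.1 q.2) (𝓝 (y, y')) (𝓝 (d2 y y')) := d2_cont y0 y1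
  have c3 : Tendsto (fun p => lamv (Y p) (dz Y p)) (𝓝 (t, z))
      (𝓝 (lamv (Y (t, z)) (dz Y (t, z)))) :=
    Tendsto.comp (g := fun q : V n × V n => lamv q.1 q.2) (f := fun p => (Y p, dz Y p))
      (lamv_cont (c.ne z1) _)
      ((c.an z1).continuousAt.tendsto.prodMk_nhds (dz_an (c.an z1)).continuousAt)
  have c4 := (D.frm.qq_an c z1 hU Q).continuousAt.tendsto.comp c1
  have p1 := d2_pos y0 y1 hZ.2.2.1
  have c5 := (((c2.log p1.ne').sub ((c3.comp c1).log (LocX.lamv_pos (c.wg_ne z1)).ne')).const_mul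
    (3 * ((D.m : ℝ) * d))).add (((c4.norm.log (norm_ne_zero_iff.2 q0)).const_mul 6).add_const
      (log (H4.sq ![D.L.wp t, D.L.wq t, 1])))
  have key : ∀ᶠ q : V n × V n in 𝓝 (y, y'), (t, q.1) ∈ D.X → (t, q.1) ∈ Rx D.X ∧
      Zp D Q t q.1 q.2 ∧ uu D Q d t y y' ≤ uu D Q d t q.1 q.2 + ε := by
    filter_upwards [c0.eventually (c.ev D.cn z1 z2), c1.eventually (D.ev_chart c z1 hU),
      c2.eventually_ne p1.ne', c4.eventually_ne q0,
      c5.eventually_const_lt (sub_lt_self _ ε0),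
      (continuous_snd.tendsto (y, y')).eventually_ne y1] with q k1 k2 k3 k4 k5 k6 hx
    obtain ⟨m1, m2, m3⟩ := k1 hx
    have pp : Pp q.1 (Y (t, q.1 a / q.1 j)) := ⟨_, m1, m3⟩
    obtain ⟨v1, v2⟩ := uu_chart c hQ m2 k2.2 pp
    refine ⟨c.rx m2 pp, ⟨hZ.1, cone_pp k2.2 pp, fun r => k3
      ((d2_eq_zero (D.cn.nz _ hx) k6).2 r), v1.2 k4⟩, ?_⟩
    rw [u2 q0, v2 k4]
    exact (sub_lt_iff_lt_add.1 k5).le
  rw [nhds_prod_eq, eventually_prod_iff] at key
  obtain ⟨pa, ha, pb, hb, key⟩ := key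
  obtain ⟨η, η0, hη⟩ := near_of_d2 y0 ha
  obtain ⟨η', η0', hη'⟩ := near_of_d2 y1 hb
  refine ⟨min η η', lt_min η0 η0', fun w w' hw w1 h1 h2 => ?_⟩
  obtain ⟨x, x1, x2⟩ := hη w (D.cn.nz _ hw) (h1.trans (min_le_left _ _))
  obtain ⟨x', x1', x2'⟩ := hη' w' w1 (h2.trans (min_le_right _ _))
  obtain ⟨r1, r2, r3⟩ := key x2 x2' (D.cn.pp hw x1.symm)
  obtain ⟨s1, s2⟩ := zp_pp hQ r1 x1 x1'
  exact ⟨s1.2 r2, (s2 r2).symm ▸ r3⟩

end Pool.Agent.MP_c69980_ag.E2.G3S
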