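import Pool.Agent.MP_c69980_ag.G3S.Base
import Pool.Agent.MP_c69980_ag.E2.VH

/-!
Open surfaces with a nonconstant unit: holomorphic vertical fields along sections.
-/

set_option autoImplicit false

noncomputable section

namespace Pool.Agent.MP_c69980_ag.E2.G3S

open MvPolynomial Metric Filter Topology Set
open H60 H4 E1

open VHX

theorem vfS : VFStmt := by
  intro n L X U m Φ O s v hX hN F o hs hv i t ht
  obtain ⟨h1, h2⟩ := nm_op.1 hs
  obtain ⟨b, j, U', Y, k, a1, e1⟩ := chart hX hN o h1 ht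
  have m0 := e1.self_of_nhds
  have a2 := AnalyticAt.comp (f := fun w => (w, s w b / s w j))
    (F.an b j U' Y k _ m0.1 (cone_pp (h2 t ht) m0.2.symm) i) a1
  have a3 := (differentiableOn_pi.1 hv.1 (j, b)).differentiableAt (o.mem_nhds ht)
  have a4 := (differentiableOn_pi.1 h1.1.1 j).differentiableAt (o.mem_nhds ht)
  have a5 := ((a3.div (a4.pow 2) (pow_ne_zero 2 (k.eq m0.1 m0.2).1)).pow m).mul a2.differentiableAt
  refine (a5.congr_of_eventuallyEq ?_).differentiableWithinAt
  filter_upwards [e1, o.mem_nhds ht] with w w1 w2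
  exact (F.vt' hX k w1.1 (cone_pp (h2 w w2) w1.2.symm) w1.2 (hv.2 w w2)).2 i

end Pool.Agent.MP_c69980_ag.E2.G3S
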