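import Pool.Agent.MP_c69980_ag.G3S.AH
import Pool.Agent.MP_c69980_ag.G3S.Alpha
import Pool.Agent.MP_c69980_ag.G3S.Bd
import Pool.Agent.MP_c69980_ag.G3S.Core
import Pool.Agent.MP_c69980_ag.G3S.Cpt
import Pool.Agent.MP_c69980_ag.G3S.Fib
import Pool.Agent.MP_c69980_ag.G3S.Gain
import Pool.Agent.MP_c69980_ag.G3S.Glue
import Pool.Agent.MP_c69980_ag.G3S.Hd
import Pool.Agent.MP_c69980_ag.G3S.Hyp
import Pool.Agent.MP_c69980_ag.G3S.Lim
import Pool.Agent.MP_c69980_ag.G3S.Lim0
import Pool.Agent.MP_c69980_ag.G3S.LocB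
import Pool.Agent.MP_c69980_ag.G3S.LocG
import Pool.Agent.MP_c69980_ag.G3S.LocL
import Pool.Agent.MP_c69980_ag.G3S.ND
import Pool.Agent.MP_c69980_ag.G3S.NDA
import Pool.Agent.MP_c69980_ag.G3S.Rat
import Pool.Agent.MP_c69980_ag.G3S.SecFin
import Pool.Agent.MP_c69980_ag.G3S.Sep
import Pool.Agent.MP_c69980_ag.G3S.Star
import Pool.Agent.MP_c69980_ag.G3S.VH
import Pool.Agent.MP_c69980_ag.E2.Hur
import Pool.Agent.MP_c69980_ag.E2.Pair
import Pool.Agent.MP_c69980_ag.E1.Bar
import Pool.Agent.MP_c69980_ag.E1.Chart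
import Pool.Agent.MP_c69980_ag.E1.Mon
import Pool.Agent.MP_c69980_ag.E1.Wind

/-!
Open surfaces with a nonconstant unit: assembly of the analytic rows over the strip.
-/

set_option autoImplicit false

namespace Pool.Agent.MP_c69980_ag.E2.G3S

open H60 H4 E1

theorem aHyp : HypStmt := hyp (fib logD prop E1.lift) E1.mon hur lat

theorem aAH : AHStmt := ah aHyp

theorem aExtB : ExtBStmt := extB mer lat

/-- Compactness off the bad values. -/
theorem aCpt : CptStmt :=
  cpt E1.mon aHyp hur (alpha tube near gen star (vhS E1.lift) fac vfS) ratS (extS mer aExtB) aExtB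
    E1.lift lat

theorem aAdm : AdmStmt := adm aCpt hur lat

theorem aCore : CoreStmt := core (pair wind fac) (vhS E1.lift) vfS near wind

theorem aLocB : LocBStmt := locB (limA aCore near) (limB aCore near wind) aCpt hur E1.lift lat

theorem aGlue : GlueStmt := glue (locL aLocB lim0 aAdm lat) (locG aCpt near lat) gain lat aAdm

theorem aSecFin : SecFinStmt := secFin lat

theorem aSep : SepStmt := sep lat

theorem aLM : LMStmt := lm lat

theorem aKey : KeyStmt := keyS aLM

theorem aBd : BdStmt := bd aAdm aLM aSep aSecFin lat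

theorem aFin : FinStmt := fin aAdm aLM aSep aSecFin lat

theorem aND : NDStmt :=
  nd (nrm lat) lat (nda (hd aHyp) aHyp inv aCpt lat aAdm) (ndb (hd aHyp) aHyp)

end Pool.Agent.MP_c69980_ag.E2.G3S
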