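import Pool.Agent.MP_c69980_ag.G3S.Base

/-!
Open surfaces with a nonconstant unit: invariance of the model, and sections in the boundary.
-/

set_option autoImplicit false

noncomputable section

namespace Pool.Agent.MP_c69980_ag.E2.G3S

open MvPolynomial Metric Filter Topology Set Real
open H60 H4 E1

variable {n : ℕ} {D : Fib n} {Q : PR 3} {d : ℕ} {s s' f f' g : ℂ → V n} {c l t : ℂ}
  {ρ r ε C C' : ℝ}

lemma Ap.mono (h : Ap D Q d s s' c ρ r ε C) (H : C ≤ C') : Ap D Q d s s' c ρ r ε C' := by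
  obtain ⟨G, E, a, b, e⟩ := h
  exact ⟨G, E, a, b, fun t ht => ⟨(e t ht).1.trans H, (e t ht).2⟩⟩

lemma Ap.pp (h : Ap D Q d s s' c ρ r ε C) (hQ : Q.IsHomogeneous d)
    (hx : ∀ t ∈ ball c (3 * ρ), (t, s t) ∈ Rx D.X) (h1 : ∀ t ∈ ball c (3 * ρ), Pp (f t) (s t))
    (h2 : ∀ t ∈ ball c (3 * ρ), Pp (f' t) (s' t)) : Ap D Q d f f' c ρ r ε C := by
  obtain ⟨G, E, a, b, e⟩ := h
  refine ⟨G, E, a, b, fun t ht => ⟨(e t ht).1, (e t ht).2.1, fun q => ?_⟩⟩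
  obtain ⟨e1, e2, e3⟩ := (e t ht).2.2 q
  obtain ⟨k1, k2⟩ := zp_pp hQ (hx t ht) (h1 t ht) (h2 t ht)
  exact ⟨e1, k1.trans e2, fun z => (k2 (k1.1 z)).trans (e3 (k1.1 z))⟩

lemma Ap.shift (h : Ap D Q d (fun t => s (t + l)) (fun t => s' (t + l)) c ρ r ε C)
    (hQ : Q.IsHomogeneous d) (hl : l ∈ D.L.lattice)
    (hx : ∀ t ∈ ball (c + l) (3 * ρ), (t, s t) ∈ Rx D.X) : Ap D Q d s s' (c + l) ρ r ε C := by
  obtain ⟨G, E, a, b, e⟩ := h
  have e0 : ∀ t, t + -l - c = t - (c + l) := fun t => by ring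
  have m : ∀ (t : ℂ) (R : ℝ), t + -l ∈ ball c R ↔ t ∈ ball (c + l) R := fun t R => by
    rw [mem_ball_iff_norm, mem_ball_iff_norm, e0]
  refine ⟨fun t => G (t + -l), fun t => E (t + -l),
    a.comp (differentiableOn_id.add_const _) fun t ht => (m t _).2 ht,
    b.comp (by fun_prop) fun t ht => ⟨(m t _).2 ht.1, fun q => ht.2 ((m t _).1 q)⟩,
    fun t ht => ?_⟩
  obtain ⟨e1, e2, e3⟩ := e _ ((m t _).2 ht)
  have k0 : t + -l ∈ D.L.lattice ↔ t ∈ D.L.lattice := add_mem_cancel_right (neg_mem hl)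
  refine ⟨e1, fun q => e2 (k0.2 q), fun q => ?_⟩
  obtain ⟨e4, e5, e6⟩ := e3 (by rwa [e0])
  simp only [neg_add_cancel_right] at e5 e6
  obtain ⟨k1, k2⟩ := zp_inv hQ (neg_mem hl) (hx t ht) (.refl (s t)) (.refl (s' t))
  refine ⟨e4, k1.symm.trans (by rwa [k0] at e5), fun z => ?_⟩
  rw [← k2 z, e6 (k1.2 z), bt_shift _ _ (neg_mem hl)]

/-- Near a boundary point over a good value the boundary is one graph. -/
lemma bd_graph (D : Fib n) {y : V n} (hy : (t, y) ∈ D.X) (hB : t ∉ D.B) (hU : y ∉ Cone D.U) :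
    ∃ γ : ℂ → V n, ∀ᶠ x in 𝓝 ((t, y) : Pt n), x ∈ D.X → x.2 ∉ Cone D.U → Pp x.2 (γ x.1) := by
  obtain ⟨a, j, O, Y, h, z, z1, z2⟩ := D.bad _ hy hB
  obtain ⟨ζ, φ, -, -, -, e⟩ := D.pole a j O Y h _ z1 hB fun q => hU (cone_pp q z2)
  refine ⟨fun w => Y (w, ζ w), ?_⟩
  filter_upwards [h.ev D.cn z1 z2, (h.tend z1 z2).eventually e] with x x1 x2 hx hn
  obtain ⟨k1, -, k2⟩ := x1 hx
  have k3 : Pp x.2 (Y (x.1, x.2 a / x.2 j)) := ⟨_, k1, k2⟩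
  have k4 : x.2 a / x.2 j = ζ x.1 := by_contra fun q => hn (cone_pp (x2.1.2 q) k3)
  rwa [k4] at k3

/-- A convergent sequence of sections in the boundary is eventually constant. -/
lemma bd_eq (D : Fib n) {u : Filter ℕ} [u.NeBot] {A A' : Set ℂ} {S : ℕ → ℂ → V n} (o : IsOpen A)
    (hc : IsPreconnected A) (hg : Sc D.X A g) (h : Cv u A' S g) (ht : t ∈ A) (ht' : t ∈ A')
    (hB : t ∉ D.B) (hS : ∀ᶠ k in u, Sc D.X A (S k) ∧ ∀ w ∈ A, S k w ∉ Cone D.U) :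
    ∀ᶠ k in u, ∀ w ∈ A, Pp (S k w) (g w) := by
  obtain ⟨r, F, G, r0, a, b, e, v⟩ := h t ht'
  have hF : ∀ᶠ k in u, ∀ w ∈ A, w ∈ ball t r → (w, F k w) ∈ D.X ∧ F k w ∉ Cone D.U := by
    filter_upwards [hS, e] with k k1 k2 w w1 w2
    exact ⟨D.cn.pp (k1.1.2 w w1) (k2.2 w w2).symm, fun q => k1.2 w w1 (cone_pp q (k2.2 w w2))⟩
  have hG : ∀ w ∈ A, w ∈ ball t r → (w, G w) ∈ D.X ∧ G w ∉ Cone D.U := fun w w1 w2 =>
    ⟨D.cn.pp (hg.2 w w1) (b w w2).symm, D.bd_lim (x := fun k => (w, F k w)) (v.tendsto_at w2)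
      (hF.mono fun k q => q w w1 w2)⟩
  obtain ⟨γ, hγ⟩ := bd_graph D (hG t ht (mem_ball_self r0)).1 hB (hG t ht (mem_ball_self r0)).2
  obtain ⟨ε, ε0, hε⟩ := Metric.eventually_nhds_iff.1 hγ
  have c1 : ∀ᶠ w in 𝓝 t, dist (G w) (G t) < ε / 2 :=
    (Crv.an a isOpen_ball (mem_ball_self r0)).continuousAt.eventually
      (ball_mem_nhds _ (half_pos ε0))
  filter_upwards [hS, e, hF, Metric.tendstoUniformlyOn_iff.1 v (ε / 2) (half_pos ε0)]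
    with k k1 k2 k3 k4
  refine (k1.1.1.iden_pp hg.1 hc).resolve_right fun q => ?_
  obtain ⟨w, w1, w2, w3, w4, w5⟩ := ((q t ht).and (nhdsWithin_le_nhds (c1.and
    ((o.eventually_mem ht).and (Eventually.and (ball_mem_nhds t r0) (ball_mem_nhds t ε0)))))).exists
  have p1 := hε (y := (w, F k w)) (by
    rw [Prod.dist_eq, max_lt_iff]
    refine ⟨w5, ?_⟩
    have := dist_triangle_left (F k w) (G t) (G w)
    linarith [k4 w w4]) (k3 w w3 w4).1 (k3 w w3 w4).2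
  have p2 := hε (y := (w, G w)) (by
    rw [Prod.dist_eq, max_lt_iff]
    exact ⟨w5, by linarith⟩) (hG w w3 w4).1 (hG w w3 w4).2
  exact w1 ((k2.2 w w4).trans (p1.trans (p2.symm.trans (b w w4).symm)))

/-- Global lifts of a sequence of sections on a smaller disc. -/
lemma seq_lift (h5 : E1.LiftStmt) {Z : Set (Pt n)}
    (hZ : ∀ t y w, (t, y) ∈ Z → Pp w y → (t, w) ∈ Z)
    {u : Filter ℕ} [u.NeBot] {R : ℝ} {S : ℕ → ℂ → V n} (hr : r < R)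
    (h : ∀ᶠ k in u, Sc Z (ball c R) (S k)) : ∃ F : ℕ → ℂ → V n,
      (∀ k, Nm Z (ball c r) (F k) id) ∧ ∀ᶠ k in u, ∀ w ∈ ball c r, Pp (F k w) (S k w) := by
  have key : ∀ k, Sc Z (ball c R) (S k) →
      ∃ F, Nm Z (ball c r) F id ∧ ∀ w ∈ ball c r, Pp (F w) (S k w) := fun k hk => by
    obtain ⟨F, a, b⟩ := h5 n (S k) c r R hr hk.1
    exact ⟨F, ⟨a, differentiableOn_id, fun w hw =>
      hZ _ _ _ (hk.2 w (ball_subset_ball hr.le hw)) (b w hw).symm⟩, fun w hw => (b w hw).symm⟩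
  obtain ⟨k0, h0⟩ := h.exists
  have : ∀ k, ∃ F, Nm Z (ball c r) F id ∧
      (Sc Z (ball c R) (S k) → ∀ w ∈ ball c r, Pp (F w) (S k w)) := fun k => by
    by_cases q : Sc Z (ball c R) (S k)
    · exact (key k q).imp fun F hF => ⟨hF.1, fun _ => hF.2⟩
    · exact (key k0 h0).imp fun F hF => ⟨hF.1, fun e => absurd e q⟩
  choose F a b using this
  exact ⟨F, a, h.mono b⟩

end Pool.Agent.MP_c69980_ag.E2.G3S
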