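import Pool.Agent.MP_c69980_ag.G3S.Lat

/-!
The ratios of the forms and the unit are quotients of forms.
-/

set_option autoImplicit false

namespace Pool.Agent.MP_c69980_ag.E2.G3S

open MvPolynomial H60 H4 E1

namespace RatPX

variable {K : Type} [Field K] [Algebra ℂ K] {n : ℕ}

lemma cross {z : Fin n → K} {y : Fin n → ℂ} (hy : On z y) {g g' : K} (hg : Reg z y g)
    (hg' : Reg z y g') {A A' : PR n} {e : ℕ} (hA : A.IsHomogeneous e) (hA' : A'.IsHomogeneous e)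
    (h : g * aeval z A = g' * aeval z A') : vl z g y * eval y A = vl z g' y * eval y A' := by
  obtain ⟨F, G, d, hF, hG, h1, rfl⟩ := hg
  obtain ⟨F', G', d', hF', hG', h1', rfl⟩ := hg'
  rw [div_mul_eq_mul_div, div_mul_eq_mul_div,
    div_eq_div_iff (fun q => h1 (hy _ _ hG q)) fun q => h1' (hy _ _ hG' q)] at h
  have := hy _ _ (((hF.mul hA).mul hG').sub
    ((show d' + e + d = d + e + d' by omega) ▸ (hF'.mul hA').mul hG)) (by
    rw [map_sub, map_mul, map_mul, map_mul, map_mul, h, sub_self])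
  rw [map_sub, map_mul, map_mul, map_mul, map_mul, sub_eq_zero] at this
  rw [vl_eq hy hF hG h1, vl_eq hy hF' hG' h1', div_mul_eq_mul_div, div_mul_eq_mul_div,
    div_eq_div_iff h1 h1', this]

lemma h0_ne (d : Dat K n) : d.h 0 ≠ 0 := fun h =>
  d.ind.transcendental 0 (by simpa [h] using isAlgebraic_zero)

lemma rat (h3 : AlgAStmt) (d : Dat K n) {Φ : Fin 3 → Pt n → V n → ℂ} (hΦ : Lk0 d Φ) :
    RatP d.X d.Uo Φ := by
  obtain ⟨F₁, G₁, e₁, hF₁, hG₁, n₁, q₁⟩ := quot d.gen (d.h 1 / d.h 0)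
  obtain ⟨F₂, G₂, e₂, hF₂, hG₂, n₂, q₂⟩ := quot d.gen (d.h 2 / d.h 0)
  rw [div_eq_div_iff (h0_ne d) n₁] at q₁
  rw [div_eq_div_iff (h0_ne d) n₂] at q₂
  have hom : ∀ l, ((![G₁ * G₂, F₁ * G₂, G₁ * F₂] : Fin 3 → PR n) l).IsHomogeneous (e₁ + e₂) :=
    fun l => by
      fin_cases l
      exacts [hG₁.mul hG₂, hF₁.mul hG₂, hG₁.mul hF₂]
  have key : ∀ l, d.h l * aeval d.z (G₁ * G₂) =
      d.h 0 * aeval d.z ((![G₁ * G₂, F₁ * G₂, G₁ * F₂] : Fin 3 → PR n) l) := fun l => by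
    fin_cases l
    · rfl
    · change d.h 1 * _ = _ * aeval d.z (F₁ * G₂)
      rw [map_mul, map_mul]
      linear_combination aeval d.z G₂ * q₁
    · change d.h 2 * _ = _ * aeval d.z (G₁ * F₂)
      rw [map_mul, map_mul]
      linear_combination aeval d.z G₁ * q₂
  refine ⟨_, _, hom, ((h3 K n d).1 _ _ (hom 0)).2 ?_, fun a j O Y hc p hp hU l => ?_⟩
  · change aeval d.z (G₁ * G₂) ≠ 0
    rw [map_mul]
    exact mul_ne_zero n₁ n₂
  · obtain ⟨a', b', j', κ, -, -, h1⟩ := hΦ a j O Y hc p hp hU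
    rw [(h1 l).2, (h1 0).2, mul_assoc, mul_assoc]
    refine congrArg (κ * ·) (cross (Cone.on d.gen (hc.2.2 p hp).2.2.1.1) (h1 l).1 (h1 0).1
      (hom 0) (hom l) ?_)
    rw [div_mul_eq_mul_div, div_mul_eq_mul_div, ← key l]
    rfl

lemma up (h3 : AlgAStmt) (d : Dat K n) : UP d.X := by
  obtain ⟨F, G, e, hF, hG, n₁, q⟩ := quot d.gen d.u
  refine ⟨F, G, e, hF, hG, ((h3 K n d).1 _ _ hF).2 fun h => d.nc 0 ?_, ((h3 K n d).1 _ _ hG).2 n₁,
    fun x hx => ?_⟩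
  · rw [q, h, zero_div, map_zero]
  · have hy := Cone.on d.gen hx.1
    have := cross hy hx.2.1 (vl_const hy 1).1 hG hF (by
      rw [map_one, one_mul, q, div_mul_cancel₀ _ n₁])
    rwa [hx.2.2, (vl_const hy 1).2, one_mul] at this

end RatPX

theorem ratP (_h1 : CovStmt) (h3 : AlgAStmt) : RatPStmt :=
  fun _ _ _ _ d _ hΦ => ⟨RatPX.rat h3 d hΦ, RatPX.up h3 d⟩

end Pool.Agent.MP_c69980_ag.E2.G3S
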