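import Pool.Agent.MP_c69980_ag.E2.BaseB

/-!
Open surfaces with a nonconstant unit: the analytic package over the strip and the analytic
statements. The base is the universal cover of the punctured plane, the lattice is `2 π i ℤ`.
-/

set_option autoImplicit false

noncomputable section

namespace Pool.Agent.MP_c69980_ag.E2.G3S

open MvPolynomial Metric Filter Topology MeasureTheory Set
open scoped ENNReal ComplexConjugate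
open H60 H4 E1

variable {n : ℕ}

/-- The base. -/
structure Bas : Type

/-- The periods. -/
def Bas.lattice (_ : Bas) : Submodule ℤ ℂ := Submodule.span ℤ {2 * Real.pi * Complex.I}

/-- A coordinate with poles at the periods. -/
def Bas.wp (_ : Bas) (t : ℂ) : ℂ := (Complex.exp t - 1)⁻¹

/-- Its derivative. -/
def Bas.wq (_ : Bas) (t : ℂ) : ℂ := -Complex.exp t / (Complex.exp t - 1) ^ 2

/-- The bad values. -/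
def Bad (L : Bas) (S : Finset ℂ) : Set ℂ := {t | t ∈ L.lattice ∨ L.wp t ∈ S}

/-- The pull-back `X` of the cone over an open part of `W` to the universal cover of the base. -/
structure Cov (L : Bas) (W : Set (PS n)) (X : Set (Pt n)) : Prop where
  cn : Cn X
  cone : ∀ y, (∃ t, (t, y) ∈ X) → y ∈ Cone W
  per : ∀ x ∈ X, ∀ l ∈ L.lattice, (x.1 + l, x.2) ∈ X
  uniq : ∀ t t' y, (t, y) ∈ X → (t', y) ∈ X → t - t' ∈ L.lattice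
  loc : ∀ x ∈ X, ∃ T : V n → ℂ, AnalyticAt ℂ T x.2 ∧ T x.2 = x.1 ∧
    (∀ᶠ y in 𝓝 x.2, y ∈ Cone W → (T y, y) ∈ X) ∧ ∀ᶠ x' in 𝓝 x, x' ∈ X → x'.1 = T x'.2

/-- Relative pluricanonical forms, holomorphic over `U`. -/
structure Frm (L : Bas) (X : Set (Pt n)) (U : Set (PS n)) (m : ℕ)
    (Φ : Fin 3 → Pt n → V n → ℂ) : Prop where
  m0 : 0 < m
  an : ∀ a j O Y, Chart X a j O Y → ∀ p ∈ O, Y p ∈ Cone U → ∀ i, AnalyticAt ℂ (fc Φ Y i) p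
  hom : ∀ a j O Y, Chart X a j O Y → ∀ p ∈ O, Y p ∈ Cone U → ∀ l ∈ L.lattice,
    ∀ (c α β : ℂ) (i : Fin 3), c ≠ 0 →
      Φ i (p.1 + l, c • Y p) (α • dz Y p + β • Y p) = (α / c) ^ m * fc Φ Y i p

section props

variable (L : Bas) (X : Set (Pt n)) (U : Set (PS n)) (m : ℕ) (Φ : Fin 3 → Pt n → V n → ℂ)
  (S : Finset ℂ)

/-- The open part lies over the base. -/
def OntoP : Prop := ∀ y ∈ Cone U, ∃ t, (t, y) ∈ X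

def BadP : Prop := ∀ x ∈ X, x.1 ∉ Bad L S → x ∈ Rx X

def DropP : Prop := ∀ B a j, NZ X B → ∃ P : Polynomial (Polynomial ℂ), P ≠ 0 ∧ ∀ x ∈ X,
  x.1 ∉ L.lattice → x.2 j ≠ 0 → eval x.2 B = 0 → P.evalEval (L.wp x.1) (x.2 a / x.2 j) = 0

def BadfP : Prop := ∃ B, NZ X B ∧ ∀ x ∈ X, x.1 ∈ Bad L S → eval x.2 B = 0

def VanQ (Q : PR 3) : Prop := ∀ a j O Y, Chart X a j O Y →
  ∀ p ∈ O, Y p ∈ Cone U → p.1 ∈ L.lattice → qq Φ Q Y p = 0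

def VanP : Prop := ∃ (Q : PR 3) (d : ℕ), 0 < d ∧ Q.IsHomogeneous d ∧ Q ≠ 0 ∧ VanQ L X U Φ Q

def VertP : Prop := ∀ t ∉ Bad L S, ∀ a j O Y, Chart X a j O Y → ∀ c : Fin 3 → ℂ,
  {ζ | (t, ζ) ∈ O ∧ Y (t, ζ) ∈ Cone U ∧ ∃ κ : ℂ, ∀ l, fc Φ Y l (t, ζ) = κ * c l}.Finite

/-- Over good values the boundary is a union of graphs, and the poles have order at most `m`. -/
def PoleP : Prop := ∀ a j O Y, Chart X a j O Y → ∀ p ∈ O, p.1 ∉ Bad L S → Y p ∉ Cone U →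
  ∃ (ζ : ℂ → ℂ) (φ : Fin 3 → ℂ × ℂ → ℂ), AnalyticAt ℂ ζ p.1 ∧ ζ p.1 = p.2 ∧
    (∀ i, AnalyticAt ℂ (φ i) p) ∧ ∀ᶠ q in 𝓝 p, (Y q ∈ Cone U ↔ q.2 ≠ ζ q.1) ∧
      (q.2 ≠ ζ q.1 → ∀ i, φ i q = (q.2 - ζ q.1) ^ m * fc Φ Y i q)

/-- The winding number of the function of a pair is nonnegative (limit not in the boundary). -/
def WindP : Prop := ∀ (Q : PR 3) (d : ℕ) (u : Ultrafilter ℕ) (b : ℂ) (r : ℝ)
  (s s' : ℕ → ℂ → V n) (g : ℂ → V n) (a j : Fin n) (O : Set (ℂ × ℂ)) (Y : ℂ × ℂ → V n), 0 < d →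
  Q.IsHomogeneous d → Bs X U u b r s g a j O Y → Bs X U u b r s' g a j O Y →
  (∃ t ∈ ball b r, g t ∈ Cone U) → ∃ ρ₀ : ℝ, 0 < ρ₀ ∧ ∀ ρ₁ : ℝ, 0 < ρ₁ → ∀ᶠ k in u,
    ∀ ρ ∈ Icc ρ₁ ρ₀, ∀ w : ℤ, Wn b ρ (Gf Φ Q (m * d) a j Y (s k) (s' k)) w →
      0 ≤ w ∧ (b ∈ L.lattice → VanQ L X U Φ Q → 1 ≤ w)

/-- The same for a limit in the boundary, paired with the limit itself. -/
def WindBP : Prop := ∀ (Q : PR 3) (d : ℕ) (u : Ultrafilter ℕ) (b : ℂ) (r : ℝ)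
  (s : ℕ → ℂ → V n) (g : ℂ → V n) (a j : Fin n) (O : Set (ℂ × ℂ)) (Y : ℂ × ℂ → V n), 0 < d →
  Q.IsHomogeneous d → Bs X U u b r s g a j O Y →
  (∀ t ∈ ball b r, g t ∉ Cone U) → ∃ ρ₀ : ℝ, 0 < ρ₀ ∧ ∀ ρ₁ : ℝ, 0 < ρ₁ → ∀ᶠ k in u,
    ∀ ρ ∈ Icc ρ₁ ρ₀, ∀ w : ℤ, Wn b ρ (Gf Φ Q (m * d) a j Y (s k) g) w →
      0 ≤ w ∧ (b ∈ L.lattice → VanQ L X U Φ Q → 1 ≤ w)

/-- The ratios of the forms are rational functions. -/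
def RatP : Prop := ∃ (A : Fin 3 → PR n) (e : ℕ), (∀ l, (A l).IsHomogeneous e) ∧ NZ X (A 0) ∧
  ∀ a j O Y, Chart X a j O Y → ∀ p ∈ O, Y p ∈ Cone U → ∀ l,
    fc Φ Y l p * eval (Y p) (A 0) = fc Φ Y 0 p * eval (Y p) (A l)

/-- The function `exp t` is the quotient of two forms. -/
def UQ (P₀ P₁ : PR n) (e : ℕ) : Prop := P₀.IsHomogeneous e ∧ P₁.IsHomogeneous e ∧ NZ X P₀ ∧
  NZ X P₁ ∧ ∀ x ∈ X, Complex.exp x.1 * eval x.2 P₁ = eval x.2 P₀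

def UP : Prop := ∃ P₀ P₁ e, UQ X P₀ P₁ e

end props

/-- The analytic package. -/
structure Fib (n : ℕ) where
  L : Bas
  W : Set (PS n)
  U : Set (PS n)
  X : Set (Pt n)
  m : ℕ
  Φ : Fin 3 → Pt n → V n → ℂ
  S : Finset ℂ
  cov : Cov L W X
  eqp : EqP W U
  frm : Frm L X U m Φ
  nonreg : NonregP X
  bad : BadP L X S
  prime : PrimeP X
  drop : DropP L X
  big : BigP X
  badf : BadfP L X S
  cls : ClsP X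
  zero : ZeroP X U Φ
  alg : AlgP X U Φ
  van : VanP L X U Φ
  vert : VertP L X U Φ S
  bdy : BdyP X U
  pole : PoleP L X U m Φ S
  wind : WindP L X U m Φ
  windB : WindBP L X U m Φ
  deg : DegP X U
  onto : OntoP X U
  rat : RatP X U Φ
  up : UP X

/-- The open part. -/
abbrev Fib.Xo (D : Fib n) : Set (Pt n) := Op D.X D.U

/-- The bad values. -/
abbrev Fib.B (D : Fib n) : Set ℂ := Bad D.L D.S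

def Far (D : Fib n) (η : ℝ) (t : ℂ) : Prop := ∀ b ∈ D.B, η ≤ ‖t - b‖

/-! ### Rows Lat, Gain, Nrm: the base -/

def LatStmt : Prop := ∀ L : Bas,
  (∀ M : ℝ, ∃ R : ℝ, 0 < R ∧ ∀ t : ℂ, |t.re| ≤ M → ∃ l ∈ L.lattice, ‖t - l‖ ≤ R) ∧
  (∀ (p : Polynomial ℂ) (t₀ : ℂ), p ≠ 0 →
    ∀ᶠ t in 𝓝[≠] t₀, t ∉ L.lattice ∧ p.eval (L.wp t) ≠ 0) ∧
  ∀ S : Finset ℂ, (∀ t ∈ Bad L S, ∀ l ∈ L.lattice, t + l ∈ Bad L S) ∧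
    (∃ r : ℝ, 0 < r ∧ ∀ t ∈ Bad L S, ∀ t' ∈ Bad L S, t ≠ t' → r ≤ ‖t - t'‖) ∧
    ∀ t₀, ∃ r : ℝ, 0 < r ∧ ∀ t ∈ Bad L S, ‖t - t₀‖ ≤ r → t = t₀

/-- The potential on the base. -/
def bt (L : Bas) (g : ℂ → ℂ) (t : ℂ) : ℝ :=
  6 * Real.log ‖g t‖ + Real.log (H4.sq ![L.wp t, L.wq t, 1])

def GainStmt : Prop := ∀ L : Bas, ∃ ρ₀ : ℝ, 0 < ρ₀ ∧ ∀ M : ℝ, ∃ c : ℝ, 0 < c ∧
  ∀ ρ, 0 < ρ → ρ ≤ ρ₀ → ∃ C : ℝ, ∀ (t₀ : ℂ) (g : ℂ → ℂ) (A : ℝ), |t₀.re| ≤ M →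
    DifferentiableOn ℂ g (ball t₀ (2 * ρ)) →
    (∀ t ∈ ball t₀ (2 * ρ), ‖g t‖ ≤ A ∧ (t ∈ L.lattice → g t = 0)) →
    (∀ t ∈ ball t₀ ρ, t ∉ L.lattice → g t ≠ 0 → bt L g t ≤ 6 * Real.log A + C) ∧
    (t₀ ∉ L.lattice → g t₀ ≠ 0 → (∀ᵐ t, t ∈ ball t₀ ρ → t ∉ L.lattice ∧ g t ≠ 0) ∧
      IntegrableOn (bt L g) (ball t₀ ρ) ∧
      Real.pi * ρ ^ 2 * (bt L g t₀ + c * ρ ^ 2) ≤ ∫ t in ball t₀ ρ, bt L g t)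

/-- Discs in the open part lift to the cover. -/
def NrmStmt : Prop := ∀ (n : ℕ) (D : Fib n) (F : ℂ → V n) (c : ℂ) (r : ℝ), Dk D.U c r F →
  ∃ h, Nm D.Xo (ball c r) F h

/-! ### Rows Star, Fib, Hyp: hyperbolicity away from the bad fibres -/

/-- The values of the forms on such a field are holomorphic. -/
def VFStmt : Prop := ∀ (n : ℕ) (L : Bas) (X : Set (Pt n)) (U : Set (PS n)) (m : ℕ)
  (Φ : Fin 3 → Pt n → V n → ℂ) (O : Set ℂ) (s v : ℂ → V n), Cn X → NonregP X → Frm L X U m Φ →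
  IsOpen O → Nm (Op X U) O s id → VH X O s v →
  ∀ i, DifferentiableOn ℂ (fun t => Φ i (t, s t) (v t)) O

/-- The adjunction identity for two sections in `U` that lie in one class. -/
def StarStmt : Prop := ∀ (n : ℕ) (D : Fib n) (a j : Fin n) (O : Set (ℂ × ℂ)) (Y : ℂ × ℂ → V n)
  (c : ℂ) (ρ r : ℝ) (s s' σ v v' : ℂ → V n) (i : Fin 3) (k k' I J : ℕ), 0 < ρ → ρ < r →
  Pun D.X c ρ → Chart D.X a j O Y → Nm D.Xo (ball c r) s id → Nm D.Xo (ball c r) s' id →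
  Nm D.X (ball c r) σ id → Tb a j O Y c ρ s s' →
  (∀ q ∈ Bn c ρ, Y (q.2, zb a j s s' q) ∈ Cone D.U ∧ fc D.Φ Y i (q.2, zb a j s s' q) ≠ 0 ∧
    ¬Pp (σ q.2) (Y (q.2, zb a j s s' q))) →
  Cl D.X c (σ c) (s c) → Cl D.X c (σ c) (s' c) → VL D.X c ρ s v → VL D.X c ρ s' v' →
  Zv c ρ (fun t => D.Φ i (t, s t) (v t)) k → Zv c ρ (fun t => D.Φ i (t, s' t) (v' t)) k' →
  Zv c ρ (fun t => wg (σ t) (s t)) I → Zv c ρ (fun t => wg (σ t) (s' t)) J →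
  k + D.m * (I + I) = k' + D.m * (J + J)

/-- Entire curves in the open parts of good fibres with bounded derivative are constant. -/
def FibStmt : Prop := ∀ (n : ℕ) (D : Fib n) (G : ℂ → V n) (t : ℂ) (A : ℝ), t ∉ D.B →
  LH univ G → (∀ w, (t, G w) ∈ D.Xo) →
  (∀ c r g, Crv (ball c r) g → (∀ w ∈ ball c r, Pp (G w) (g w)) → ∀ w ∈ ball c r, lam g w ≤ A) →
  ∀ r g, 0 < r → Crv (ball 0 r) g → (∀ w ∈ ball (0 : ℂ) r, Pp (G w) (g w)) → lam g 0 = 0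

def HypStmt : Prop := ∀ (n : ℕ) (D : Fib n) (η M : ℝ), 0 < η → ∃ A : ℝ, 0 < A ∧
  ∀ (F : ℂ → V n) (h : ℂ → ℂ) (c : ℂ) (r : ℝ), 0 < r → Nm D.Xo (ball c r) F h →
    (∀ z ∈ ball c r, Far D η (h z) ∧ |(h z).re| ≤ M) → lam F c * r ^ 2 ≤ A

/-! ### Rows Alpha, Rat, Cpt: limits extend over the bad values -/

/-- A sequence of sections over a disc that converges on the punctured disc. -/
def Sq (D : Fib n) (u : Ultrafilter ℕ) (c : ℂ) (r : ℝ) (s : ℕ → ℂ → V n) (g : ℂ → V n) : Prop :=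
  0 < r ∧ Pun D.X c r ∧ (∀ k, Nm D.Xo (ball c r) (s k) id) ∧ Sc D.Xo (ball c r \ {c}) g ∧
    Cv u (ball c r \ {c}) s g ∧ ∃ y, ∀ᶠ k in u, Cl D.X c y (s k c)

/-- The value of the form `i` at the point `y` over `t`. -/
def ph (D : Fib n) (i : Fin 3) (t : ℂ) (y : V n) : ℂ := D.Φ i (t, y) (tv D.X (t, y))

/-- The ratios of the forms along `g` are meromorphic at `c`. -/
def Rat (D : Fib n) (c : ℂ) (g : ℂ → V n) : Prop :=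
  ∃ (i : Fin 3) (G : Fin 3 → ℂ → ℂ) (M : ℕ), (∀ l, AnalyticAt ℂ (G l) c) ∧
    ∀ᶠ t in 𝓝[≠] c, ∀ l, (t - c) ^ M * ph D l t (g t) = G l t * ph D i t (g t)

/-- The numbers of zeros of one form along the sections are bounded. -/
def Bz (D : Fib n) (u : Ultrafilter ℕ) (c : ℂ) (r : ℝ) (s : ℕ → ℂ → V n) : Prop :=
  ∃ (ρ A : ℝ) (i : Fin 3) (M : ℕ), 0 < ρ ∧ ρ < r ∧ ∀ᶠ k in u, ∃ v, VH D.X (ball c ρ) (s k) v ∧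
    (∀ l, ContinuousOn (fun t => D.Φ l (t, s k t) (v t)) (closedBall c ρ)) ∧
    Zv c ρ (fun t => D.Φ i (t, s k t) (v t)) M ∧
    ∀ l, ∀ t ∈ sphere c ρ, ‖D.Φ l (t, s k t) (v t)‖ ≤ A * ‖D.Φ i (t, s k t) (v t)‖

def AlphaStmt : Prop := ∀ (n : ℕ) (D : Fib n) (u : Ultrafilter ℕ) (c : ℂ) (r : ℝ)
  (s : ℕ → ℂ → V n) (g : ℂ → V n), Sq D u c r s g →
  (∃ t ∈ ball c r \ {c}, ∃ i, ph D i t (g t) ≠ 0) → Ext c g ∨ Bz D u c r s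

def RatStmt : Prop := ∀ (n : ℕ) (D : Fib n) (u : Ultrafilter ℕ) (c : ℂ) (r : ℝ)
  (s : ℕ → ℂ → V n) (g : ℂ → V n), Sq D u c r s g → Bz D u c r s → Rat D c g

/-- Sections inside a curve extend. -/
def ExtBStmt : Prop := ∀ (n : ℕ) (D : Fib n) (c : ℂ) (r : ℝ) (g : ℂ → V n) (B : PR n), 0 < r →
  Sc D.X (ball c r \ {c}) g → NZ D.X B → (∀ t ∈ ball c r \ {c}, eval (g t) B = 0) → Ext c g

def ExtStmt : Prop := ∀ (n : ℕ) (D : Fib n) (c : ℂ) (r : ℝ) (g : ℂ → V n), 0 < r →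
  Sc D.Xo (ball c r \ {c}) g → (∃ t ∈ ball c r \ {c}, ∃ i, ph D i t (g t) ≠ 0) → Rat D c g →
  Ext c g

/-- Compactness for the convergence off the bad values. -/
def CptStmt : Prop := ∀ (n : ℕ) (D : Fib n) (u : Ultrafilter ℕ) (O : Set ℂ) (s : ℕ → ℂ → V n),
  IsOpen O → (∀ t ∈ O, ∃ r : ℝ, 0 < r ∧ ∀ᶠ k in u, Sc D.Xo (ball t r) (s k)) →
  ∃ g, Sc D.X O g ∧ Cv u (O \ D.B) s g

/-! ### Row Adm: admissible sections -/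

/-- Entire sections that are limits of sections in `U`. -/
def Adm (D : Fib n) (g : ℂ → V n) : Prop := Sc D.X univ g ∧ ∀ R ε : ℝ, 0 < ε →
  ∃ s, Sc D.Xo (ball 0 R) s ∧ ∀ t ∈ ball (0 : ℂ) R, Far D ε t → d2 (s t) (g t) ≤ ε

/-- Inside the boundary. -/
def InB (D : Fib n) (g : ℂ → V n) : Prop := ∀ t, g t ∉ Cone D.U

/-- A class of entire sections that is invariant under the periods. -/
def Inv (D : Fib n) (P : (ℂ → V n) → Prop) : Prop :=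
  (∀ g, P g → Sc D.X univ g) ∧ ∀ g, P g → ∀ l ∈ D.L.lattice, P fun t => g (t + l)

/-- A compact class. -/
def Cp (D : Fib n) (P : (ℂ → V n) → Prop) : Prop := ∀ (u : Ultrafilter ℕ) (g : ℕ → ℂ → V n),
  (∀ k, P (g k)) → ∃ G, P G ∧ Cv u D.Bᶜ g G

def AdmStmt : Prop := ∀ (n : ℕ) (D : Fib n), Inv D (Adm D) ∧ Cp D (Adm D) ∧
  (∀ (u : Ultrafilter ℕ) (s : ℕ → ℂ → V n) (g : ℂ → V n),
    (∀ R : ℝ, ∀ᶠ k in u, Sc D.Xo (ball 0 R) (s k)) → Sc D.X univ g → Cv u D.Bᶜ s g → Adm D g) ∧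
  ∀ g, Adm D g → InB D g ∨ ∀ t ∉ D.B, g t ∈ Cone D.U

/-! ### Rows Core, Lim, LocB, LocG: the local models -/

/-- The value of the form `Q (Φ)`. -/
def Uq (D : Fib n) (Q : PR 3) (t : ℂ) (y : V n) : ℂ := eval (fun l => ph D l t y) Q

def uu (D : Fib n) (Q : PR 3) (d : ℕ) (t : ℂ) (y y' : V n) : ℝ :=
  3 * (D.m * d) * (Real.log (d2 y y') - Real.log (lamv y (tv D.X (t, y)))) +
    bt D.L (fun _ => Uq D Q t y) t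

def Zp (D : Fib n) (Q : PR 3) (t : ℂ) (y y' : V n) : Prop :=
  t ∉ D.L.lattice ∧ y ∈ Cone D.U ∧ ¬Pp y y' ∧ Uq D Q t y ≠ 0

/-- The form `Q (Φ)` has positive degree and vanishes over the lattice. -/
def QV (D : Fib n) (Q : PR 3) (d : ℕ) : Prop :=
  0 < d ∧ Q.IsHomogeneous d ∧ VanQ D.L D.X D.U D.Φ Q

/-- The point `y` is away from the boundary of the fibre over `t`. -/
def Aw (D : Fib n) (η : ℝ) (t : ℂ) (y : V n) : Prop :=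
  ∀ y', (t, y') ∈ D.X → y' ∉ Cone D.U → η ≤ d2 y y'

/-- A holomorphic model `G` of `uu` outside a small disc. -/
def Ap (D : Fib n) (Q : PR 3) (d : ℕ) (s s' : ℂ → V n) (c : ℂ) (ρ r ε C : ℝ) : Prop :=
  ∃ (G : ℂ → ℂ) (E : ℂ → ℝ), DifferentiableOn ℂ G (ball c (3 * ρ)) ∧
    ContinuousOn E (ball c (3 * ρ) \ ball c r) ∧ ∀ t ∈ ball c (3 * ρ),
      ‖G t‖ ≤ C ∧ (t ∈ D.L.lattice → G t = 0) ∧ (r ≤ ‖t - c‖ → |E t| ≤ ε ∧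
        (Zp D Q t (s t) (s' t) ↔ t ∉ D.L.lattice ∧ G t ≠ 0) ∧
        (Zp D Q t (s t) (s' t) → uu D Q d t (s t) (s' t) = bt D.L G t + E t))

/-- The model from the winding numbers. -/
def CoreStmt : Prop := ∀ (n : ℕ) (D : Fib n) (Q : PR 3) (d : ℕ) (κ : ℝ) (u : Ultrafilter ℕ) (b : ℂ)
  (R : ℝ) (s s' : ℕ → ℂ → V n) (g : ℂ → V n) (a j : Fin n) (O : Set (ℂ × ℂ)) (Y : ℂ × ℂ → V n),
  QV D Q d → 0 < κ → (∀ t ∈ ball b R, t ∈ D.B → t = b) → Bs D.X D.U u b R s g a j O Y →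
  (∀ k, Nm D.X (ball b R) (s' k) id) → Cv u (ball b R \ {b}) s' g →
  (∃ ρ₀ : ℝ, 0 < ρ₀ ∧ ∀ ρ₁ : ℝ, 0 < ρ₁ → ∀ᶠ k in u, ∀ ρ ∈ Icc ρ₁ ρ₀, ∀ w : ℤ,
    Wn b ρ (Gf D.Φ Q (D.m * d) a j Y (s k) (s' k)) w → 0 ≤ w ∧ (b ∈ D.L.lattice → 1 ≤ w)) →
  (∃ (ρ₀ : ℝ) (N : ℤ), 0 < ρ₀ ∧ ∀ ρ₁ : ℝ, 0 < ρ₁ → ∀ᶠ k in u, ∀ ρ ∈ Icc ρ₁ ρ₀, ∀ w : ℤ,
    Wn b ρ (fun t => s' k t j) w → w ≤ N) →
  (∃ ρ₀ : ℝ, 0 < ρ₀ ∧ ∀ ρ₁ : ℝ, 0 < ρ₁ → ∃ A : ℝ, ∀ᶠ k in u, ∀ t, ρ₁ ≤ ‖t - b‖ → ‖t - b‖ ≤ ρ₀ →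
    ‖Gf D.Φ Q (D.m * d) a j Y (s k) (s' k) t‖ ≤ A) →
  ∃ ρ C : ℝ, 0 < ρ ∧ 4 * ρ ≤ R ∧ ∀ᶠ k in u, Ap D Q d (s k) (s' k) b ρ (ρ / 2) (κ * ρ ^ 2) C

/-- The limit form of the model at any centre, limit not in the boundary. -/
def LimAStmt : Prop := ∀ (n : ℕ) (D : Fib n) (Q : PR 3) (d : ℕ) (κ : ℝ) (u : Ultrafilter ℕ) (b : ℂ)
  (R : ℝ) (s s' : ℕ → ℂ → V n) (g : ℂ → V n), QV D Q d → 0 < κ → 0 < R →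
  (∀ t ∈ ball b R, t ∈ D.B → t = b) → (∀ k, Nm D.Xo (ball b R) (s k) id) →
  (∀ k, Nm D.Xo (ball b R) (s' k) id) → Nm D.X (ball b R) g id → Cv u (ball b R \ {b}) s g →
  Cv u (ball b R \ {b}) s' g → (∀ t ∈ ball b R \ {b}, g t ∈ Cone D.U) →
  ∃ ρ C : ℝ, 0 < ρ ∧ 4 * ρ ≤ R ∧ ∀ᶠ k in u, Ap D Q d (s k) (s' k) b ρ (ρ / 2) (κ * ρ ^ 2) C

/-- The same for a limit in the boundary. -/
def LimBStmt : Prop := ∀ (n : ℕ) (D : Fib n) (Q : PR 3) (d : ℕ) (κ : ℝ) (u : Ultrafilter ℕ) (b : ℂ)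
  (R : ℝ) (s : ℕ → ℂ → V n) (g : ℂ → V n), QV D Q d → 0 < κ → 0 < R →
  (∀ t ∈ ball b R, t ∈ D.B → t = b) → (∀ k, Nm D.Xo (ball b R) (s k) id) →
  Nm D.X (ball b R) g id → Cv u (ball b R \ {b}) s g → (∀ t ∈ ball b R, g t ∉ Cone D.U) →
  ∃ ρ C : ℝ, 0 < ρ ∧ 4 * ρ ≤ R ∧ ∀ᶠ k in u, Ap D Q d (s k) g b ρ (ρ / 2) (κ * ρ ^ 2) C

/-- The model at a bad value. -/
def LocBStmt : Prop := ∀ (n : ℕ) (D : Fib n) (Q : PR 3) (d : ℕ) (η κ ρ₀ : ℝ), QV D Q d →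
  0 < η → 0 < κ → 0 < ρ₀ → (∀ b ∈ D.B, ∀ t ∈ D.B, t ≠ b → 4 * ρ₀ ≤ ‖t - b‖) →
  ∃ δ ρ₁ C : ℝ, 0 < δ ∧ 0 < ρ₁ ∧ ∀ b ∈ D.B, ∀ s s', Sc D.Xo (ball b (4 * ρ₀)) s →
    Sc D.X (ball b (4 * ρ₀)) s' →
    (((∀ t ∈ ball b (4 * ρ₀), s' t ∈ Cone D.U) ∧ Aw D η (b + 2 * ρ₀) (s (b + 2 * ρ₀))) ∨
      ∀ t ∈ ball b (4 * ρ₀), s' t ∉ Cone D.U) →
    (∀ t ∈ ball b (4 * ρ₀), δ ≤ ‖t - b‖ → d2 (s t) (s' t) ≤ δ) →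
    ∃ ρ ∈ Icc ρ₁ ρ₀, Ap D Q d s s' b ρ (ρ / 2) (κ * ρ ^ 2) C

/-- The model at a good value of a strip. -/
def LocGStmt : Prop := ∀ (n : ℕ) (D : Fib n) (Q : PR 3) (d : ℕ) (η κ ρ₁ M : ℝ), QV D Q d →
  0 < η → 0 < κ → 0 < ρ₁ → ∃ δ ρ₂ C : ℝ, 0 < δ ∧ 0 < ρ₂ ∧ ∀ c s s', |c.re| ≤ M →
    Far D (2 * ρ₁) c → Sc D.Xo (ball c ρ₁) s → Sc D.X (ball c ρ₁) s' →
    (Aw D η c (s c) ∨ ∀ t ∈ ball c ρ₁, s' t ∉ Cone D.U) →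
    (∀ t ∈ ball c ρ₁, d2 (s t) (s' t) ≤ δ) →
    ∃ ρ ∈ Icc ρ₂ (ρ₁ / 3), Ap D Q d s s' c ρ 0 (κ * ρ ^ 2) C

/-- Continuity of `uu` in a fibre. -/
def ContStmt : Prop := ∀ (n : ℕ) (D : Fib n) (Q : PR 3) (d : ℕ) (t : ℂ) (y y' : V n) (ε : ℝ),
  Q.IsHomogeneous d → (t, y) ∈ Rx D.X → y' ≠ 0 → Zp D Q t y y' → 0 < ε → ∃ η : ℝ, 0 < η ∧
    ∀ w w', (t, w) ∈ D.X → w' ≠ 0 → d2 w y ≤ η → d2 w' y' ≤ η →
      Zp D Q t w w' ∧ uu D Q d t y y' ≤ uu D Q d t w w' + ε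

/-! ### Rows Sep, LM, Bd, Fin, Cur -/

/-- `g` and `g'` are close on a half-strip, away from the bad values. -/
def Hc (D : Fib n) (M : ℝ) (g g' : ℂ → V n) (δ : ℝ) : Prop := ∃ σ y₀ : ℝ, (σ = 1 ∨ σ = -1) ∧
  ∀ t : ℂ, |t.re| ≤ M → y₀ < σ * t.im → Far D δ t → d2 (g t) (g' t) ≤ δ

/-- Entire sections inside a curve. -/
def InC (D : Fib n) (B : PR n) (g : ℂ → V n) : Prop := Sc D.X univ g ∧ ∀ t, eval (g t) B = 0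

def SecFinStmt : Prop := ∀ (n : ℕ) (D : Fib n) (B : PR n), NZ D.X B → Fn (InC D B)

/-- Finite invariant classes are compact and separated on half-strips. -/
def SepStmt : Prop := ∀ (n : ℕ) (D : Fib n) (P : (ℂ → V n) → Prop), Inv D P → Fn P → Cp D P ∧
  ∃ δ₀ : ℝ, 0 < δ₀ ∧ ∀ δ ≤ δ₀, ∀ M, 1 ≤ M → ∀ g g', P g → P g' → Hc D M g g' δ →
    ∀ t, Pp (g t) (g' t)

/-- Translation to a point of least modulus. -/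
def LMStmt : Prop := ∀ (n : ℕ) (D : Fib n) (P P' : (ℂ → V n) → Prop) (M δ : ℝ)
  (u : Ultrafilter ℕ) (g g' : ℕ → ℂ → V n) (G₀ : ℂ → V n), Inv D P → Inv D P' → Cp D P →
  Cp D P' → 0 < δ → (∀ k, P (g k) ∧ P' (g' k)) → Cv u D.Bᶜ g G₀ → Cv u D.Bᶜ g' G₀ →
  (∀ᶠ k in u, ∃ t : ℂ, |t.re| ≤ M ∧ Far D δ t ∧ δ ≤ d2 (g k t) (g' k t)) →
  ∃ G G', P G ∧ P' G' ∧ Hc D M G G' δ ∧ ∃ t, ¬Pp (G t) (G' t)

/-- In an expansive situation a convergent sequence is eventually constant. -/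
def KeyStmt : Prop := ∀ (n : ℕ) (D : Fib n) (P P' : (ℂ → V n) → Prop) (M δ : ℝ)
  (u : Ultrafilter ℕ) (g : ℕ → ℂ → V n) (G₀ : ℂ → V n), Inv D P → Inv D P' → Cp D P → Cp D P' →
  0 < δ → (∀ G G', P G → P' G' → Hc D M G G' δ → ∀ t, Pp (G t) (G' t)) → (∀ k, P (g k)) →
  P' G₀ → Cv u D.Bᶜ g G₀ → ∀ᶠ k in u, ∀ t, Pp (g k t) (G₀ t)

/-- Expansivity against the boundary. -/
def ExpBP (D : Fib n) : Prop := ∃ (M δ₀ : ℝ) (B : PR n), 0 < δ₀ ∧ NZ D.X B ∧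
  (∀ x ∈ D.X, x.2 ∉ Cone D.U → eval x.2 B = 0) ∧ ∀ δ ≤ δ₀, ∀ g γ, Adm D g → Sc D.X univ γ →
    InB D γ → Hc D M g γ δ → ∀ t, eval (g t) B = 0

/-- Admissible sections stay away from the boundary on strips. -/
def BdP (D : Fib n) : Prop := ∀ r M : ℝ, 0 < r → ∃ η : ℝ, 0 < η ∧
  ∀ g, Adm D g → ¬InB D g → ∀ t : ℂ, |t.re| ≤ M → Far D r t → Aw D η t (g t)

def BdStmt : Prop := ∀ (n : ℕ) (D : Fib n), ExpBP D → BdP D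

/-- Expansivity. -/
def Exp0P (D : Fib n) : Prop := ∃ (M δ₀ : ℝ) (B : PR n), 0 < δ₀ ∧ NZ D.X B ∧
  ∀ δ ≤ δ₀, ∀ g g', Adm D g → Adm D g' → ¬InB D g → ¬InB D g' → Hc D M g g' δ →
    (∀ t, Pp (g t) (g' t)) ∨ ∀ t, eval (g t) B = 0

def FinP (D : Fib n) : Prop := Fn fun g => Adm D g ∧ ¬InB D g

def FinStmt : Prop := ∀ (n : ℕ) (D : Fib n), BdP D → Exp0P D → FinP D

/-- The admissible sections outside the boundary lie in a curve. -/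
def Cur0P (D : Fib n) : Prop := ∃ R, NZ D.X R ∧
  ∀ g, Adm D g → ¬InB D g → ∀ t, eval (g t) R = 0

/-! ### Rows Lim0, Glue: the almost subharmonic function of a pair of limit sections -/

/-- The pairs. -/
def Pr (D : Fib n) (g g' : ℂ → V n) : Prop := Adm D g ∧
  ((BdP D ∧ ¬InB D g ∧ Adm D g' ∧ ¬InB D g') ∨ (Sc D.X univ g' ∧ InB D g'))

/-- A holomorphic model with a measurable error term. -/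
def Aq (D : Fib n) (Q : PR 3) (d : ℕ) (s s' : ℂ → V n) (c : ℂ) (ρ r ε C : ℝ) : Prop :=
  ∃ (G : ℂ → ℂ) (E : ℂ → ℝ), DifferentiableOn ℂ G (ball c (3 * ρ)) ∧
    AEStronglyMeasurable E (volume.restrict (ball c (3 * ρ) \ closedBall c r)) ∧
    ∀ t ∈ ball c (3 * ρ), ‖G t‖ ≤ C ∧ (t ∈ D.L.lattice → G t = 0) ∧ (r < ‖t - c‖ → |E t| ≤ ε ∧
      (Zp D Q t (s t) (s' t) ↔ t ∉ D.L.lattice ∧ G t ≠ 0) ∧
      (Zp D Q t (s t) (s' t) → uu D Q d t (s t) (s' t) = bt D.L G t + E t))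

/-- The model passes to the limit. -/
def Lim0Stmt : Prop := ∀ (n : ℕ) (D : Fib n) (Q : PR 3) (d : ℕ) (u : Ultrafilter ℕ) (b : ℂ)
  (R ρ κ C : ℝ) (r : ℕ → ℝ) (s s' : ℕ → ℂ → V n) (g g' : ℂ → V n), QV D Q d → 0 < ρ →
  3 * ρ ≤ R → Tendsto r u (𝓝 ρ) → (∀ t ∈ ball b R, t ∈ D.B → t = b) →
  (∀ᶠ k in u, Sc D.X (ball b R) (s k) ∧ Sc D.X (ball b R) (s' k) ∧
    Ap D Q d (s k) (s' k) b (r k) (r k / 2) (κ * r k ^ 2) C) →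
  Sc D.Xo (ball b R \ {b}) g → Sc D.X (ball b R \ {b}) g' → Cv u (ball b R \ {b}) s g →
  Cv u (ball b R \ {b}) s' g' → Aq D Q d g g' b ρ (ρ / 2) (κ * ρ ^ 2) C

/-- The model at a bad value, for pairs of limit sections. -/
def LocLStmt : Prop := ∀ (n : ℕ) (D : Fib n) (Q : PR 3) (d : ℕ) (κ ρ₀ : ℝ), QV D Q d →
  0 < κ → 0 < ρ₀ → (∀ b ∈ D.B, ∀ t ∈ D.B, t ≠ b → 8 * ρ₀ ≤ ‖t - b‖) →
  ∃ δ ρ₁ C : ℝ, 0 < δ ∧ 0 < ρ₁ ∧ ∀ b ∈ D.B, ∀ g g', Pr D g g' → ¬InB D g →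
    (∀ t ∈ ball b (4 * ρ₀), δ ≤ ‖t - b‖ → d2 (g t) (g' t) ≤ δ) →
    ∃ ρ ∈ Icc ρ₁ ρ₀, Aq D Q d g g' b ρ (ρ / 2) (κ * ρ ^ 2) C

/-- `u` is sub-mean at `t` with the gain `c`. -/
def Sb (u : ℂ → ℝ) (Z : Set ℂ) (t : ℂ) (ρ c : ℝ) : Prop :=
  (∀ᵐ w, w ∈ ball t ρ → w ∈ Z) ∧ IntegrableOn u (ball t ρ) ∧
    Real.pi * ρ ^ 2 * (u t + c) ≤ ∫ w in ball t ρ, u w

/-- The function `uu` of a close pair, modified near the bad values, is sub-mean on half-strips;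
the gain and the upper bound do not depend on the width. -/
def GlueStmt : Prop := ∀ (n : ℕ) (D : Fib n) (Q : PR 3) (d : ℕ), QV D Q d →
  ∃ ρ c : ℝ, 0 < ρ ∧ ρ ≤ 1 ∧ 0 < c ∧ (∀ t₀ : ℂ, ∃ t, ‖t - t₀‖ ≤ 4 * ρ ∧ Far D (2 * ρ) t) ∧
  ∀ M₀ : ℝ, ∃ A : ℝ, ∀ M, M₀ ≤ M → ∃ δ r : ℝ, 0 < δ ∧ 0 < r ∧
    ∀ (g g' : ℂ → V n) (σ y₀ : ℝ), σ = 1 ∨ σ = -1 → Pr D g g' →
    (∀ t : ℂ, |t.re| ≤ M + 1 → y₀ < σ * t.im → Far D δ t → d2 (g t) (g' t) ≤ δ) →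
    ∃ (u : ℂ → ℝ) (Z : Set ℂ), (∀ t, Far D ρ t → u t = uu D Q d t (g t) (g' t) ∧
        (t ∈ Z ↔ Zp D Q t (g t) (g' t))) ∧
      ∀ t ∈ Z, y₀ + 1 < σ * t.im → (|t.re| ≤ M₀ → u t ≤ A) ∧ (|t.re| ≤ M →
        ∃ ρ' ∈ Icc r 1, Sb u Z t ρ' (if |t.re| ≤ 2 then c * ρ' ^ 2 else 0))

/-! ### Rows Hd, ND: charged sequences of discs -/

/-- Points in a compact part of the good region. -/
def Mid (D : Fib n) (P : PR n) (e : ℕ) (η M : ℝ) (t : ℂ) (y : V n) : Prop :=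
  Far D η t ∧ |t.re| ≤ M ∧ η * ‖y‖ ^ e ≤ ‖eval y P‖

def HdStmt : Prop := ∀ (n : ℕ) (D : Fib n) (P₀ P₁ : PR n) (e : ℕ) (η M : ℝ), UQ D.X P₀ P₁ e →
  0 < η → ∃ C : ℝ, 0 < C ∧ ∀ (F : ℂ → V n) (h : ℂ → ℂ) (c : ℂ) (ρ m : ℝ), 0 < ρ → 1 ≤ m →
    Nm D.Xo (ball c ρ) F h → Mid D P₁ e η M (h c) (F c) →
    mu (lam F) (ball c ρ) ≤ ENNReal.ofReal m → ∀ z ∈ ball c (ρ / 8), ‖deriv h z‖ * ρ ≤ C * m ^ 2

def NSq (D : Fib n) (P : PR n) (e : ℕ) (η M : ℝ) (F : ℕ → ℂ → V n) (h : ℕ → ℂ → ℂ) (R : ℕ → ℝ)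
    (S : ℕ → Set ℂ) : Prop :=
  Tendsto R atTop atTop ∧ ∀ k, Nm D.Xo (ball 0 (R k)) (F k) (h k) ∧ S k ⊆ ball 0 1 ∧ 1 ≤ R k ∧
    ∀ z ∈ S k, Mid D P e η M (h k z) (F k z)

def NDAStmt : Prop := ∀ (n : ℕ) (D : Fib n) (P₀ P₁ : PR n) (e : ℕ) (η M Λ : ℝ)
  (F : ℕ → ℂ → V n) (h : ℕ → ℂ → ℂ) (R : ℕ → ℝ) (S : ℕ → Set ℂ) (μ : ℕ → ℝ), UQ D.X P₀ P₁ e →
  0 < η → NSq D P₁ e η M F h R S → Tendsto μ atTop atTop →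
  (∀ᶠ k in atTop, ENNReal.ofReal (μ k) ≤ mu (lam (F k)) (S k) ∧
    mu (lam (F k)) (ball 0 64) ≤ ENNReal.ofReal (Λ * μ k)) →
  ∃ s, Adm D s ∧ ∃ t, s t ∈ closure {y | ∃ k, ∃ z ∈ S k, Pp y (F k z)}

def NDBStmt : Prop := ∀ (n : ℕ) (D : Fib n) (P₀ P₁ : PR n) (e : ℕ) (η M Λ ε : ℝ)
  (F : ℕ → ℂ → V n) (h : ℕ → ℂ → ℂ) (R : ℕ → ℝ) (S : ℕ → Set ℂ), UQ D.X P₀ P₁ e → 0 < η →
  0 < ε → NSq D P₁ e η M F h R S →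
  (∀ k, MeasurableSet (S k) ∧ ENNReal.ofReal ε ≤ mu (lam (F k)) (S k)) →
  (∀ j : ℕ, ∃ᶠ k in atTop,
    mu (lam (F k)) (ball 0 (Real.exp (3 * j))) ≤ ENNReal.ofReal (Λ * 2 ^ j)) → False

def NDStmt : Prop := ∀ (n : ℕ) (D : Fib n), Cur0P D → ∃ T, NZ D.X T ∧ G2.NoChg D.U T

end Pool.Agent.MP_c69980_ag.E2.G3S
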